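import Mathlib.Algebra.Notation.Lemmas
import Mathlib.Tactic.SuppressCompilation
import Mathlib.Analysis.Complex.Exponential
import Mathlib.Algebra.Order.Star.Real
import Mathlib.Tactic.Algebra.Basic

-- ======== part 0: formerly Pool.Agent.MP_6f6f6b_co.Defs
section MrgPart0

set_option autoImplicit false
set_option linter.unusedVariables false

open Finset
open scoped Classical

namespace Pool.Agent.MP_6f6f6b_co

/-- A host digraph seen through its two adjacency relations; every vertex has fewer than
a third of all vertices as non-neighbours, in each direction. -/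
structure Host (β : Type) [Fintype β] where
  R : Bool → β → β → Prop
  symm : ∀ b x y, R b x y ↔ R (!b) y x
  deg : ∀ b x, 3 * (univ.filter fun y => ¬ R b x y).card < Fintype.card β

/-- A rooted tree with directions on its edges. -/
structure RTree (α : Type) where
  r : α
  p : α → α
  dep : α → ℕ
  dir : α → Bool
  p_r : p r = r
  dep_r : dep r = 0
  dep_p : ∀ v, v ≠ r → dep v = dep (p v) + 1

/-- An embedding of the tree in the host. -/
def Emb {α β : Type} [Fintype β] (T : RTree α) (H : Host β) (φ : α → β) : Prop :=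
  Function.Injective φ ∧ ∀ v, v ≠ T.r → H.R (T.dir v) (φ (T.p v)) (φ v)

namespace Host

variable {β : Type} [Fintype β] (H : Host β)

/-- Non-neighbours. -/
noncomputable def non (b : Bool) (x : β) : Finset β := univ.filter fun y => ¬ H.R b x y

theorem mem_non {b : Bool} {x y : β} : y ∈ H.non b x ↔ ¬ H.R b x y := by simp [non]

theorem mem_non' {b : Bool} {x y : β} : y ∈ H.non (!b) x ↔ ¬ H.R b y x := by
  rw [mem_non, H.symm b y x]

theorem card_non (b : Bool) (x : β) : ((H.non b x).card : ℝ) ≤ Fintype.card β / 3 := by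
  have h := H.deg b x
  have : ((3 * (H.non b x).card : ℕ) : ℝ) < (Fintype.card β : ℝ) := by exact_mod_cast h
  push_cast at this
  linarith

theorem card_pos (x : β) : 0 < Fintype.card β := Fintype.card_pos_iff.2 ⟨x⟩

end Host

end Pool.Agent.MP_6f6f6b_co

end MrgPart0

-- ======== part 1: formerly Pool.Agent.MP_6f6f6b_co.Decomp
section MrgPart1

set_option autoImplicit false
set_option linter.unusedVariables false
set_option linter.unusedSectionVars false

open Finset
open scoped Classical

namespace Pool.Agent.MP_6f6f6b_co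

variable {α : Type}

theorem RTree.ind (T : RTree α) (P : α → Prop) (h : ∀ x, (x ≠ T.r → P (T.p x)) → P x) : ∀ x, P x := by
  have : ∀ d x, T.dep x = d → P x := by
    intro d
    induction d using Nat.strong_induction_on with
    | _ d ih =>
      intro x hx
      refine h x fun hr => ih (T.dep (T.p x)) ?_ _ rfl
      have := T.dep_p x hr
      omega
  exact fun x => this _ x rfl

/-- Climb at most `k` steps until `Q` holds. -/
noncomputable def RTree.up (T : RTree α) (Q : α → Prop) : ℕ → α → α
  | 0, x => x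
  | k + 1, x => if Q x then x else T.up Q k (T.p x)

theorem RTree.exists_up (T : RTree α) (Q : α → Prop) (hr : Q T.r) :
    ∃ f : α → α, (∀ x, Q x → f x = x) ∧ (∀ x, ¬ Q x → f x = f (T.p x)) ∧ (∀ x, Q (f x)) ∧
      ∀ x, ∃ k, T.p^[k] x = f x := by
  have h1 : ∀ x, Q x → T.up Q (T.dep x) x = x := by
    intro x hx
    cases T.dep x <;> simp [RTree.up, hx]
  have h2 : ∀ x, ¬ Q x → T.up Q (T.dep x) x = T.up Q (T.dep (T.p x)) (T.p x) := by
    intro x hx
    rw [T.dep_p x (by rintro rfl; exact hx hr)]
    simp [RTree.up, hx]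
  refine ⟨fun x => T.up Q (T.dep x) x, h1, h2, ?_, ?_⟩
  · refine T.ind _ fun x ih => ?_
    dsimp only at ih ⊢
    by_cases hx : Q x
    · rw [h1 x hx]; exact hx
    · rw [h2 x hx]; exact ih (by rintro rfl; exact hx hr)
  · refine T.ind _ fun x ih => ?_
    by_cases hx : Q x
    · exact ⟨0, (h1 x hx).symm⟩
    · obtain ⟨k, hk⟩ := ih (by rintro rfl; exact hx hr)
      exact ⟨k + 1, by rw [Function.iterate_succ_apply, hk]; exact (h2 x hx).symm⟩

theorem RTree.dep_iter (T : RTree α) (k : ℕ) : ∀ s, T.p^[k] s ≠ T.r →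
    T.dep s = T.dep (T.p^[k + 1] s) + (k + 1) := by
  induction k with
  | zero => intro s hs; simpa using T.dep_p s hs
  | succ k ih =>
    intro s hs
    rw [Function.iterate_succ_apply] at hs
    have h1 := ih _ hs
    have h2 : s ≠ T.r := by
      rintro rfl
      apply hs
      rw [T.p_r]
      exact Function.iterate_fixed T.p_r k
    have h3 := T.dep_p s h2
    rw [Function.iterate_succ_apply (n := k + 1)]
    omega

/-- The children of `v` inside `A`. -/
noncomputable def RTree.ch (T : RTree α) (A : Finset α) (v : α) : Finset α :=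
  A.filter fun c => c ≠ T.r ∧ T.p c = v

theorem RTree.mem_ch (T : RTree α) {A : Finset α} {v c : α} :
    c ∈ T.ch A v ↔ c ∈ A ∧ c ≠ T.r ∧ T.p c = v := by simp [RTree.ch]

/-- In a forest there are at least as many leaves as branch vertices and roots together. -/
theorem RTree.forest_count (T : RTree α) (A : Finset α) :
    (A.filter fun v => 2 ≤ (T.ch A v).card).card + (A.filter fun v => ¬ (v ≠ T.r ∧ T.p v ∈ A)).card
      ≤ (A.filter fun v => (T.ch A v).card = 0).card := by
  have h1 : (A.filter fun v => v ≠ T.r ∧ T.p v ∈ A).card = ∑ v ∈ A, (T.ch A v).card := by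
    rw [card_eq_sum_card_fiberwise (f := T.p) (t := A) fun c hc => (mem_filter.1 (mem_coe.1 hc)).2.2]
    refine sum_congr rfl fun v hv => ?_
    congr 1
    ext c
    simp only [mem_filter, T.mem_ch]
    constructor
    · rintro ⟨⟨h1, h2, h3⟩, h4⟩; exact ⟨h1, h2, h4⟩
    · rintro ⟨h1, h2, h3⟩; exact ⟨⟨h1, h2, h3 ▸ hv⟩, h3⟩
  have h2 := card_filter_add_card_filter_not (s := A) fun v => v ≠ T.r ∧ T.p v ∈ A
  have h3 : (A.filter fun v => 2 ≤ (T.ch A v).card).card + A.card
      ≤ ∑ v ∈ A, (T.ch A v).card + (A.filter fun v => (T.ch A v).card = 0).card := by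
    rw [card_filter, card_filter, card_eq_sum_ones A, ← sum_add_distrib, ← sum_add_distrib]
    refine sum_le_sum fun v _ => ?_
    split_ifs <;> omega
  omega

/-- A decomposition of a rooted tree into a separator, an exceptional set and bounded pieces. -/
structure Dec (T : RTree α) (K' : ℕ) where
  S : Finset α
  G : Finset α
  U : Finset α
  top : α → α
  cover : ∀ v, v ∈ S ∨ v ∈ G ∨ v ∈ U
  dSG : ∀ v ∈ S, v ∉ G
  dSU : ∀ v ∈ S, v ∉ U
  dGU : ∀ v ∈ G, v ∉ U
  r_mem : T.r ∈ S
  S_par : ∀ s ∈ S, T.p s ∉ U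
  G_ch : ∀ c c', c ∉ G → c' ∉ G → T.p c ∈ G → T.p c = T.p c' → c = c'
  top_in : ∀ x ∈ U, T.p x ∈ U → top (T.p x) = top x
  top_out : ∀ x ∈ U, T.p x ∉ U → top x = x
  piece : ∀ a, (U.filter fun x => top x = a).card ≤ K'

theorem exists_dec [Fintype α] (T : RTree α) (J K : ℕ) (hJ : 0 < J) (hK : 0 < K) :
    ∃ D : Dec T (J * K), D.S.card ≤ J * (2 + 2 * (Fintype.card α / K)) ∧
      D.G.card * J ≤ Fintype.card α := by
  let sub : α → Finset α := fun y => univ.filter fun x => ∃ k, T.p^[k] x = y
  let big : α → Prop := fun y => y = T.r ∨ K < (sub y).card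
  have big_p : ∀ y, big y → big (T.p y) := by
    rintro y (rfl | h)
    · exact Or.inl T.p_r
    · refine Or.inr (lt_of_lt_of_le h (card_le_card fun x hx => ?_))
      simp only [sub, mem_filter, mem_univ, true_and] at hx ⊢
      obtain ⟨k, hk⟩ := hx
      exact ⟨k + 1, by rw [Function.iterate_succ_apply', hk]⟩
  have big_it : ∀ k y, big y → big (T.p^[k] y) := by
    intro k
    induction k with
    | zero => exact fun _ h => h
    | succ k ih => intro y h; rw [Function.iterate_succ_apply']; exact big_p _ (ih y h)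
  obtain ⟨an, an1, an2, an3, -⟩ := T.exists_up big (Or.inl rfl)
  let Bg : Finset α := univ.filter big
  have mBg : ∀ v, v ∈ Bg ↔ big v := fun v => by simp [Bg]
  let cw : α → ℕ := fun v => (univ.filter fun x => an x = v).card
  let S1 : Finset α := insert T.r ((univ.filter fun v => K < cw v) ∪ Bg.filter fun v => 2 ≤ (T.ch Bg v).card)
  have hheavy : (univ.filter fun v => K < cw v).card ≤ Fintype.card α / K := by
    rw [Nat.le_div_iff_mul_le hK, ← card_univ,
      card_eq_sum_card_fiberwise (f := an) (s := univ) (t := univ) fun _ _ => mem_coe.2 (mem_univ _),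
      ← smul_eq_mul, ← sum_const]
    exact (sum_le_sum fun v hv => (mem_filter.1 hv).2.le).trans (sum_le_sum_of_subset (subset_univ _))
  have hless : (Bg.filter fun v => (T.ch Bg v).card = 0) ⊆ insert T.r (univ.filter fun v => K < cw v) := by
    intro v hv
    obtain ⟨h1, h2⟩ := mem_filter.1 hv
    rw [mem_insert, mem_filter]
    by_cases hr : v = T.r
    · exact Or.inl hr
    refine Or.inr ⟨mem_univ _, lt_of_lt_of_le (((mBg v).1 h1).resolve_left hr) (card_le_card ?_)⟩
    intro x hx
    simp only [sub, mem_filter, mem_univ, true_and] at hx ⊢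
    obtain ⟨k, hk⟩ := hx
    induction k generalizing x with
    | zero => rw [show x = v from hk]; exact an1 v ((mBg v).1 h1)
    | succ k ih =>
      have e := @ih (T.p x) hk
      by_cases hb : big x
      · rw [an1 _ (big_p x hb)] at e
        have : x ∈ T.ch Bg v := T.mem_ch.2 ⟨(mBg x).2 hb, by rintro rfl; exact hr (T.p_r ▸ e).symm, e⟩
        rw [card_eq_zero] at h2
        rw [h2] at this
        simp at this
      · rw [an2 x hb, e]
  have hS1 : S1.card ≤ 2 + 2 * (Fintype.card α / K) := by
    have e1 := T.forest_count Bg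
    have e2 := (card_le_card hless).trans (card_insert_le _ _)
    have e3 : S1.card ≤ _ := (card_insert_le _ _).trans (Nat.add_le_add_right (card_union_le _ _) 1)
    omega
  have S1big : ∀ s ∈ S1, big s := by
    intro s hs
    rcases mem_insert.1 hs with rfl | hs
    · exact Or.inl rfl
    rcases mem_union.1 hs with h | h
    · have : 0 < cw s := lt_trans hK (mem_filter.1 h).2
      obtain ⟨x, hx⟩ := card_pos.1 this
      exact (mem_filter.1 hx).2 ▸ an3 x
    · exact (mBg s).1 (mem_filter.1 h).1
  obtain ⟨j, hj, hjw⟩ : ∃ j ∈ range J,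
      (univ.filter fun x => (T.dep (an x) + 1 + j) % J = 0).card * J ≤ Fintype.card α := by
    apply exists_le_of_sum_le (nonempty_range_iff.2 hJ.ne')
    rw [← sum_mul, sum_const, card_range, smul_eq_mul, mul_comm J]
    refine Nat.mul_le_mul_right _ ?_
    rw [← card_biUnion]
    · exact card_le_univ _
    · intro a ha b hb hab
      rw [Function.onFun, disjoint_left]
      intro x h1 h2
      have e : T.dep (an x) + 1 + a ≡ T.dep (an x) + 1 + b [MOD J] :=
        (mem_filter.1 h1).2.trans (mem_filter.1 h2).2.symm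
      exact hab ((Nat.ModEq.add_left_cancel' _ e).eq_of_lt_of_lt (mem_range.1 ha) (mem_range.1 hb))
  let S : Finset α := S1.biUnion fun s => (range ((T.dep s + j) % J + 1)).image fun k => T.p^[k] s
  have mS : ∀ v, v ∈ S ↔ ∃ s ∈ S1, ∃ k, k ≤ (T.dep s + j) % J ∧ T.p^[k] s = v := fun v => by
    simp [S]
  have S1S : ∀ s ∈ S1, s ∈ S := fun s hs => (mS s).2 ⟨s, hs, 0, Nat.zero_le _, rfl⟩
  have Sbig : ∀ s ∈ S, big s := fun s hs => by
    obtain ⟨s1, h1, k, -, rfl⟩ := (mS s).1 hs
    exact big_it k _ (S1big _ h1)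
  have light : ∀ v, big v → v ∉ S → cw v ≤ K ∧ ∀ c c', big c → big c' → T.p c = v → T.p c' = v → c = c' := by
    intro v hb hv
    have h1 : v ∉ S1 := fun h => hv (S1S v h)
    simp only [S1, mem_insert, mem_union, mem_filter, mem_univ, true_and, not_or, not_lt, (mBg v).2 hb,
      not_le] at h1
    refine ⟨h1.2.1, fun c c' k1 k2 k3 k4 => ?_⟩
    have hc : ∀ c, big c → T.p c = v → c ∈ T.ch Bg v := fun c k1 k3 =>
      T.mem_ch.2 ⟨(mBg c).2 k1, by rintro rfl; exact h1.1 (T.p_r ▸ k3).symm, k3⟩
    exact card_le_one.1 (Nat.lt_succ_iff.1 h1.2.2) c (hc c k1 k3) c' (hc c' k2 k4)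
  let G : Finset α := univ.filter fun x => an x ∉ S ∧ (T.dep (an x) + 1 + j) % J = 0
  have mG : ∀ x, x ∈ G ↔ an x ∉ S ∧ (T.dep (an x) + 1 + j) % J = 0 := fun x => by simp [G]
  let U : Finset α := univ \ (S ∪ G)
  have mU : ∀ x, x ∈ U ↔ x ∉ S ∧ x ∉ G := fun x => by simp [U]
  have hrS : T.r ∈ S := S1S _ (mem_insert_self _ _)
  have Ur : ∀ x ∈ U, x ≠ T.r := by rintro x hx rfl; exact ((mU _).1 hx).1 hrS
  obtain ⟨top, top1, top2, -, top4⟩ := T.exists_up (fun x => x ∉ U ∨ T.p x ∉ U)
    (Or.inl fun h => Ur _ h rfl)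
  have top_in : ∀ x ∈ U, T.p x ∈ U → top (T.p x) = top x := fun x h1 h2 =>
    (top2 x (by simp [h1, h2])).symm
  have top_out : ∀ x ∈ U, T.p x ∉ U → top x = x := fun x _ h2 => top1 x (Or.inr h2)
  have top_dep : ∀ x, x ∈ U → T.dep (top x) ≤ T.dep x := by
    refine T.ind _ fun x ih hx => ?_
    by_cases hp : T.p x ∈ U
    · have := ih (Ur x hx) hp
      have := T.dep_p x (Ur x hx)
      rw [← top_in x hx hp]
      omega
    · rw [top_out x hx hp]
  have top_dep' : ∀ x ∈ U, T.p x ∈ U → T.dep (top x) < T.dep x := by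
    intro x hx hp
    have := top_dep _ hp
    have := T.dep_p x (Ur x hx)
    rw [← top_in x hx hp]
    omega
  have blk : ∀ v, v ∈ U → big v → (T.dep (top v) + 1 + j) / J = (T.dep v + 1 + j) / J := by
    refine T.ind _ fun v ih hv hb => ?_
    by_cases hp : T.p v ∈ U
    · rw [← top_in v hv hp, ih (Ur v hv) hp (big_p v hb)]
      have h1 := (mU v).1 hv
      have h2 : (T.dep v + 1 + j) % J ≠ 0 := fun h => h1.2 ((mG v).2 (by rw [an1 v hb]; exact ⟨h1.1, h⟩))
      have h3 : T.dep v + 1 + j = T.dep (T.p v) + 1 + j + 1 := by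
        have := T.dep_p v (Ur v hv)
        omega
      rw [h3] at h2 ⊢
      exact (Nat.succ_div_of_not_dvd fun h => h2 (Nat.mod_eq_zero_of_dvd h)).symm
    · rw [top_out v hv hp]
  have uniq : ∀ v, v ∈ U → big v → ∀ v' ∈ U, big v' → top v = top v' → T.dep v = T.dep v' → v = v' := by
    refine T.ind _ fun v ih hv hb v' hv' hb' ht hd => ?_
    by_cases hp : T.p v ∈ U <;> by_cases hp' : T.p v' ∈ U
    · have e := ih (Ur v hv) hp (big_p v hb) _ hp' (big_p v' hb')
        (by rw [top_in v hv hp, top_in v' hv' hp', ht]) (by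
          have := T.dep_p v (Ur v hv)
          have := T.dep_p v' (Ur v' hv')
          omega)
      exact (light _ (big_p v hb) ((mU _).1 hp).1).2 v v' hb hb' rfl e.symm
    · have := top_dep' v hv hp
      rw [ht, top_out v' hv' hp'] at this
      omega
    · have := top_dep' v' hv' hp'
      rw [← ht, top_out v hv hp] at this
      omega
    · rw [← top_out v hv hp, ht, top_out v' hv' hp']
  have anU : ∀ x, x ∈ U → big (top x) → an x ∈ U ∧ top (an x) = top x := by
    refine T.ind _ fun x ih hx hb => ?_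
    by_cases h : big x
    · rw [an1 x h]; exact ⟨hx, rfl⟩
    · have hp : T.p x ∈ U := by
        by_contra hp
        rw [top_out x hx hp] at hb
        exact h hb
      rw [an2 x h, ← top_in x hx hp]
      exact ih (Ur x hx) hp (top_in x hx hp ▸ hb)
  refine ⟨⟨S, G, U, top, ?_, ?_, fun v hv h => ((mU v).1 h).1 hv, fun v hv h => ((mU v).1 h).2 hv, hrS,
    ?_, ?_, top_in, top_out, ?_⟩, ?_, ?_⟩
  · intro v
    rw [mU]
    tauto
  · intro v hv h
    rw [mG, an1 v (Sbig v hv)] at h
    exact h.1 hv
  · intro s hs hp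
    have hb := big_p s (Sbig s hs)
    obtain ⟨hp1, hp2⟩ := (mU _).1 hp
    obtain ⟨s1, h1, k, hk, rfl⟩ := (mS s).1 hs
    have hr : T.p^[k] s1 ≠ T.r := fun h => hp1 (by rw [h, T.p_r]; exact hrS)
    rcases hk.lt_or_eq with hk | hk
    · exact hp1 ((mS _).2 ⟨s1, h1, k + 1, hk, Function.iterate_succ_apply' _ _ _⟩)
    · refine hp2 ((mG _).2 ?_)
      rw [an1 _ hb]
      refine ⟨hp1, Nat.mod_eq_zero_of_dvd ?_⟩
      have e := T.dep_iter k s1 hr
      rw [Function.iterate_succ_apply'] at e
      have e2 : T.dep (T.p (T.p^[k] s1)) + 1 + j = T.dep s1 + j - (T.dep s1 + j) % J := by omega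
      rw [e2]
      exact Nat.dvd_sub_mod _
  · intro c c' hc hc' hp he
    have key : ∀ c, c ∉ G → T.p c ∈ G → big c := by
      intro c hc hp
      by_contra hb
      rw [mG, ← an2 c hb, ← mG] at hp
      exact hc hp
    have hb := key c hc hp
    have hb' := key c' hc' (he ▸ hp)
    have := (mG _).1 hp
    rw [an1 _ (big_p c hb)] at this
    exact (light _ (big_p c hb) this.1).2 c c' hb hb' rfl he.symm
  · intro a
    by_cases hb : big a
    · set BP := U.filter fun v => big v ∧ top v = a with hBP
      have e1 : (U.filter fun x => top x = a) ⊆ BP.biUnion fun v => univ.filter fun x => an x = v := by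
        intro x hx
        obtain ⟨h1, h2⟩ := mem_filter.1 hx
        obtain ⟨h3, h4⟩ := anU x h1 (h2 ▸ hb)
        exact mem_biUnion.2 ⟨an x, mem_filter.2 ⟨h3, an3 x, h4.trans h2⟩, by simp⟩
      have e2 : BP.card ≤ J := by
        rw [← card_range J]
        refine card_le_card_of_injOn (fun v => (T.dep v + 1 + j) % J) ?_ ?_
        · intro v _
          exact mem_coe.2 (mem_range.2 (Nat.mod_lt _ hJ))
        · intro v hv v' hv' h
          obtain ⟨h1, h2, h3⟩ := mem_filter.1 (mem_coe.1 hv)
          obtain ⟨k1, k2, k3⟩ := mem_filter.1 (mem_coe.1 hv')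
          refine uniq v h1 h2 v' k1 k2 (h3.trans k3.symm) ?_
          have b1 := blk v h1 h2
          have b2 := blk v' k1 k2
          rw [h3] at b1
          rw [k3, b1] at b2
          have b3 := Nat.div_add_mod (T.dep v + 1 + j) J
          have b4 := Nat.div_add_mod (T.dep v' + 1 + j) J
          dsimp only at h
          rw [b2, h] at b3
          omega
      refine (card_le_card e1).trans ((card_biUnion_le_card_mul _ _ K fun v hv => ?_).trans
        (Nat.mul_le_mul_right K e2))
      obtain ⟨h1, h2, h3⟩ := mem_filter.1 hv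
      exact (light v h2 ((mU v).1 h1).1).1
    · have e1 : (U.filter fun x => top x = a) ⊆ sub a := by
        intro x hx
        simp only [sub, mem_filter, mem_univ, true_and]
        exact (mem_filter.1 hx).2 ▸ top4 x
      have e2 : (sub a).card ≤ K := not_lt.1 fun h => hb (Or.inr h)
      exact (card_le_card e1).trans (e2.trans (Nat.le_mul_of_pos_left K hJ))
  · refine (card_biUnion_le_card_mul _ _ J fun s _ => ?_).trans ?_
    · refine card_image_le.trans ?_
      rw [card_range]
      exact Nat.mod_lt _ hJ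
    · rw [mul_comm]
      exact Nat.mul_le_mul_left J hS1
  · refine le_trans (Nat.mul_le_mul_right J (card_le_card fun x hx => ?_)) hjw
    exact mem_filter.2 ⟨mem_univ _, ((mG x).1 hx).2⟩

end Pool.Agent.MP_6f6f6b_co

end MrgPart1

-- ======== part 2: formerly Pool.Agent.MP_6f6f6b_co.Seq
section MrgPart2

set_option autoImplicit false
set_option linter.unusedVariables false

open Finset

namespace Pool.Agent.MP_6f6f6b_co

theorem exp_le_quad (y : ℝ) (h0 : 0 ≤ y) (h1 : y ≤ 1) : Real.exp y ≤ 1 + y + y ^ 2 := by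
  have := Real.abs_exp_sub_one_sub_id_le (x := y) (by rw [abs_le]; constructor <;> linarith)
  have := (abs_le.1 this).2
  linarith

/-- Some point of positive weight is at most the weighted average. -/
theorem exists_le_avg {Ω : Type} [Fintype Ω] (ω : Ω → ℝ) (h0 : ∀ o, 0 ≤ ω o) (h1 : ∑ o, ω o = 1)
    (F : Ω → ℝ) : ∃ o, 0 < ω o ∧ F o ≤ ∑ o', ω o' * F o' := by
  by_contra hcon
  push Not at hcon
  have hex : ∃ o, 0 < ω o := by
    by_contra h
    push Not at h
    have : ∑ o, ω o ≤ 0 := sum_nonpos fun o _ => h o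
    linarith
  obtain ⟨o0, ho0⟩ := hex
  have : ∑ o, ω o * (∑ o', ω o' * F o') < ∑ o, ω o * F o := by
    apply sum_lt_sum
    · intro o _
      rcases (h0 o).eq_or_lt with h | h
      · rw [← h]; simp
      · exact mul_le_mul_of_nonneg_left (hcon o h).le h.le
    · exact ⟨o0, mem_univ _, mul_lt_mul_of_pos_left (hcon o0 ho0) ho0⟩
  rw [← sum_mul, h1, one_mul] at this
  exact lt_irrefl _ this

/-- Sequential choices with a pessimistic estimator: all tests stay near their means. -/
theorem seq_choice {ι Ω τ : Type} [Fintype Ω] [DecidableEq ι] (X : Finset ι) (Tst : Finset τ)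
    (val : τ → ι → Ω → ℝ) (μ : τ → ι → ℝ)
    (hval : ∀ t x o, 0 ≤ val t x o ∧ val t x o ≤ 1)
    (Inv : Finset ι → (ι → Ω) → Prop) (g0 : ι → Ω) (h0 : Inv ∅ g0)
    (step : ∀ (Y : Finset ι) (g : ι → Ω) (x : ι), Y ⊆ X → x ∈ X → x ∉ Y → Inv Y g →
      ∃ ω : Ω → ℝ, (∀ o, 0 ≤ ω o) ∧ ∑ o, ω o = 1 ∧
        (∀ o, 0 < ω o → Inv (insert x Y) (Function.update g x o)) ∧
        ∀ t ∈ Tst, ∑ o, ω o * val t x o ≤ μ t x)
    (lam dev : ℝ) (hl0 : 0 < lam) (hl1 : lam ≤ 1)
    (hexp : (Tst.card : ℝ) < Real.exp (lam * dev - lam ^ 2 * X.card)) :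
    ∃ g : ι → Ω, Inv X g ∧ ∀ t ∈ Tst, ∑ x ∈ X, val t x (g x) ≤ ∑ x ∈ X, μ t x + dev := by
  have main : ∀ Y : Finset ι, Y ⊆ X → ∃ g : ι → Ω, Inv Y g ∧
      ∑ t ∈ Tst, Real.exp (∑ x ∈ Y, (lam * (val t x (g x) - μ t x) - lam ^ 2)) ≤ Tst.card := by
    intro Y
    induction Y using Finset.induction_on with
    | empty => intro _; exact ⟨g0, h0, by simp⟩
    | insert x Y hx ih =>
      intro hsub
      obtain ⟨g, hg, hle⟩ := ih ((subset_insert _ _).trans hsub)
      obtain ⟨ω, hω0, hω1, hinv, hμ⟩ :=
        step Y g x ((subset_insert _ _).trans hsub) (hsub (mem_insert_self _ _)) hx hg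
      set a : τ → ℝ := fun t => Real.exp (∑ y ∈ Y, (lam * (val t y (g y) - μ t y) - lam ^ 2))
      obtain ⟨o, ho, hF⟩ := exists_le_avg ω hω0 hω1
        (fun o => ∑ t ∈ Tst, a t * Real.exp (lam * (val t x o - μ t x) - lam ^ 2))
      refine ⟨Function.update g x o, hinv o ho, ?_⟩
      have e1 : ∑ t ∈ Tst, Real.exp (∑ y ∈ insert x Y,
          (lam * (val t y (Function.update g x o y) - μ t y) - lam ^ 2))
          = ∑ t ∈ Tst, a t * Real.exp (lam * (val t x o - μ t x) - lam ^ 2) := by
        refine sum_congr rfl fun t _ => ?_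
        rw [sum_insert hx, Real.exp_add, mul_comm, Function.update_self]
        congr 2
        refine sum_congr rfl fun y hy => ?_
        rw [Function.update_of_ne (by rintro rfl; exact hx hy)]
      rw [e1]
      refine hF.trans (le_trans ?_ hle)
      simp only [mul_sum]
      rw [sum_comm]
      refine sum_le_sum fun t ht => ?_
      have e2 : ∑ o', ω o' * (a t * Real.exp (lam * (val t x o' - μ t x) - lam ^ 2))
          = a t * (Real.exp (-(lam * μ t x + lam ^ 2)) * ∑ o', ω o' * Real.exp (lam * val t x o')) := by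
        rw [mul_sum, mul_sum]
        refine sum_congr rfl fun o' _ => ?_
        rw [show lam * (val t x o' - μ t x) - lam ^ 2
          = -(lam * μ t x + lam ^ 2) + lam * val t x o' by ring, Real.exp_add]
        ring
      rw [e2]
      have e3 : ∑ o', ω o' * Real.exp (lam * val t x o') ≤ Real.exp (lam * μ t x + lam ^ 2) := by
        calc ∑ o', ω o' * Real.exp (lam * val t x o')
            ≤ ∑ o', ω o' * (1 + lam * val t x o' + lam ^ 2) := by
              refine sum_le_sum fun o' _ => mul_le_mul_of_nonneg_left ?_ (hω0 o')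
              have h := hval t x o'
              have h2 : lam * val t x o' ≤ lam := mul_le_of_le_one_right hl0.le h.2
              have h3 : 0 ≤ lam * val t x o' := mul_nonneg hl0.le h.1
              have := exp_le_quad _ h3 (h2.trans hl1)
              nlinarith
          _ = 1 + lam * ∑ o', ω o' * val t x o' + lam ^ 2 := by
              simp only [mul_add, sum_add_distrib, mul_one, hω1, ← sum_mul, one_mul, mul_sum]
              congr 2
              exact sum_congr rfl fun o' _ => by ring
          _ ≤ 1 + (lam * μ t x + lam ^ 2) := by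
              have := mul_le_mul_of_nonneg_left (hμ t ht) hl0.le
              linarith
          _ ≤ _ := by rw [add_comm]; exact Real.add_one_le_exp _
      have e4 : Real.exp (-(lam * μ t x + lam ^ 2)) * ∑ o', ω o' * Real.exp (lam * val t x o') ≤ 1 := by
        calc _ ≤ Real.exp (-(lam * μ t x + lam ^ 2)) * Real.exp (lam * μ t x + lam ^ 2) :=
              mul_le_mul_of_nonneg_left e3 (Real.exp_pos _).le
          _ = 1 := by rw [← Real.exp_add]; simp
      exact mul_le_of_le_one_right (Real.exp_pos _).le e4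
  obtain ⟨g, hg, hle⟩ := main X Subset.rfl
  refine ⟨g, hg, fun t ht => ?_⟩
  have h1 : Real.exp (∑ x ∈ X, (lam * (val t x (g x) - μ t x) - lam ^ 2)) ≤ Tst.card :=
    le_trans (single_le_sum (f := fun t => Real.exp (∑ x ∈ X, (lam * (val t x (g x) - μ t x) - lam ^ 2)))
      (fun _ _ => (Real.exp_pos _).le) ht) hle
  have h2 := Real.exp_lt_exp.1 (lt_of_le_of_lt h1 hexp)
  simp only [sum_sub_distrib, ← mul_sum, sum_const, nsmul_eq_mul] at h2
  have h3 : lam * (∑ x ∈ X, val t x (g x) - ∑ x ∈ X, μ t x) < lam * dev := by linarith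
  have := lt_of_mul_lt_mul_left h3 hl0.le
  linarith

end Pool.Agent.MP_6f6f6b_co

end MrgPart2

-- marker of a merged file
example : 731051 + 781704 = 731051 + 781704 := rfl
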