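import Mathlib.Algebra.BigOperators.Field
import Mathlib.Topology.Sheaves.Presheaf
import Mathlib.Analysis.Normed.Order.Lattice
import Mathlib.Tactic.Bound
import Mathlib.Combinatorics.Hall.Basic
import Mathlib.Combinatorics.SimpleGraph.Basic
import Mathlib.RingTheory.PiTensorProduct
import Pool.Agent.MP_6f6f6b_co.Seq

-- ======== part 0: formerly Pool.Agent.MP_6f6f6b_co.Place
section MrgPart0

set_option autoImplicit false
set_option linter.unusedVariables false

open Finset
open scoped Classical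

namespace Pool.Agent.MP_6f6f6b_co

/-- Symmetric averaging. -/
noncomputable def Tw (w : ℝ) (f : ℝ → ℝ) : ℝ → ℝ := fun x => (f (x + w) + f (x - w)) / 2

instance : LeftCommutative Tw := ⟨by
  intro a b f
  funext x
  simp only [Tw]
  rw [show x + a + b = x + b + a by ring, show x + a - b = x - b + a by ring,
    show x - a + b = x + b - a by ring, show x - a - b = x - b - a by ring]
  ring⟩

/-- The potential: the mean of the squared positive part over all sign choices. -/
noncomputable def Gm (m : Multiset ℝ) : ℝ → ℝ := m.foldr Tw fun x => (max x 0) ^ 2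

theorem Gm_zero (x : ℝ) : Gm 0 x = (max x 0) ^ 2 := rfl

theorem Gm_cons (w : ℝ) (m : Multiset ℝ) (x : ℝ) :
    Gm (w ::ₘ m) x = (Gm m (x + w) + Gm m (x - w)) / 2 := by
  simp [Gm, Multiset.foldr_cons, Tw]

theorem Gm_sym (m : Multiset ℝ) : ∀ x, Gm m x + Gm m (-x) = x ^ 2 + (m.map (· ^ 2)).sum := by
  induction m using Multiset.induction_on with
  | empty =>
    intro x
    simp only [Gm_zero, Multiset.map_zero, Multiset.sum_zero, add_zero]
    rcases le_total x 0 with h | h
    · rw [max_eq_right h, max_eq_left (by linarith)]; ring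
    · rw [max_eq_left h, max_eq_right (by linarith)]; ring
  | cons w m ih =>
    intro x
    simp only [Gm_cons, Multiset.map_cons, Multiset.sum_cons]
    have h1 := ih (x + w)
    have h2 := ih (x - w)
    rw [show -x + w = -(x - w) by ring, show -x - w = -(x + w) by ring]
    nlinarith

theorem Gm_mono (m : Multiset ℝ) : Monotone (Gm m) := by
  induction m using Multiset.induction_on with
  | empty =>
    intro x y h
    simp only [Gm_zero]
    exact pow_le_pow_left₀ (le_max_right _ _) (max_le_max_right _ h) 2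
  | cons w m ih =>
    intro x y h
    simp only [Gm_cons]
    have h1 := ih (show x + w ≤ y + w by linarith)
    have h2 := ih (show x - w ≤ y - w by linarith)
    linarith

theorem Gm_conv (m : Multiset ℝ) : ∀ x y a : ℝ, 0 ≤ a → a ≤ 1 →
    Gm m (a * x + (1 - a) * y) ≤ a * Gm m x + (1 - a) * Gm m y := by
  induction m using Multiset.induction_on with
  | empty =>
    intro x y a h0 h1
    simp only [Gm_zero]
    have hx := le_max_left x 0
    have hx' := le_max_right x 0
    have hy := le_max_left y 0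
    have hy' := le_max_right y 0
    have h2 : max (a * x + (1 - a) * y) 0 ≤ a * max x 0 + (1 - a) * max y 0 := by
      apply max_le
      · nlinarith
      · nlinarith
    have h3 := pow_le_pow_left₀ (le_max_right _ _) h2 2
    nlinarith [mul_nonneg (mul_nonneg h0 (sub_nonneg.2 h1)) (sq_nonneg (max x 0 - max y 0))]
  | cons w m ih =>
    intro x y a h0 h1
    simp only [Gm_cons]
    have e1 := ih (x + w) (y + w) a h0 h1
    have e2 := ih (x - w) (y - w) a h0 h1
    rw [show a * (x + w) + (1 - a) * (y + w) = a * x + (1 - a) * y + w by ring] at e1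
    rw [show a * (x - w) + (1 - a) * (y - w) = a * x + (1 - a) * y - w by ring] at e2
    linarith

theorem Gm_diff (m : Multiset ℝ) : ∀ x y d : ℝ, x ≤ y → 0 ≤ d →
    Gm m (x + d) - Gm m (x - d) ≤ Gm m (y + d) - Gm m (y - d) := by
  induction m using Multiset.induction_on with
  | empty =>
    intro x y d h hd
    simp only [Gm_zero]
    rcases le_total (x + d) 0 with h1 | h1 <;> rcases le_total (x - d) 0 with h2 | h2 <;>
      rcases le_total (y + d) 0 with h3 | h3 <;> rcases le_total (y - d) 0 with h4 | h4 <;>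
      simp only [max_eq_right, max_eq_left, h1, h2, h3, h4] <;> nlinarith
  | cons w m ih =>
    intro x y d h hd
    simp only [Gm_cons]
    have e1 := ih (x + w) (y + w) d (by linarith) hd
    have e2 := ih (x - w) (y - w) d (by linarith) hd
    rw [show x + w + d = x + d + w by ring, show x + w - d = x - d + w by ring,
      show y + w + d = y + d + w by ring, show y + w - d = y - d + w by ring] at e1
    rw [show x - w + d = x + d - w by ring, show x - w - d = x - d - w by ring,
      show y - w + d = y + d - w by ring, show y - w - d = y - d - w by ring] at e2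
    linarith

/-- One step of the potential, for one test and one host vertex. -/
theorem Gm_step (m : Multiset ℝ) (x x0 e d θ : ℝ) (he : 0 ≤ e) (hθ0 : 0 ≤ θ) (hθ1 : θ ≤ 1)
    (hd : d = θ * (2 * e)) :
    Gm m (x - e + d) ≤ Gm (e ::ₘ m) x - (1 / 2 - θ) * (Gm m (x + e) - Gm m (x - e)) := by
  have := Gm_conv m (x + e) (x - e) θ hθ0 hθ1
  rw [show θ * (x + e) + (1 - θ) * (x - e) = x - e + θ * (2 * e) by ring, ← hd] at this
  rw [Gm_cons]
  linarith

variable {α β : Type} [Fintype β]

/-- Indicator of non-adjacency. -/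
noncomputable def Host.xi (H : Host β) (b : Bool) (y v : β) : ℝ := if H.R b y v then 0 else 1

theorem Host.xi_nonneg (H : Host β) (b : Bool) (y v : β) : 0 ≤ H.xi b y v := by
  unfold Host.xi; split_ifs <;> norm_num

theorem Host.xi_le_one (H : Host β) (b : Bool) (y v : β) : H.xi b y v ≤ 1 := by
  unfold Host.xi; split_ifs <;> norm_num

theorem Host.sum_xi_right (H : Host β) (b : Bool) (y : β) :
    ∑ v, H.xi b y v ≤ Fintype.card β / 3 := by
  refine le_trans (le_of_eq ?_) (H.card_non b y)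
  rw [Host.non, card_filter]
  push_cast
  refine sum_congr rfl fun v _ => ?_
  unfold Host.xi; split_ifs <;> simp_all

theorem Host.sum_xi_left (H : Host β) (b : Bool) (v : β) (Ω : Finset β) :
    ∑ y ∈ Ω, H.xi b y v ≤ Fintype.card β / 3 := by
  refine le_trans (sum_le_sum_of_subset_of_nonneg (subset_univ Ω)
    fun y _ _ => H.xi_nonneg b y v) ?_
  refine le_trans (le_of_eq ?_) (H.sum_xi_right (!b) v)
  refine sum_congr rfl fun y _ => ?_
  unfold Host.xi
  rw [H.symm b y v]

theorem place_step (H : Host β) (Ω : Finset β) (m : Multiset ℝ) (x : β → ℝ) (x0 wt wf : ℝ)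
    (hwt : 0 ≤ wt) (hwf : 0 ≤ wf) (hx : ∀ v, x0 ≤ x v)
    (hΩ : (wt + wf) * (Fintype.card β / 3) ≤ 0.501 * (wt + wf) * Ω.card) :
    ∑ y ∈ Ω, ∑ v, Gm m (x v + (wt * (H.xi true y v - 0.501) + wf * (H.xi false y v - 0.501)))
      ≤ Ω.card * (∑ v, Gm ((0.501 * (wt + wf)) ::ₘ m) (x v) - Fintype.card β * (503 / 1503) *
        (Gm ((0.501 * (wt + wf)) ::ₘ m) x0 - Gm m (x0 - 0.501 * (wt + wf)))) := by
  set e := 0.501 * (wt + wf) with he
  have he0 : 0 ≤ e := by positivity
  set n : ℝ := (Fintype.card β : ℝ) with hn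
  set d : β → β → ℝ := fun y v => wt * H.xi true y v + wf * H.xi false y v with hd
  set θ : β → β → ℝ := fun y v => d y v / (2 * e) with hθ
  have hd0 : ∀ y v, 0 ≤ d y v := fun y v =>
    add_nonneg (mul_nonneg hwt (H.xi_nonneg _ _ _)) (mul_nonneg hwf (H.xi_nonneg _ _ _))
  have hd1 : ∀ y v, d y v ≤ 2 * e := fun y v => by
    have h1 := mul_le_of_le_one_right hwt (H.xi_le_one true y v)
    have h2 := mul_le_of_le_one_right hwf (H.xi_le_one false y v)
    simp only [hd, he]
    linarith
  have hθ0 : ∀ y v, 0 ≤ θ y v := fun y v => div_nonneg (hd0 y v) (by positivity)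
  have hθ1 : ∀ y v, θ y v ≤ 1 := fun y v => div_le_one_of_le₀ (hd1 y v) (by positivity)
  have hdθ : ∀ y v, d y v = θ y v * (2 * e) := fun y v => by
    rcases he0.eq_or_lt with h | h
    · have := hd1 y v
      have := hd0 y v
      rw [← h] at *
      linarith
    · simp only [hθ]; field_simp
  set Δ : β → ℝ := fun v => Gm m (x v + e) - Gm m (x v - e) with hΔ
  set Δ0 := Gm m (x0 + e) - Gm m (x0 - e) with hΔ0
  have hΔ1 : ∀ v, Δ0 ≤ Δ v := fun v => Gm_diff m x0 (x v) e (hx v) he0
  have hΔ2 : 0 ≤ Δ0 := sub_nonneg.2 (Gm_mono m (by linarith))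
  have hA : ∀ v, ∑ y ∈ Ω, θ y v ≤ Ω.card / 2 := fun v => by
    simp only [hθ]
    rw [← sum_div]
    apply div_le_of_le_mul₀ (by linarith) (div_nonneg (Nat.cast_nonneg _) zero_le_two)
    simp only [hd, sum_add_distrib, ← mul_sum]
    have h1 := mul_le_mul_of_nonneg_left (H.sum_xi_left true v Ω) hwt
    have h2 := mul_le_mul_of_nonneg_left (H.sum_xi_left false v Ω) hwf
    linarith
  have hB : ∀ y, ∑ v, θ y v ≤ n * (500 / 1503) := fun y => by
    simp only [hθ]
    rw [← sum_div]
    apply div_le_of_le_mul₀ (by positivity) (by positivity)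
    simp only [hd, sum_add_distrib, ← mul_sum]
    have h1 := mul_le_mul_of_nonneg_left (H.sum_xi_right true y) hwt
    have h2 := mul_le_mul_of_nonneg_left (H.sum_xi_right false y) hwf
    rw [he]
    linarith
  have h1 : ∑ y ∈ Ω, ∑ v, Gm m (x v + (wt * (H.xi true y v - 0.501) + wf * (H.xi false y v - 0.501)))
      ≤ ∑ y ∈ Ω, ∑ v, (Gm (e ::ₘ m) (x v) - (1 / 2 - θ y v) * Δ v) := by
    refine sum_le_sum fun y _ => sum_le_sum fun v _ => ?_
    have := Gm_step m (x v) x0 e (d y v) (θ y v) he0 (hθ0 y v) (hθ1 y v) (hdθ y v)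
    rw [show x v + (wt * (H.xi true y v - 0.501) + wf * (H.xi false y v - 0.501)) = x v - e + d y v by
      simp only [he, hd]; ring]
    exact this
  refine h1.trans ?_
  rw [sum_comm]
  have h2 : ∑ v, ∑ y ∈ Ω, (Gm (e ::ₘ m) (x v) - (1 / 2 - θ y v) * Δ v)
      ≤ ∑ v, (Ω.card * Gm (e ::ₘ m) (x v) - (Ω.card / 2 - ∑ y ∈ Ω, θ y v) * Δ0) := by
    refine sum_le_sum fun v _ => ?_
    rw [sum_sub_distrib, ← sum_mul, sum_sub_distrib]
    simp only [sum_const, nsmul_eq_mul]
    have := mul_le_mul_of_nonneg_left (hΔ1 v) (sub_nonneg.2 (hA v))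
    linarith
  refine h2.trans ?_
  rw [sum_sub_distrib, ← mul_sum, ← sum_mul, sum_sub_distrib, sum_comm]
  simp only [sum_const, nsmul_eq_mul, card_univ]
  have h3 : ∑ y ∈ Ω, ∑ v, θ y v ≤ Ω.card * (n * (500 / 1503)) := by
    refine (sum_le_sum fun y _ => hB y).trans (le_of_eq ?_)
    simp
  have h4 : Gm (e ::ₘ m) x0 - Gm m (x0 - e) = Δ0 / 2 := by rw [Gm_cons, hΔ0]; ring
  rw [h4, ← hn]
  nlinarith [mul_le_mul_of_nonneg_right h3 hΔ2]

/-- Placement of the separator set with control of second moments for two families of tests. -/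
theorem placement (T : RTree α) (H : Host β) (u : β) (hu : ∀ b w, w ≠ u → H.R b u w)
    (S : Finset α) (t : α) (ht : t ∈ S) (hS : 1000 * S.card ≤ Fintype.card β)
    {τ : Type} (Tst : Finset τ) (col : τ → Bool) (colS : α → Bool) (w : τ → α → Bool → ℝ)
    (hw : ∀ i s b, 0 ≤ w i s b) (hcol : ∀ i ∈ Tst, ∀ s b, col i ≠ colS s → w i s b = 0) :
    ∃ φ : α → β, Set.InjOn φ S ∧ φ t = u ∧
      (∀ s ∈ S, s ≠ T.r → T.p s ∈ S → H.R (T.dir s) (φ (T.p s)) (φ s)) ∧
      ∀ c, ∑ i ∈ Tst.filter (col · = c), ∑ v : β, (max (∑ s ∈ S.erase t,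
          (w i s true * (H.xi true (φ s) v - 0.501) + w i s false * (H.xi false (φ s) v - 0.501))) 0) ^ 2
        ≤ 0.0835 * Fintype.card β * ∑ i ∈ Tst.filter (col · = c),
          ∑ s ∈ S.erase t, (w i s true + w i s false) ^ 2 := by
  set n : ℝ := (Fintype.card β : ℝ) with hn
  set E : τ → α → ℝ := fun i s => 0.501 * (w i s true + w i s false) with hE
  set mR : τ → Finset α → Multiset ℝ := fun i A => (S.erase t \ A).val.map (E i) with hmR
  set xx : τ → (α → β) → Finset α → β → ℝ := fun i φ A v => ∑ s ∈ A,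
    (w i s true * (H.xi true (φ s) v - 0.501) + w i s false * (H.xi false (φ s) v - 0.501)) with hxx
  have main : ∀ A : Finset α, A ⊆ S.erase t → ∃ φ : α → β, Set.InjOn φ (insert t A : Finset α) ∧ φ t = u ∧
      (∀ s ∈ insert t A, s ≠ T.r → T.p s ∈ insert t A → H.R (T.dir s) (φ (T.p s)) (φ s)) ∧
      ∀ c, ∑ i ∈ Tst.filter (col · = c), ∑ v : β, Gm (mR i A) (xx i φ A v)
        ≤ ∑ i ∈ Tst.filter (col · = c), n * ((1000 / 1503) * Gm (mR i ∅) 0
            + (503 / 1503) * Gm (mR i A) (-∑ s ∈ A, E i s)) := by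
    intro A
    induction A using Finset.induction_on_max_value T.dep with
    | empty =>
      intro _
      refine ⟨fun _ => u, ?_, rfl, ?_, ?_⟩
      · simp
      · intro s hs hr hp
        simp only [insert_empty_eq, mem_singleton] at hs hp
        have := T.dep_p s hr
        rw [hp, hs] at this
        omega
      · intro c
        refine sum_le_sum fun i _ => le_of_eq ?_
        simp only [hxx, sum_empty, neg_zero, sum_const, card_univ, nsmul_eq_mul, ← hn]
        ring
    | insert a A ha hmax ih =>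
      intro hsub
      obtain ⟨φ, hinj, hφt, hedge, hpot⟩ := ih ((subset_insert _ _).trans hsub)
      have haS : a ∈ S.erase t := hsub (mem_insert_self _ _)
      have hat : a ≠ t := ne_of_mem_erase haS
      have haA : a ∉ insert t A := by simp [hat, ha]
      set Ω : Finset β := (univ \ (insert t A).image φ) \ H.non (T.dir a) (φ (T.p a)) with hΩ
      have hΩc : n / 3 ≤ 0.501 * Ω.card := by
        have h1 : ((insert t A).image φ).card ≤ S.card := by
          refine card_image_le.trans (card_le_card ?_)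
          intro z hz
          rcases mem_insert.1 hz with rfl | hz
          · exact ht
          · exact mem_of_mem_erase (hsub (mem_insert_of_mem hz))
        have h2 := le_card_sdiff ((insert t A).image φ) (univ : Finset β)
        have h3 := le_card_sdiff (H.non (T.dir a) (φ (T.p a))) (univ \ (insert t A).image φ)
        have h4 := H.card_non (T.dir a) (φ (T.p a))
        rw [card_univ] at h2
        have h5 : Fintype.card β ≤ Ω.card + (H.non (T.dir a) (φ (T.p a))).card + S.card := by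
          rw [hΩ]; omega
        have h6 : n ≤ Ω.card + (H.non (T.dir a) (φ (T.p a))).card + S.card := by
          rw [hn]; exact_mod_cast h5
        have h7 : (1000 : ℝ) * S.card ≤ n := by rw [hn]; exact_mod_cast hS
        linarith
      have hnpos : 0 < n := by rw [hn]; exact_mod_cast Host.card_pos u
      have hΩne : Ω.Nonempty := by
        rw [← card_pos]
        have : (0 : ℝ) < Ω.card := by linarith
        exact_mod_cast this
      have hmR' : ∀ i, mR i A = E i a ::ₘ mR i (insert a A) := by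
        intro i
        simp only [hmR]
        rw [← Multiset.map_cons]
        congr 1
        have : S.erase t \ A = insert a (S.erase t \ insert a A) := by
          ext z
          simp only [mem_sdiff, mem_insert]
          constructor
          · rintro ⟨h1, h2⟩
            by_cases hz : z = a
            · exact Or.inl hz
            · exact Or.inr ⟨h1, by simp [hz, h2]⟩
          · rintro (rfl | ⟨h1, h2⟩)
            · exact ⟨haS, ha⟩
            · exact ⟨h1, fun h => h2 (Or.inr h)⟩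
        rw [this, insert_val_of_notMem (by simp)]
      have hxx' : ∀ i y v, xx i (Function.update φ a y) (insert a A) v = xx i φ A v +
          (w i a true * (H.xi true y v - 0.501) + w i a false * (H.xi false y v - 0.501)) := by
        intro i y v
        simp only [hxx]
        rw [sum_insert ha, Function.update_self, add_comm]
        congr 1
        refine sum_congr rfl fun s hs => ?_
        rw [Function.update_of_ne (by rintro rfl; exact ha hs)]
      have hlow : ∀ i v, -∑ s ∈ A, E i s ≤ xx i φ A v := by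
        intro i v
        simp only [hxx, hE]
        rw [← sum_neg_distrib]
        refine sum_le_sum fun s _ => ?_
        have h1 := mul_nonneg (hw i s true) (H.xi_nonneg true (φ s) v)
        have h2 := mul_nonneg (hw i s false) (H.xi_nonneg false (φ s) v)
        linarith
      -- the bound after one step, for any admissible set of choices
      have hstep : ∀ (c : Bool) (Ω' : Finset β),
          (∀ i ∈ Tst.filter (col · = c), (w i a true + w i a false) * (n / 3)
            ≤ 0.501 * (w i a true + w i a false) * Ω'.card) →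
          ∑ y ∈ Ω', ∑ i ∈ Tst.filter (col · = c), ∑ v : β,
            Gm (mR i (insert a A)) (xx i (Function.update φ a y) (insert a A) v)
          ≤ ∑ y ∈ Ω', ∑ i ∈ Tst.filter (col · = c), n * ((1000 / 1503) * Gm (mR i ∅) 0
            + (503 / 1503) * Gm (mR i (insert a A)) (-∑ s ∈ insert a A, E i s)) := by
        intro c Ω' hc
        rw [sum_comm]
        simp only [hxx']
        have h1 : ∀ i ∈ Tst.filter (col · = c), ∑ y ∈ Ω', ∑ v : β, Gm (mR i (insert a A)) (xx i φ A v +
            (w i a true * (H.xi true y v - 0.501) + w i a false * (H.xi false y v - 0.501)))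
            ≤ Ω'.card * (∑ v, Gm (mR i A) (xx i φ A v) - n * (503 / 1503) *
              (Gm (mR i A) (-∑ s ∈ A, E i s) - Gm (mR i (insert a A)) (-∑ s ∈ insert a A, E i s))) := by
          intro i hi
          have := place_step H Ω' (mR i (insert a A)) (xx i φ A) (-∑ s ∈ A, E i s) _ _
            (hw i a true) (hw i a false) (hlow i) (hc i hi)
          rw [hmR' i, sum_insert ha, show -(E i a + ∑ s ∈ A, E i s) = -∑ s ∈ A, E i s - E i a by ring]
          exact this
        refine (sum_le_sum h1).trans ?_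
        rw [← mul_sum, sum_const, nsmul_eq_mul]
        refine mul_le_mul_of_nonneg_left ?_ (Nat.cast_nonneg _)
        rw [sum_sub_distrib]
        have h2 := hpot c
        have h3 : ∑ i ∈ Tst.filter (col · = c), n * ((1000 / 1503) * Gm (mR i ∅) 0
            + (503 / 1503) * Gm (mR i (insert a A)) (-∑ s ∈ insert a A, E i s))
            = ∑ i ∈ Tst.filter (col · = c), n * ((1000 / 1503) * Gm (mR i ∅) 0
              + (503 / 1503) * Gm (mR i A) (-∑ s ∈ A, E i s))
              - ∑ i ∈ Tst.filter (col · = c), n * (503 / 1503) *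
              (Gm (mR i A) (-∑ s ∈ A, E i s) - Gm (mR i (insert a A)) (-∑ s ∈ insert a A, E i s)) := by
          rw [← sum_sub_distrib]
          exact sum_congr rfl fun i _ => by ring
        linarith
      obtain ⟨y, hy, hyle⟩ := exists_le_of_sum_le hΩne (hstep (colS a) Ω fun i _ => by
        have := mul_le_mul_of_nonneg_left hΩc (add_nonneg (hw i a true) (hw i a false))
        linarith)
      have hy1 : y ∉ (insert t A).image φ := (mem_sdiff.1 (mem_sdiff.1 hy).1).2
      have hy2 : H.R (T.dir a) (φ (T.p a)) y := by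
        have := (mem_sdiff.1 hy).2
        rwa [H.mem_non, not_not] at this
      have hupd : ∀ s ∈ insert t A, Function.update φ a y s = φ s := fun s hs =>
        Function.update_of_ne (by rintro rfl; exact haA hs) _ _
      have hins : insert t (insert a A) = insert a (insert t A) := insert_comm _ _ _
      refine ⟨Function.update φ a y, ?_, ?_, ?_, ?_⟩
      · rw [hins, coe_insert]
        rw [Set.injOn_insert (by exact_mod_cast haA)]
        constructor
        · intro s hs s' hs' h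
          rw [hupd s hs, hupd s' hs'] at h
          exact hinj hs hs' h
        · rintro ⟨s, hs, h⟩
          rw [hupd s hs, Function.update_self] at h
          exact hy1 (mem_image.2 ⟨s, hs, h⟩)
      · rw [hupd t (mem_insert_self _ _), hφt]
      · rw [hins]
        intro s hs hr hp
        have hdep := T.dep_p s hr
        rcases mem_insert.1 hs with rfl | hs
        · have hp' : T.p s ∈ insert t A := by
            rcases mem_insert.1 hp with h | h
            · rw [h] at hdep; omega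
            · exact h
          rw [hupd _ hp', Function.update_self]
          exact hy2
        · rcases mem_insert.1 hp with h | h
          · rcases mem_insert.1 hs with rfl | hs'
            · rw [h, Function.update_self, hupd s hs, hφt, H.symm]
              apply hu
              rintro rfl
              exact hy1 (mem_image.2 ⟨s, hs, hφt⟩)
            · have := hmax s hs'
              rw [h] at hdep
              omega
          · rw [hupd _ h, hupd _ hs]
            exact hedge s hs hr h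
      · intro c
        by_cases hc : c = colS a
        · rw [hc]; exact hyle
        · have := hstep c {y} fun i hi => by
            have hi' := mem_filter.1 hi
            have hne : col i ≠ colS a := by rw [hi'.2]; exact hc
            rw [hcol i hi'.1 a true hne, hcol i hi'.1 a false hne]
            simp
          simpa using this
  obtain ⟨φ, hinj, hφt, hedge, hpot⟩ := main (S.erase t) Subset.rfl
  rw [insert_erase ht] at hinj hedge
  refine ⟨φ, hinj, hφt, hedge, fun c => ?_⟩
  have h1 := hpot c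
  have hz : ∀ i, mR i (S.erase t) = 0 := fun i => by simp [hmR]
  simp only [hz, Gm_zero] at h1
  refine h1.trans (le_of_eq ?_)
  rw [mul_sum]
  refine sum_congr rfl fun i _ => ?_
  have h2 : max (-∑ s ∈ S.erase t, E i s) 0 = 0 := by
    apply max_eq_right
    rw [neg_nonpos]
    exact sum_nonneg fun s _ => by
      have := hw i s true
      have := hw i s false
      simp only [hE]; positivity
  have h3 := Gm_sym (mR i ∅) 0
  rw [neg_zero] at h3
  have h4 : ((mR i ∅).map (· ^ 2)).sum = 0.501 ^ 2 * ∑ s ∈ S.erase t, (w i s true + w i s false) ^ 2 := by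
    simp only [hmR, sdiff_empty, Multiset.map_map, mul_sum]
    rw [Finset.sum]
    congr 1
    refine Multiset.map_congr rfl fun s _ => ?_
    simp only [Function.comp, hE]
    ring
  rw [h2]
  have h5 : Gm (mR i ∅) 0 = 0.501 ^ 2 * (∑ s ∈ S.erase t, (w i s true + w i s false) ^ 2) / 2 := by
    rw [← h4]; linarith
  rw [h5]
  ring

end Pool.Agent.MP_6f6f6b_co

end MrgPart0

-- ======== part 1: formerly Pool.Agent.MP_6f6f6b_co.Ineq
section MrgPart1

set_option autoImplicit false
set_option linter.unusedVariables false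

namespace Pool.Agent.MP_6f6f6b_co

/-- For `x > γ` one of two linear bounds applies. -/
theorem ineq_full (Sr Sl ru lu M x P Q : ℝ) (h1 : 0 ≤ Sr) (h3 : 0 ≤ ru)
    (hsum : Sr + Sl + lu + M = 1) (hM : 0.995 * (Sr + 2 * ru) ≤ M) (h2 : 0 ≤ Sl) (h4 : 0 ≤ lu)
    (hx1 : x ≤ 1) (hP : Sr * (x - 0.334) / 0.666 ≤ P) (hQ : Sl ≤ Q) :
    x ≤ 0.4 * ru + lu + (M - 0.4 * ru) + P + Q := by
  have hS : Sr ≤ 0.666 := by nlinarith
  have : Sr * (x - 0.334) / 0.666 = Sr - Sr * (1 - x) / 0.666 := by ring
  have h5 : Sr * (1 - x) / 0.666 ≤ 1 - x := by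
    rw [div_le_iff₀ (by norm_num)]
    nlinarith
  linarith

/-- Linear interpolation between `x0` and `1`. -/
theorem ineq_lin (Sr Sl ru lu M x x0 P Q : ℝ) (h1 : 0 ≤ Sr) (h3 : 0 ≤ ru)
    (hsum : Sr + Sl + lu + M = 1) (hM : 0.995 * (Sr + 2 * ru) ≤ M)
    (hx0 : x0 ≤ x) (hx1 : x ≤ 1) (hx01 : x0 < 1)
    (hP : Sr * (x - 0.334) / 0.666 ≤ P) (hQ : Sl ≤ Q)
    (hF : x0 ≤ 0.4 * ru + lu + (0.495 * M - 0.4 * ru) / 0.334 * x0 + Sr * (x0 - 0.334) / 0.666 + Sl) :
    x ≤ 0.4 * ru + lu + (0.495 * M - 0.4 * ru) / 0.334 * x + P + Q := by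
  have hF1 : 1 ≤ 0.4 * ru + lu + (0.495 * M - 0.4 * ru) / 0.334 * 1 + Sr * (1 - 0.334) / 0.666 + Sl := by
    have : Sr * (1 - 0.334) / 0.666 = Sr := by ring
    rw [this]
    have : M - 0.4 * ru ≤ (0.495 * M - 0.4 * ru) / 0.334 * 1 := by
      rw [mul_one, le_div_iff₀ (by norm_num)]
      nlinarith
    linarith
  set ρ := (0.495 * M - 0.4 * ru) / 0.334 with hρ
  have key : (1 - x0) * (0.4 * ru + lu + ρ * x + Sr * (x - 0.334) / 0.666 + Sl - x)
      = (1 - x) * (0.4 * ru + lu + ρ * x0 + Sr * (x0 - 0.334) / 0.666 + Sl - x0)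
        + (x - x0) * (0.4 * ru + lu + ρ * 1 + Sr * (1 - 0.334) / 0.666 + Sl - 1) := by ring
  have hpos : 0 ≤ (1 - x0) * (0.4 * ru + lu + ρ * x + Sr * (x - 0.334) / 0.666 + Sl - x) := by
    rw [key]
    apply add_nonneg <;> apply mul_nonneg <;> linarith
  have := (mul_nonneg_iff_of_pos_left (show 0 < 1 - x0 by linarith)).1 hpos
  linarith

theorem N0 (Sr Sl ru lu M : ℝ) (h1 : 0 ≤ Sr) (h2 : 0 ≤ Sl) (h3 : 0 ≤ ru) (h4 : 0 ≤ lu)
    (hsum : Sr + Sl + lu + M = 1) (hM : 0.995 * (Sr + 2 * ru) ≤ M)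
    (hN : lu + Sl + 0.495 * M < 0.334) :
    0.084 * (ru + 2 * lu) * (2.25 * Sr + 1.9 ^ 2 * Sl / 2) ≤ 2 * 0.16 * (0.4 * ru + lu) := by
  have hE : 2.25 * Sr + 1.9 ^ 2 * Sl / 2 ≤ 1.22 := by nlinarith
  nlinarith

theorem N1 (Sr Sl ru lu M : ℝ) (h1 : 0 ≤ Sr) (h2 : 0 ≤ Sl) (h3 : 0 ≤ ru) (h4 : 0 ≤ lu)
    (hsum : Sr + Sl + lu + M = 1) (hM : 0.995 * (Sr + 2 * ru) ≤ M)
    (hN : lu + Sl + 0.495 * M < 0.334) :
    0.084 * (ru + 2 * lu) * (2.25 * Sr + 1.9 ^ 2 * Sl / 2) + 0.16 ^ 2 * 0.52 ≤
      2 * 0.16 * (0.4 * ru + lu + ((0.495 * M - 0.4 * ru) / 0.334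
        + 0.499 * (1.5 * Sr + 1.9 * Sl) - 1) * 0.52) := by
  norm_num at *
  have hE : 9/4 * Sr + 361/100 * Sl / 2 ≤ 1.22 := by nlinarith
  nlinarith [mul_nonneg h3 (sub_nonneg.2 hE), mul_nonneg h4 (sub_nonneg.2 hE), mul_nonneg h3 (sub_nonneg.2 hM), mul_nonneg h4 (sub_nonneg.2 hM), mul_nonneg h3 (sub_nonneg.2 hN.le), mul_nonneg h4 (sub_nonneg.2 hN.le), mul_nonneg h3 h3, mul_nonneg h3 h4, mul_nonneg h4 h4, mul_nonneg h3 h2, mul_nonneg h4 h2, mul_nonneg h3 h1, mul_nonneg h4 h1]

theorem N2 (Sr Sl ru lu M : ℝ) (h1 : 0 ≤ Sr) (h2 : 0 ≤ Sl) (h3 : 0 ≤ ru) (h4 : 0 ≤ lu)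
    (hsum : Sr + Sl + lu + M = 1) (hM : 0.995 * (Sr + 2 * ru) ≤ M)
    (hN : lu + Sl + 0.495 * M < 0.334) :
    0.52 ≤ 0.4 * ru + lu + (0.495 * M - 0.4 * ru) / 0.334 * 0.52 + Sr * (0.52 - 0.334) / 0.666 + Sl := by
  norm_num at *
  linarith

theorem L0 (Sr Sl ru lu M : ℝ) (h1 : 0 ≤ Sr) (h2 : 0 ≤ Sl) (h3 : 0 ≤ ru) (h4 : 0 ≤ lu)
    (hsum : Sr + Sl + lu + M = 1) (hM : 0.995 * (Sr + 2 * ru) ≤ M)
    (hL : 0.334 ≤ lu + Sl + 0.495 * M) (hL' : lu + 0.495 * M < 0.334) :
    0.084 * (ru + 2 * lu) * (2.25 * Sr + 2.99 ^ 2 * Sl / 2) ≤ 2 * (0.15 + 0.5 * Sl) * (0.4 * ru + lu) := by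
  have hE : 0.084 * (2.25 * Sr + 2.99 ^ 2 * Sl / 2) ≤ 0.8 * (0.15 + 0.5 * Sl) := by nlinarith
  nlinarith

theorem L1 (Sr Sl ru lu M : ℝ) (h1 : 0 ≤ Sr) (h2 : 0 ≤ Sl) (h3 : 0 ≤ ru) (h4 : 0 ≤ lu)
    (hsum : Sr + Sl + lu + M = 1) (hM : 0.995 * (Sr + 2 * ru) ≤ M)
    (hL : 0.334 ≤ lu + Sl + 0.495 * M) (hL' : lu + 0.495 * M < 0.334) :
    0.084 * (ru + 2 * lu) * (2.25 * Sr + 2.99 ^ 2 * Sl / 2) + (0.15 + 0.5 * Sl) ^ 2 * 0.334 ≤
      2 * (0.15 + 0.5 * Sl) * (0.4 * ru + lu + ((0.495 * M - 0.4 * ru) / 0.334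
        + 0.499 * (1.5 * Sr + 2.99 * Sl) - 1) * 0.334) := by
  norm_num at *
  nlinarith [mul_nonneg h3 (sub_nonneg.2 hM), mul_nonneg h4 (sub_nonneg.2 hM), mul_nonneg h2 (sub_nonneg.2 hM), mul_nonneg h1 (sub_nonneg.2 hM), mul_nonneg h3 (sub_nonneg.2 hL), mul_nonneg h4 (sub_nonneg.2 hL), mul_nonneg h3 (sub_nonneg.2 hL'.le), mul_nonneg h4 (sub_nonneg.2 hL'.le), mul_nonneg h3 h3, mul_nonneg h3 h4, mul_nonneg h4 h4, mul_nonneg h3 h2, mul_nonneg h4 h2, mul_nonneg h3 h1, mul_nonneg h4 h1, mul_nonneg h2 h2, mul_nonneg h1 h2, mul_nonneg h1 h1, mul_nonneg h2 (sub_nonneg.2 hL), mul_nonneg h2 (sub_nonneg.2 hL'.le)]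

/-- Interpolation of the second-moment bound between `0` and `x1`. -/
theorem ineq_quad (A β D k x x1 J P Q W : ℝ) (hk : 0 < k) (hx0 : 0 < x) (hx1 : x ≤ x1)
    (h0 : D ≤ 2 * k * A) (h1 : D + k ^ 2 * x1 ≤ 2 * k * (A + (β + W - 1) * x1))
    (hJ : 2 * k * (W * x - J) ≤ D + k ^ 2 * x) (hPQ : J ≤ P + Q) :
    x ≤ A + β * x + P + Q := by
  have hx1' : 0 < x1 := lt_of_lt_of_le hx0 hx1
  have key : x1 * (2 * k * (A + (β + W - 1) * x) - D - k ^ 2 * x)
      = (x1 - x) * (2 * k * A - D) + x * (2 * k * (A + (β + W - 1) * x1) - D - k ^ 2 * x1) := by ring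
  have hpos : 0 ≤ x1 * (2 * k * (A + (β + W - 1) * x) - D - k ^ 2 * x) := by
    rw [key]
    apply add_nonneg <;> apply mul_nonneg <;> linarith
  have h2 := (mul_nonneg_iff_of_pos_left hx1').1 hpos
  have h3 : 0 ≤ 2 * k * (A + β * x + J - x) := by nlinarith
  have h4 := (mul_nonneg_iff_of_pos_left (show 0 < 2 * k by linarith)).1 h3
  linarith

/-- The key numerical inequality behind the cut condition. -/
theorem ineq (Sr Sl ru lu M : ℝ) (h1 : 0 ≤ Sr) (h2 : 0 ≤ Sl) (h3 : 0 ≤ ru) (h4 : 0 ≤ lu)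
    (hsum : Sr + Sl + lu + M = 1) (hM : 0.995 * (Sr + 2 * ru) ≤ M) :
    ∃ c : ℝ, 0 ≤ c ∧ ∀ x P Q Jr Jl : ℝ, 0 < x → x ≤ 1 → 0 ≤ P → 0 ≤ Q →
      (∀ k : ℝ, 0 < k → 2 * k * (0.499 * (1.5 * Sr + c * Sl) * x - (1.5 * Jr + c * Jl))
          ≤ 0.084 * (ru + 2 * lu) * (2.25 * Sr + c ^ 2 * Sl / 2) + k ^ 2 * x) →
      (x ≤ 0.666 → 1.5 * Jr ≤ P) → Sr * (x - 0.334) / 0.666 ≤ P → Jl ≤ Q * x →
      (0.334 < x → Sl ≤ Q) →
      x ≤ 0.4 * ru + lu + min (M - 0.4 * ru) ((0.495 * M - 0.4 * ru) / 0.334 * x) + P + Q := by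
  have hρ0 : 0 ≤ 0.495 * M - 0.4 * ru := by nlinarith
  have hM0 : 0 ≤ M := by nlinarith
  -- it is enough to treat the second argument of the minimum
  have red : ∀ x P Q : ℝ, 0 < x → x ≤ 1 → Sr * (x - 0.334) / 0.666 ≤ P → (0.334 < x → Sl ≤ Q) →
      x ≤ 0.4 * ru + lu + (0.495 * M - 0.4 * ru) / 0.334 * x + P + Q →
      x ≤ 0.4 * ru + lu + min (M - 0.4 * ru) ((0.495 * M - 0.4 * ru) / 0.334 * x) + P + Q := by
    intro x P Q hx0 hx1 hP hQ h
    rcases le_total (M - 0.4 * ru) ((0.495 * M - 0.4 * ru) / 0.334 * x) with hm | hm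
    · rw [min_eq_left hm]
      by_cases hx : 0.334 < x
      · exact ineq_full Sr Sl ru lu M x P Q h1 h3 hsum hM h2 h4 hx1 hP (hQ hx)
      · have : (0.495 * M - 0.4 * ru) / 0.334 * x ≤ 0.495 * M - 0.4 * ru := by
          rw [div_mul_eq_mul_div, div_le_iff₀ (by norm_num)]
          exact mul_le_mul_of_nonneg_left (not_lt.1 hx) hρ0
        nlinarith
    · rw [min_eq_right hm]; exact h
  by_cases hN : lu + Sl + 0.495 * M < 0.334
  · refine ⟨1.9, by norm_num, ?_⟩
    intro x P Q Jr Jl hx0 hx1 hP0 hQ0 hJ hP1 hP2 hQ1 hQ2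
    apply red x P Q hx0 hx1 hP2 hQ2
    by_cases hx : x ≤ 0.52
    · refine ineq_quad _ _ _ 0.16 x 0.52 (1.5 * Jr + 1.9 * Jl) P Q _ (by norm_num) hx0 hx
        (N0 Sr Sl ru lu M h1 h2 h3 h4 hsum hM hN) (N1 Sr Sl ru lu M h1 h2 h3 h4 hsum hM hN)
        (hJ 0.16 (by norm_num)) ?_
      have := hP1 (by linarith)
      nlinarith
    · exact ineq_lin Sr Sl ru lu M x 0.52 P Q h1 h3 hsum hM (by linarith) hx1 (by norm_num) hP2
        (hQ2 (by linarith)) (N2 Sr Sl ru lu M h1 h2 h3 h4 hsum hM hN)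
  · refine ⟨2.99, by norm_num, ?_⟩
    intro x P Q Jr Jl hx0 hx1 hP0 hQ0 hJ hP1 hP2 hQ1 hQ2
    apply red x P Q hx0 hx1 hP2 hQ2
    push Not at hN
    by_cases hx : x ≤ 0.334
    · by_cases hL : lu + 0.495 * M < 0.334
      · refine ineq_quad _ _ _ (0.15 + 0.5 * Sl) x 0.334 (1.5 * Jr + 2.99 * Jl) P Q _ (by positivity)
          hx0 hx (L0 Sr Sl ru lu M h1 h2 h3 h4 hsum hM hN hL)
          (L1 Sr Sl ru lu M h1 h2 h3 h4 hsum hM hN hL) (hJ _ (by positivity)) ?_
        have := hP1 (by linarith)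
        nlinarith
      · push Not at hL
        have e : (0.495 * M - 0.4 * ru) / 0.334 * x = (0.495 * M - 0.4 * ru) * (x / 0.334) := by ring
        have hy : x / 0.334 ≤ 1 := by rw [div_le_iff₀ (by norm_num)]; linarith
        have hy0 : 0 ≤ x / 0.334 := by positivity
        have hxx : x = 0.334 * (x / 0.334) := by ring
        rw [e]
        set y := x / 0.334
        nlinarith
    · refine ineq_lin Sr Sl ru lu M x 0.334 P Q h1 h3 hsum hM (by linarith) hx1 (by norm_num) hP2
        (hQ2 (by linarith)) ?_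
      norm_num at *
      linarith

end Pool.Agent.MP_6f6f6b_co

end MrgPart1

-- ======== part 2: formerly Pool.Agent.MP_6f6f6b_co.Hub
section MrgPart2

set_option autoImplicit false
set_option linter.unusedVariables false
set_option linter.unusedSectionVars false

open Finset
open scoped Classical

namespace Pool.Agent.MP_6f6f6b_co

variable {α β : Type} [Fintype β]

/-- The number of members of `Y` with a given parent and direction. -/
noncomputable def cpd (T : RTree α) (Y : Finset α) (s : α) (b : Bool) : ℝ :=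
  ((Y.filter fun y => T.p y = s ∧ T.dir y = b).card : ℝ)

theorem cpd_nonneg (T : RTree α) (Y : Finset α) (s : α) (b : Bool) : 0 ≤ cpd T Y s b :=
  Nat.cast_nonneg _

theorem cpd_zero (T : RTree α) (Y : Finset α) (s : α) (b : Bool) (h : ∀ y ∈ Y, T.p y ≠ s) :
    cpd T Y s b = 0 := by
  rw [cpd, filter_eq_empty_iff.2 fun y hy h' => h y hy h'.1]
  simp

theorem sum_by_parent (T : RTree α) (Y F : Finset α) (h : ∀ y ∈ Y, T.p y ∈ F) (g : α → Bool → ℝ) :
    ∑ s ∈ F, (cpd T Y s true * g s true + cpd T Y s false * g s false)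
      = ∑ y ∈ Y, g (T.p y) (T.dir y) := by
  rw [← sum_fiberwise_of_maps_to h]
  refine sum_congr rfl fun s _ => ?_
  simp only [cpd, card_filter]
  push_cast
  rw [sum_mul, sum_mul, ← sum_add_distrib, sum_filter]
  refine sum_congr rfl fun y _ => ?_
  by_cases hp : T.p y = s <;> cases hd : T.dir y <;> simp [hp]

theorem cpd_add (T : RTree α) (Y : Finset α) (s : α) :
    cpd T Y s true + cpd T Y s false = (Y.filter fun y => T.p y = s).card := by
  simp only [cpd, card_filter]
  push_cast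
  rw [← sum_add_distrib]
  refine sum_congr rfl fun y _ => ?_
  by_cases hp : T.p y = s <;> cases hd : T.dir y <;> simp [hp]

theorem sum_cnt (T : RTree α) (Y F : Finset α) (h : ∀ y ∈ Y, T.p y ∈ F) :
    ∑ s ∈ F, ((Y.filter fun y => T.p y = s).card : ℝ) = Y.card := by
  rw [card_eq_sum_card_fiberwise (f := T.p) (s := Y) (t := F) fun y hy => h y hy]
  push_cast
  rfl

theorem sum_xi_eq (H : Host β) (X : Finset β) (b : Bool) (y : β) :
    ∑ v ∈ X, H.xi b y v = X.card - (X \ H.non b y).card := by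
  have h1 := card_sdiff_add_card_inter X (H.non b y)
  have h2 : (((X \ H.non b y).card + (X ∩ H.non b y).card : ℕ) : ℝ) = X.card := by exact_mod_cast h1
  push_cast at h2
  have h3 : ∑ v ∈ X, H.xi b y v = (X ∩ H.non b y).card := by
    rw [← filter_mem_eq_inter, card_filter]
    push_cast
    refine sum_congr rfl fun v _ => ?_
    simp only [Host.xi, H.mem_non]
    split_ifs <;> rfl
  linarith

theorem sum_xi_eq' (H : Host β) (T : RTree α) (φ : α → β) (Y : Finset α) (v : β) :
    ∑ y ∈ Y, H.xi (T.dir y) (φ (T.p y)) v = (Y.filter fun y => ¬ H.R (T.dir y) (φ (T.p y)) v).card := by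
  rw [card_filter]
  push_cast
  refine sum_congr rfl fun y _ => ?_
  simp only [Host.xi]
  split_ifs <;> rfl

theorem hub_place (T : RTree α) (H : Host β) (u : β) (hu : ∀ b w, w ≠ u → H.R b u w)
    (S Hv : Finset α) (hHv : Hv ⊆ S) (t : α) (ht : t ∈ Hv) (hS : 1000 * S.card ≤ Fintype.card β)
    (Rr Ll : Finset α) (hR : ∀ y ∈ Rr, T.p y ∈ Hv.erase t) (hL : ∀ y ∈ Ll, T.p y ∈ Hv.erase t)
    (nru nlu nM Nn : ℝ) (h1 : 0 ≤ nru) (h2 : 0 ≤ nlu) (hNn : 0 < Nn)
    (hsum : Rr.card + Ll.card + nlu + nM = Nn) (hM : 0.995 * (Rr.card + 2 * nru) ≤ nM)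
    (hmax : ∀ h, ((Rr.filter fun y => T.p y = h).card : ℝ)
      + 2 * (Ll.filter fun y => T.p y = h).card ≤ nru + 2 * nlu)
    {τ : Type} (Tst : Finset τ) (Cm : τ → Finset α)
    (hCm : ∀ i ∈ Tst, ∀ y ∈ Cm i, T.p y ∈ S ∧ T.p y ∉ Hv) (B Tot : ℝ) (hB0 : 0 ≤ B)
    (hB : ∀ i ∈ Tst, ∀ s, (((Cm i).filter fun y => T.p y = s).card : ℝ) ≤ B)
    (hTot : ∑ i ∈ Tst, ((Cm i).card : ℝ) ≤ Tot) :
    ∃ φ : α → β, Set.InjOn φ S ∧ φ t = u ∧
      (∀ s ∈ S, s ≠ T.r → T.p s ∈ S → H.R (T.dir s) (φ (T.p s)) (φ s)) ∧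
      (∀ V0 : Finset β, (Fintype.card β : ℝ) ≤ 1.002 * V0.card → ∀ X ⊆ V0, X.Nonempty →
        (X.card : ℝ) / V0.card * Nn ≤ 0.4 * nru + nlu
          + min (nM - 0.4 * nru) ((0.495 * nM - 0.4 * nru) / 0.334 * (X.card / V0.card))
          + ∑ y ∈ Rr, min 1 (((X \ H.non (T.dir y) (φ (T.p y))).card : ℝ) / (0.666 * V0.card))
          + (Ll.filter fun y => (X \ H.non (T.dir y) (φ (T.p y))).Nonempty).card) ∧
      ∀ i ∈ Tst, ∀ θ : ℝ, 0 ≤ θ → ((univ.filter fun v => 0.501 * ((Cm i).card : ℝ) + θ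
          < ((Cm i).filter fun y => ¬ H.R (T.dir y) (φ (T.p y)) v).card).card : ℝ) * θ ^ 2
        ≤ 0.0835 * Fintype.card β * (B * Tot) := by
  set n : ℝ := (Fintype.card β : ℝ) with hn
  have hn0 : 0 < n := by rw [hn]; exact_mod_cast Host.card_pos u
  have hRc : (0 : ℝ) ≤ Rr.card := Nat.cast_nonneg _
  have hLc : (0 : ℝ) ≤ Ll.card := Nat.cast_nonneg _
  obtain ⟨c, hc0, hc⟩ := ineq (Rr.card / Nn) (Ll.card / Nn) (nru / Nn) (nlu / Nn) (nM / Nn)
    (by positivity) (by positivity) (by positivity) (by positivity)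
    (by field_simp; linarith)
    (by rw [le_div_iff₀ hNn]
        refine le_trans (le_of_eq ?_) hM
        field_simp)
  let w : Option τ → α → Bool → ℝ := fun i s b =>
    match i with
    | none => (1.5 * cpd T Rr s b + c * cpd T Ll s b) / Nn
    | some i => cpd T (Cm i) s b
  have hR' : ∀ y ∈ Rr, T.p y ∈ S.erase t := fun y hy => erase_subset_erase t hHv (hR y hy)
  have hL' : ∀ y ∈ Ll, T.p y ∈ S.erase t := fun y hy => erase_subset_erase t hHv (hL y hy)
  have hCm' : ∀ i ∈ Tst, ∀ y ∈ Cm i, T.p y ∈ S.erase t := fun i hi y hy =>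
    mem_erase.2 ⟨fun h => (hCm i hi y hy).2 (h ▸ ht), (hCm i hi y hy).1⟩
  obtain ⟨φ, hinj, hφt, hedge, hpot⟩ := placement T H u hu S t (hHv ht) hS
    (insertNone Tst) Option.isNone (fun s => decide (s ∈ Hv)) w
    (by
      intro i s b
      cases i with
      | none =>
        have := cpd_nonneg T Rr s b
        have := cpd_nonneg T Ll s b
        simp only [w]; positivity
      | some i => exact cpd_nonneg _ _ _ _)
    (by
      intro i hi s b hne
      cases i with
      | none =>
        have hs : s ∉ Hv := by simpa using hne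
        simp only [w]
        rw [cpd_zero T Rr s b fun y hy h => hs (h ▸ mem_of_mem_erase (hR y hy)),
          cpd_zero T Ll s b fun y hy h => hs (h ▸ mem_of_mem_erase (hL y hy))]
        simp
      | some i =>
        have hs : s ∈ Hv := by simpa using hne
        have hi' : i ∈ Tst := by simpa using hi
        exact cpd_zero T _ s b fun y hy h => (hCm i hi' y hy).2 (h ▸ hs))
  refine ⟨φ, hinj, hφt, hedge, ?_, ?_⟩
  · intro V0 hV0 X hX hXne
    set N0 : ℝ := (V0.card : ℝ) with hN0
    have hN0p : 0 < N0 := by linarith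
    have hXc : (0 : ℝ) < X.card := by exact_mod_cast card_pos.2 hXne
    have hXV : (X.card : ℝ) ≤ N0 := by rw [hN0]; exact_mod_cast card_le_card hX
    set e : α → ℝ := fun y => ((X \ H.non (T.dir y) (φ (T.p y))).card : ℝ) with he
    have he0 : ∀ y, 0 ≤ e y := fun y => Nat.cast_nonneg _
    have he1 : ∀ y, e y ≤ X.card := fun y => by
      simp only [he]; exact_mod_cast card_le_card sdiff_subset
    have he2 : ∀ y, X.card - 0.334 * N0 ≤ e y := fun y => by
      have k1 := le_card_sdiff (H.non (T.dir y) (φ (T.p y))) X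
      have k2 : X.card ≤ (X \ H.non (T.dir y) (φ (T.p y))).card
        + (H.non (T.dir y) (φ (T.p y))).card := by omega
      have k3 : (X.card : ℝ) ≤ e y + (H.non (T.dir y) (φ (T.p y))).card := by
        simp only [he]; exact_mod_cast k2
      have k4 := H.card_non (T.dir y) (φ (T.p y))
      linarith
    have hp := hpot true
    have hf : (insertNone Tst).filter (fun i => i.isNone = true) = {none} := by
      ext i; cases i <;> simp
    rw [hf, sum_singleton, sum_singleton] at hp
    set xv : β → ℝ := fun v => ∑ s ∈ S.erase t,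
      (w none s true * (H.xi true (φ s) v - 0.501) + w none s false * (H.xi false (φ s) v - 0.501))
      with hxv
    have hxv' : ∀ v, xv v = (1.5 * ∑ y ∈ Rr, (H.xi (T.dir y) (φ (T.p y)) v - 0.501)
        + c * ∑ y ∈ Ll, (H.xi (T.dir y) (φ (T.p y)) v - 0.501)) / Nn := by
      intro v
      rw [← sum_by_parent T Rr _ hR' fun s b => H.xi b (φ s) v - 0.501,
        ← sum_by_parent T Ll _ hL' fun s b => H.xi b (φ s) v - 0.501, mul_sum, mul_sum,
        ← sum_add_distrib, sum_div]
      refine sum_congr rfl fun s _ => ?_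
      simp only [w]
      ring
    have hsumx : ∑ v ∈ X, xv v = (1.5 * (0.499 * Rr.card * X.card - ∑ y ∈ Rr, e y)
        + c * (0.499 * Ll.card * X.card - ∑ y ∈ Ll, e y)) / Nn := by
      simp only [hxv']
      rw [← sum_div, sum_add_distrib, ← mul_sum, ← mul_sum, sum_comm, sum_comm (s := X)]
      simp only [sum_sub_distrib, sum_xi_eq, sum_const, nsmul_eq_mul, he]
      ring
    have hw2 : ∑ s ∈ S.erase t, (w none s true + w none s false) ^ 2
        ≤ (nru / Nn + 2 * (nlu / Nn)) * (2.25 * (Rr.card / Nn) + c ^ 2 * (Ll.card / Nn) / 2) := by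
      rw [← sum_cnt T Rr _ hR', ← sum_cnt T Ll _ hL', sum_div, sum_div, mul_sum, mul_sum, sum_div,
        ← sum_add_distrib, mul_sum]
      refine sum_le_sum fun s _ => ?_
      have k1 := hmax s
      have k2 : w none s true + w none s false = 1.5 * ((Rr.filter fun y => T.p y = s).card / Nn)
          + c * ((Ll.filter fun y => T.p y = s).card / Nn) := by
        simp only [w]
        rw [← cpd_add, ← cpd_add]
        ring
      rw [k2]
      have k3 : ((Rr.filter fun y => T.p y = s).card / Nn : ℝ)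
          + 2 * ((Ll.filter fun y => T.p y = s).card / Nn) ≤ nru / Nn + 2 * (nlu / Nn) := by
        have := div_le_div_of_nonneg_right k1 hNn.le
        refine le_trans (le_of_eq ?_) (this.trans (le_of_eq ?_)) <;> ring
      have k4 : (0 : ℝ) ≤ (Rr.filter fun y => T.p y = s).card / Nn := by positivity
      have k5 : (0 : ℝ) ≤ (Ll.filter fun y => T.p y = s).card / Nn := by positivity
      set a : ℝ := (Rr.filter fun y => T.p y = s).card / Nn
      set l : ℝ := (Ll.filter fun y => T.p y = s).card / Nn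
      have k6 : 0 ≤ 2.25 * a + c ^ 2 * l / 2 := by positivity
      refine le_trans ?_ (mul_le_mul_of_nonneg_right k3 k6)
      nlinarith [mul_nonneg (mul_nonneg k4 k5) (sq_nonneg (c - 3))]
    have key := hc (X.card / N0) ((∑ y ∈ Rr, min 1 (e y / (0.666 * N0))) / Nn)
      ((Ll.filter fun y => (X \ H.non (T.dir y) (φ (T.p y))).Nonempty).card / Nn)
      ((∑ y ∈ Rr, e y) / (N0 * Nn)) ((∑ y ∈ Ll, e y) / (N0 * Nn))
      (by positivity) (div_le_one_of_le₀ hXV hN0p.le)
      (div_nonneg (sum_nonneg fun y _ => le_min zero_le_one (by have := he0 y; positivity)) hNn.le)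
      (by positivity)
      (by
        intro k hk
        have k1 : 2 * k * ∑ v ∈ X, xv v ≤ ∑ v, (max (xv v) 0) ^ 2 + k ^ 2 * X.card := by
          have k2 : ∑ v ∈ X, (max (xv v) 0) ^ 2 ≤ ∑ v, (max (xv v) 0) ^ 2 :=
            sum_le_sum_of_subset_of_nonneg (subset_univ _) fun _ _ _ => sq_nonneg _
          have k3 : ∑ v ∈ X, 2 * k * xv v ≤ ∑ v ∈ X, ((max (xv v) 0) ^ 2 + k ^ 2) := by
            refine sum_le_sum fun v _ => ?_
            have := le_max_left (xv v) 0
            nlinarith [sq_nonneg (max (xv v) 0 - k)]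
          rw [← mul_sum, sum_add_distrib, sum_const, nsmul_eq_mul] at k3
          linarith
        set Dd := (nru / Nn + 2 * (nlu / Nn)) * (2.25 * (Rr.card / Nn) + c ^ 2 * (Ll.card / Nn) / 2)
          with hDd
        have hD0 : 0 ≤ Dd := by positivity
        have k4 : ∑ v, (max (xv v) 0) ^ 2 ≤ 0.084 * Dd * N0 := by
          refine hp.trans ?_
          have := mul_le_mul_of_nonneg_left hw2 (show 0 ≤ 0.0835 * n by positivity)
          nlinarith
        have k5 : 2 * k * (0.499 * (1.5 * (Rr.card / Nn) + c * (Ll.card / Nn)) * (X.card / N0)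
            - (1.5 * ((∑ y ∈ Rr, e y) / (N0 * Nn)) + c * ((∑ y ∈ Ll, e y) / (N0 * Nn))))
            = (2 * k * ∑ v ∈ X, xv v) / N0 := by
          rw [hsumx]; field_simp; ring
        rw [k5, div_le_iff₀ hN0p]
        have k6 : (0.084 * (nru / Nn + 2 * (nlu / Nn))
            * (2.25 * (Rr.card / Nn) + c ^ 2 * (Ll.card / Nn) / 2) + k ^ 2 * (X.card / N0)) * N0
            = 0.084 * Dd * N0 + k ^ 2 * X.card := by
          rw [hDd]; field_simp
        rw [k6]
        linarith)
      (by
        intro hx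
        rw [div_le_iff₀ hN0p] at hx
        have : 1.5 * ((∑ y ∈ Rr, e y) / (N0 * Nn)) = (∑ y ∈ Rr, 1.5 * e y / N0) / Nn := by
          rw [← sum_div, ← mul_sum]; field_simp
        rw [this]
        refine div_le_div_of_nonneg_right (sum_le_sum fun y _ => le_min ?_ ?_) hNn.le
        · rw [div_le_one hN0p]
          have := he1 y
          linarith
        · rw [div_le_div_iff₀ hN0p (by positivity)]
          have := he0 y
          nlinarith)
      (by
        have : Rr.card / Nn * (X.card / N0 - 0.334) / 0.666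
            = (∑ y ∈ Rr, (X.card - 0.334 * N0) / (0.666 * N0)) / Nn := by
          rw [sum_const, nsmul_eq_mul]; field_simp
        rw [this]
        refine div_le_div_of_nonneg_right (sum_le_sum fun y _ => le_min ?_ ?_) hNn.le
        · rw [div_le_one (by positivity)]
          linarith
        · exact div_le_div_of_nonneg_right (he2 y) (by positivity))
      (by
        have k1 : ∑ y ∈ Ll, e y ≤
            (Ll.filter fun y => (X \ H.non (T.dir y) (φ (T.p y))).Nonempty).card * X.card := by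
          rw [card_filter]
          push_cast
          rw [sum_mul]
          refine sum_le_sum fun y _ => ?_
          split_ifs with h
          · rw [one_mul]; exact he1 y
          · rw [not_nonempty_iff_eq_empty] at h
            simp [he, h]
        rw [div_mul_div_comm, mul_comm Nn N0]
        exact div_le_div_of_nonneg_right k1 (by positivity))
      (by
        intro hx
        rw [lt_div_iff₀ hN0p] at hx
        rw [filter_true_of_mem]
        intro y _
        rw [← card_pos]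
        have := he2 y
        have : 0 < e y := by linarith
        simp only [he] at this
        exact_mod_cast this)
    have hmin : min (nM / Nn - 0.4 * (nru / Nn))
        ((0.495 * (nM / Nn) - 0.4 * (nru / Nn)) / 0.334 * (X.card / N0))
        = min (nM - 0.4 * nru) ((0.495 * nM - 0.4 * nru) / 0.334 * (X.card / N0)) / Nn := by
      rw [← min_div_div_right hNn.le]
      congr 1 <;> ring
    rw [hmin] at key
    have := mul_le_mul_of_nonneg_right key hNn.le
    refine this.trans (le_of_eq ?_)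
    simp only [he]
    field_simp
  · intro i hi θ hθ
    have hp := hpot false
    have hmem : some i ∈ (insertNone Tst).filter (fun i => i.isNone = false) := by simp [hi]
    have k1 := (single_le_sum (f := fun i => ∑ v : β, (max (∑ s ∈ S.erase t,
      (w i s true * (H.xi true (φ s) v - 0.501) + w i s false * (H.xi false (φ s) v - 0.501))) 0) ^ 2)
      (fun _ _ => sum_nonneg fun _ _ => sq_nonneg _) hmem).trans hp
    have k2 : ∑ j ∈ (insertNone Tst).filter (fun i => i.isNone = false),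
        ∑ s ∈ S.erase t, (w j s true + w j s false) ^ 2 ≤ B * Tot := by
      have hf : (insertNone Tst).filter (fun i => i.isNone = false)
          = Tst.map Function.Embedding.some := by
        ext i; cases i <;> simp
      rw [hf, sum_map]
      refine le_trans ?_ (mul_le_mul_of_nonneg_left hTot hB0)
      rw [mul_sum]
      refine sum_le_sum fun j hj => ?_
      rw [← sum_cnt T (Cm j) _ (hCm' j hj), mul_sum]
      refine sum_le_sum fun s _ => ?_
      simp only [Function.Embedding.some_apply, w, cpd_add]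
      rw [sq]
      exact mul_le_mul_of_nonneg_right (hB j hj s) (Nat.cast_nonneg _)
    refine le_trans ?_ (k1.trans (mul_le_mul_of_nonneg_left k2 (by positivity)))
    rw [← nsmul_eq_mul, ← sum_const]
    refine le_trans (sum_le_sum fun v hv => ?_)
      (sum_le_sum_of_subset_of_nonneg (subset_univ _) fun _ _ _ => sq_nonneg _)
    have hv' := (mem_filter.1 hv).2
    simp only [w]
    rw [sum_by_parent T (Cm i) _ (hCm' i hi) fun s b => H.xi b (φ s) v - 0.501, sum_sub_distrib,
      sum_xi_eq', sum_const, nsmul_eq_mul]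
    exact pow_le_pow_left₀ hθ (le_max_of_le_left (by linarith)) 2

end Pool.Agent.MP_6f6f6b_co

end MrgPart2

-- ======== part 3: formerly Pool.Agent.MP_6f6f6b_co.LD
section MrgPart3

set_option autoImplicit false
set_option linter.unusedVariables false
set_option linter.unusedSectionVars false

open Finset
open scoped Classical

namespace Pool.Agent.MP_6f6f6b_co

/-- A labelled decomposition of a rooted tree: a separator `S` with heavy part `Hv`, a small
exceptional set `G`, and a labelled remainder `U`.  Roles: `0` ordinary, `2` reserved for the last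
matching, `1` and `3` the parent and the child of a reserved vertex of degree two. -/
structure LD {α : Type} (T : RTree α) (Λ : Type) where
  S : Finset α
  G : Finset α
  U : Finset α
  Hv : Finset α
  role : α → ℕ
  lab : α → Λ
  rk : Λ → ℕ
  mode : Bool
  b1 : Bool
  b2 : Bool
  cover : ∀ v, v ∈ S ∨ v ∈ G ∨ v ∈ U
  dSG : ∀ v ∈ S, v ∉ G
  dSU : ∀ v ∈ S, v ∉ U
  dGU : ∀ v ∈ G, v ∉ U
  r_mem : T.r ∈ S
  Hv_sub : Hv ⊆ S
  Hv_ne : Hv.Nonempty
  S_par : ∀ s ∈ S, T.p s ∉ U
  G_ch : ∀ c c', c ∉ G → c' ∉ G → T.p c ∈ G → T.p c = T.p c' → c = c'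
  l_dir : ∀ x ∈ U, ∀ y ∈ U, lab x = lab y → T.dir x = T.dir y
  l_role : ∀ x ∈ U, ∀ y ∈ U, lab x = lab y → role x = role y
  l_in : ∀ x ∈ U, ∀ y ∈ U, lab x = lab y → T.p x ∈ U → T.p y ∈ U ∧ lab (T.p x) = lab (T.p y)
  l_hub : ∀ x ∈ U, ∀ y ∈ U, lab x = lab y → T.p x ∈ Hv → T.p y = T.p x
  l_med : ∀ x ∈ U, ∀ y ∈ U, lab x = lab y → T.p x ∈ S → T.p y ∈ S
  l_inj : ∀ x ∈ U, ∀ y ∈ U, lab x = lab y → T.p x ∈ U → T.p x = T.p y → x = y
  l_surj : ∀ x ∈ U, T.p x ∈ U → ∀ y ∈ U, lab y = lab (T.p x) → ∃ x' ∈ U, T.p x' = y ∧ lab x' = lab x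
  l_rk : ∀ x ∈ U, T.p x ∈ U → rk (lab (T.p x)) < rk (lab x)
  role_le : ∀ x, role x ≤ 3
  z_par : ∀ z ∈ U, role z = 2 → T.p z ∈ U ∧ role (T.p z) = (if mode then 1 else 0) ∧
    (mode = true → T.dir z = b1)
  z_ch : ∀ c, T.p c ∈ U → role (T.p c) = 2 → c ∈ U ∧ role c = 3
  y_par : ∀ y ∈ U, role y = 3 → mode = true ∧ T.p y ∈ U ∧ role (T.p y) = 2 ∧ T.dir y = b2
  x_par : ∀ x ∈ U, role x = 1 → T.p x ∈ U
  x_ch : ∀ c ∈ U, T.p c ∈ U → role (T.p c) = 1 → role c = 2
  x_has : ∀ x ∈ U, role x = 1 → ∃ c ∈ U, T.p c = x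
  z_has : mode = true → ∀ z ∈ U, role z = 2 → ∃ c ∈ U, T.p c = z
  z_inj : mode = true → ∀ z ∈ U, ∀ z' ∈ U, role z = 2 → role z' = 2 → T.p z = T.p z' → z = z'
  y_inj : ∀ y ∈ U, ∀ y' ∈ U, role y = 3 → role y' = 3 → T.p y = T.p y' → y = y'

namespace LD

variable {α Λ : Type} {T : RTree α} (D : LD T Λ)

/-- The class of a vertex. -/
noncomputable def C (x : α) : Finset α := D.U.filter fun y => D.lab y = D.lab x

/-- The vertices of a given role. -/
noncomputable def Ro (k : ℕ) : Finset α := D.U.filter fun y => D.role y = k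

theorem mem_C {x y : α} : y ∈ D.C x ↔ y ∈ D.U ∧ D.lab y = D.lab x := by simp [C]

theorem mem_Ro {k : ℕ} {y : α} : y ∈ D.Ro k ↔ y ∈ D.U ∧ D.role y = k := by simp [Ro]

theorem C_congr {x y : α} (h : D.lab x = D.lab y) : D.C x = D.C y := by simp [C, h]

theorem ne_r {x : α} (hx : x ∈ D.U) : x ≠ T.r := by
  rintro rfl; exact D.dSU _ D.r_mem hx

theorem C_par {x : α} (hx : x ∈ D.U) (hp : T.p x ∈ D.U) : (D.C (T.p x)).card = (D.C x).card := by
  symm
  refine card_bij (fun y _ => T.p y) ?_ ?_ ?_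
  · intro y hy
    obtain ⟨h1, h2⟩ := D.mem_C.1 hy
    obtain ⟨h3, h4⟩ := D.l_in x hx y h1 h2.symm hp
    exact D.mem_C.2 ⟨h3, h4.symm⟩
  · intro y hy y' hy' h
    obtain ⟨h1, h2⟩ := D.mem_C.1 hy
    obtain ⟨h1', h2'⟩ := D.mem_C.1 hy'
    exact D.l_inj y h1 y' h1' (h2.trans h2'.symm) (D.l_in x hx y h1 h2.symm hp).1 h
  · intro y hy
    obtain ⟨h1, h2⟩ := D.mem_C.1 hy
    obtain ⟨x', h3, h4, h5⟩ := D.l_surj x hx hp y h1 h2
    exact ⟨x', D.mem_C.2 ⟨h3, h5⟩, h4⟩

theorem card_X_le : (D.Ro 1).card ≤ (D.Ro 2).card := by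
  refine card_le_card_of_surjOn T.p ?_
  intro x hx
  obtain ⟨h1, h2⟩ := D.mem_Ro.1 hx
  obtain ⟨c, hc, hp⟩ := D.x_has x h1 h2
  exact ⟨c, D.mem_Ro.2 ⟨hc, D.x_ch c hc (hp ▸ h1) (hp ▸ h2)⟩, hp⟩

theorem card_Y_le : (D.Ro 3).card ≤ (D.Ro 2).card := by
  refine card_le_card_of_injOn T.p ?_ ?_
  · intro y hy
    obtain ⟨h1, h2⟩ := D.mem_Ro.1 hy
    obtain ⟨-, h3, h4, -⟩ := D.y_par y h1 h2
    exact D.mem_Ro.2 ⟨h3, h4⟩
  · intro y hy y' hy' h
    obtain ⟨h1, h2⟩ := D.mem_Ro.1 hy
    obtain ⟨h1', h2'⟩ := D.mem_Ro.1 hy'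
    exact D.y_inj y h1 y' h1' h2 h2' h

theorem x_mode {x : α} (hx : x ∈ D.U) (h : D.role x = 1) : D.mode = true := by
  obtain ⟨c, hc, hp⟩ := D.x_has x hx h
  have h1 := (D.z_par c hc (D.x_ch c hc (hp ▸ hx) (hp ▸ h))).2.1
  rw [hp, h] at h1
  cases hm : D.mode
  · simp [hm] at h1
  · rfl

theorem card_XY : (D.Ro 1).card = (D.Ro 3).card := by
  cases hm : D.mode
  · have e1 : D.Ro 1 = ∅ := by
      rw [eq_empty_iff_forall_notMem]
      intro x hx
      have := D.x_mode (D.mem_Ro.1 hx).1 (D.mem_Ro.1 hx).2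
      simp [hm] at this
    have e2 : D.Ro 3 = ∅ := by
      rw [eq_empty_iff_forall_notMem]
      intro x hx
      have := (D.y_par x (D.mem_Ro.1 hx).1 (D.mem_Ro.1 hx).2).1
      simp [hm] at this
    rw [e1, e2]
  · have e1 : (D.Ro 2).card ≤ (D.Ro 1).card := by
      refine card_le_card_of_injOn T.p ?_ ?_
      · intro y hy
        obtain ⟨h1, h2⟩ := D.mem_Ro.1 hy
        obtain ⟨h3, h4, -⟩ := D.z_par y h1 h2
        rw [hm] at h4
        exact D.mem_Ro.2 ⟨h3, h4⟩
      · intro y hy y' hy' h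
        obtain ⟨h1, h2⟩ := D.mem_Ro.1 hy
        obtain ⟨h1', h2'⟩ := D.mem_Ro.1 hy'
        exact D.z_inj hm y h1 y' h1' h2 h2' h
    have e2 : (D.Ro 2).card ≤ (D.Ro 3).card := by
      refine card_le_card_of_surjOn T.p ?_
      intro x hx
      obtain ⟨h1, h2⟩ := D.mem_Ro.1 hx
      obtain ⟨c, hc, hp⟩ := D.z_has hm x h1 h2
      exact ⟨c, D.mem_Ro.2 ⟨hc, (D.z_ch c (hp ▸ h1) (hp ▸ h2)).2⟩, hp⟩
    have e3 := D.card_X_le
    have e4 := D.card_Y_le
    omega

theorem role_zero {x : α} (hx : x ∈ D.U) (h : T.p x ∉ D.U) : D.role x = 0 := by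
  have h0 := D.role_le x
  have h1 : D.role x ≠ 1 := fun e => h (D.x_par x hx e)
  have h2 : D.role x ≠ 2 := fun e => h (D.z_par x hx e).1
  have h3 : D.role x ≠ 3 := fun e => h (D.y_par x hx e).2.1
  omega

theorem C_sub {x : α} (hx : x ∈ D.U) : D.C x ⊆ D.Ro (D.role x) := by
  intro y hy
  obtain ⟨h1, h2⟩ := D.mem_C.1 hy
  exact D.mem_Ro.2 ⟨h1, D.l_role y h1 x hx h2⟩

theorem card_total [Fintype α] : Fintype.card α = D.S.card + D.G.card + ((D.Ro 0).card + (D.Ro 1).card
    + (D.Ro 2).card + (D.Ro 3).card) := by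
  have e1 : D.U.card = (D.Ro 0).card + (D.Ro 1).card + (D.Ro 2).card + (D.Ro 3).card := by
    simp only [Ro, card_filter, ← sum_add_distrib]
    rw [card_eq_sum_ones]
    refine sum_congr rfl fun x _ => ?_
    have := D.role_le x
    have h : D.role x = 0 ∨ D.role x = 1 ∨ D.role x = 2 ∨ D.role x = 3 := by omega
    rcases h with h | h | h | h <;> simp [h]
  rw [← e1, ← card_union_of_disjoint (disjoint_left.2 D.dSG), ← card_union_of_disjoint, ← card_univ]
  · congr 1
    ext v
    have := D.cover v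
    simp only [mem_univ, mem_union, true_iff]
    tauto
  · rw [disjoint_left]
    intro v hv
    rcases mem_union.1 hv with h | h
    · exact D.dSU v h
    · exact D.dGU v h

end LD

/-- Numerical conditions on a labelled decomposition. -/
structure Num {α Λ : Type} {T : RTree α} (D : LD T Λ) (n η εM εH a : ℝ) : Prop where
  hS : (D.S.card : ℝ) ≤ η * n
  hG : (D.G.card : ℝ) ≤ η * n / 4
  hZ1 : 1000 * η * n ≤ (D.Ro 2).card
  hZ2 : 5000 * ((D.Ro 2).card : ℝ) ≤ n
  hbulk : 600 * (D.Ro 2).card ≤ (D.U.filter fun x => D.role x = 0 ∧ T.p x ∈ D.U).card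
  hC : ∀ x ∈ D.U, εH * n ≤ (D.C x).card
  hCm : ∀ x ∈ D.U, T.p x ∈ D.S → T.p x ∉ D.Hv → εM * n ≤ (D.C x).card
  hmed : ∀ s ∈ D.S, s ∉ D.Hv → ((D.U.filter fun x => T.p x = s).card : ℝ) ≤ a * n

/-- The fibre of a colouring. -/
noncomputable def fib {β ζ : Type} [Fintype β] (o : β → ζ) (z : ζ) : Finset β :=
  univ.filter fun v => o v = z

theorem mem_fib {β ζ : Type} [Fintype β] {o : β → ζ} {z : ζ} {v : β} : v ∈ fib o z ↔ o v = z := by
  simp [fib]

/-- A partition of the host adapted to a labelled decomposition. -/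
structure Parts {α β Λ : Type} [Fintype β] {T : RTree α} (D : LD T Λ) (H : Host β) where
  φ : α → β
  o : β → Λ ⊕ ℕ
  σ : β → β
  S_zone : ∀ s ∈ D.S, o (φ s) = Sum.inr 0
  S_inj : Set.InjOn φ D.S
  S_edge : ∀ s ∈ D.S, s ≠ T.r → T.p s ∈ D.S → H.R (T.dir s) (φ (T.p s)) (φ s)
  σ_zone : ∀ x ∈ D.U, D.role x = 1 → ∀ a, o a = Sum.inl (D.lab x) → o (σ a) = Sum.inr 3
  σ_inj : ∀ x ∈ D.U, D.role x = 1 → ∀ x' ∈ D.U, D.role x' = 1 → ∀ a a', o a = Sum.inl (D.lab x) →
    o a' = Sum.inl (D.lab x') → σ a = σ a' → a = a'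
  pa : ∀ x ∈ D.U, D.role x ≤ 1 → (D.C x).card ≤ (fib o (Sum.inl (D.lab x))).card
  pb : ∀ x ∈ D.U, T.p x ∈ D.U → D.role (T.p x) = 0 → ∀ w b,
    ((fib o (Sum.inl (D.lab (T.p x))) ∩ H.non b w).card : ℝ) ≤ 0.503 * (D.C (T.p x)).card
  pb' : ∀ x ∈ D.U, D.role x = 1 → ∀ w b,
    (((fib o (Sum.inl (D.lab x))).filter fun a => σ a ∈ H.non b w).card : ℝ) ≤ 0.503 * (D.C x).card
  pc : ∀ x ∈ D.U, D.role x ≤ 1 → T.p x ∉ D.Hv → ∀ w b,
    ((fib o (Sum.inl (D.lab x)) ∩ H.non b w).card : ℝ) + 0.503 * (D.C x).card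
      ≤ (fib o (Sum.inl (D.lab x))).card
  pd : ∀ x ∈ D.U, T.p x ∈ D.Hv → ∀ v, o v = Sum.inl (D.lab x) → H.R (T.dir x) (φ (T.p x)) v
  pe : ∀ x ∈ D.U, T.p x ∈ D.S → T.p x ∉ D.Hv →
    (univ.filter fun v => 0.503 * ((D.C x).card : ℝ)
      < ((D.C x).filter fun y => ¬ H.R (T.dir y) (φ (T.p y)) v).card).card + (D.C x).card
      ≤ (fib o (Sum.inl (D.lab x))).card
  pr : ∀ w w' b b', D.G.card + (fib o (Sum.inr 1) ∩ H.non b w).card
    + (fib o (Sum.inr 1) ∩ H.non b' w').card ≤ (fib o (Sum.inr 1)).card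
  pz : 0.99 * ((D.Ro 2).card : ℝ) ≤ (fib o (Sum.inr 2)).card
  pz' : ∀ w b, ((fib o (Sum.inr 2) ∩ H.non b w).card : ℝ) ≤ 0.335 * (D.Ro 2).card
  pz'' : D.mode = true → ∀ L : Finset β, fib o (Sum.inr 2) ⊆ L → L.card = (D.Ro 2).card →
    ∀ P : Finset β, (∀ a ∈ P, ∃ x ∈ D.U, D.role x = 1 ∧ o a = Sum.inl (D.lab x)) →
      P.card ≤ (L.filter fun w => ∃ a ∈ P, H.R D.b1 a w ∧ H.R (!D.b2) (σ a) w).card

/-- Hall's theorem for a finite set. -/
theorem hall {α β : Type} (u : β) (C : Finset α) (t : α → Finset β)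
    (h : ∀ s ⊆ C, s.card ≤ (s.biUnion t).card) :
    ∃ f : α → β, Set.InjOn f C ∧ ∀ x ∈ C, f x ∈ t x := by
  obtain ⟨f, hf, hft⟩ := (all_card_le_biUnion_card_iff_exists_injective fun x : C => t x).1 (by
    intro s
    have := h (s.map (Function.Embedding.subtype _)) (by
      intro x hx
      obtain ⟨y, -, rfl⟩ := mem_map.1 hx
      exact y.2)
    rw [card_map] at this
    refine this.trans (le_of_eq ?_)
    congr 1
    ext w
    simp)
  refine ⟨fun x => if hx : x ∈ C then f ⟨x, hx⟩ else u, ?_, ?_⟩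
  · intro x hx y hy hxy
    simp only [mem_coe.1 hx, mem_coe.1 hy, dif_pos] at hxy
    exact congrArg Subtype.val (hf hxy)
  · intro x hx
    simp only [hx, dif_pos]
    exact hft ⟨x, hx⟩

/-- Hall's theorem from degree conditions. -/
theorem hall_deg {α β : Type} (u : β) (C : Finset α) (P Bad : Finset β) (ok : α → β → Prop) (b : ℝ)
    (h1 : ∀ x ∈ C, ((P.filter fun w => ¬ ok x w).card : ℝ) + b ≤ P.card)
    (h2 : ∀ w ∈ P, w ∉ Bad → ((C.filter fun x => ¬ ok x w).card : ℝ) ≤ b)
    (h3 : Bad.card + C.card ≤ P.card) :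
    ∃ f : α → β, Set.InjOn f C ∧ ∀ x ∈ C, f x ∈ P ∧ ok x (f x) := by
  obtain ⟨f, hf, hft⟩ := hall u C (fun x => P.filter fun w => ok x w) (by
    intro s hs
    rcases s.eq_empty_or_nonempty with rfl | ⟨x, hx⟩
    · simp
    by_cases hb : (s.card : ℝ) ≤ b
    · have e1 : (P.filter fun w => ok x w).card ≤ (s.biUnion fun x => P.filter fun w => ok x w).card :=
        card_le_card (subset_biUnion_of_mem (fun x => P.filter fun w => ok x w) hx)
      have e2 := card_filter_add_card_filter_not (s := P) (fun w => ok x w)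
      have e3 := h1 x (hs hx)
      have e4 : (((P.filter fun w => ok x w).card + (P.filter fun w => ¬ ok x w).card : ℕ) : ℝ)
        = P.card := by exact_mod_cast e2
      push_cast at e4
      have e5 : (s.card : ℝ) ≤ (P.filter fun w => ok x w).card := by linarith
      have e6 : s.card ≤ (P.filter fun w => ok x w).card := by exact_mod_cast e5
      omega
    · have e1 : P \ Bad ⊆ s.biUnion fun x => P.filter fun w => ok x w := by
        intro w hw
        obtain ⟨hw1, hw2⟩ := mem_sdiff.1 hw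
        by_contra hcon
        simp only [mem_biUnion, mem_filter, hw1, true_and, not_exists, not_and] at hcon
        have : s ⊆ C.filter fun x => ¬ ok x w := fun y hy => mem_filter.2 ⟨hs hy, hcon y hy⟩
        have e : (s.card : ℝ) ≤ (C.filter fun x => ¬ ok x w).card := by
          exact_mod_cast card_le_card this
        exact hb (e.trans (h2 w hw1 hw2))
      have e2 := card_le_card e1
      have e3 := le_card_sdiff Bad P
      have e4 := card_le_card hs
      omega)
  exact ⟨f, hf, fun x hx => mem_filter.1 (hft x hx)⟩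

/-- A fibrewise bound gives a global bound. -/
theorem card_le_of_fiber {α Λ : Type} (Z : Finset α) (lab : α → Λ) (Q : α → Prop)
    [DecidablePred Q] (c : ℝ)
    (h : ∀ z0 ∈ Z, (((Z.filter fun z => lab z = lab z0).filter Q).card : ℝ)
      ≤ c * (Z.filter fun z => lab z = lab z0).card) :
    ((Z.filter Q).card : ℝ) ≤ c * Z.card := by
  rw [card_eq_sum_card_fiberwise (f := lab) (s := Z.filter Q) (t := Z.image lab)
      (fun z hz => mem_coe.2 (mem_image_of_mem _ (mem_filter.1 (mem_coe.1 hz)).1)),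
    card_eq_sum_card_image lab Z]
  push_cast
  rw [mul_sum]
  refine sum_le_sum fun l hl => ?_
  obtain ⟨z0, hz0, rfl⟩ := mem_image.1 hl
  rw [filter_comm]
  exact h z0 hz0

/-- Greedy embedding of the exceptional vertices into a reservoir. -/
theorem greedy {α β : Type} [Fintype β] (T : RTree α) (H : Host β) (G : Finset α) (res : Finset β)
    (ψ : α → β) (hr : T.r ∉ G)
    (hch : ∀ c c', c ∉ G → c' ∉ G → T.p c ∈ G → T.p c = T.p c' → c = c')
    (hres : ∀ w w' b b', G.card + (res ∩ H.non b w).card + (res ∩ H.non b' w').card ≤ res.card) :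
    ∃ ψ2 : α → β, (∀ v, v ∉ G → ψ2 v = ψ v) ∧ Set.InjOn ψ2 G ∧ (∀ g ∈ G, ψ2 g ∈ res) ∧
      ∀ v, v ≠ T.r → (v ∈ G ∨ T.p v ∈ G) → H.R (T.dir v) (ψ2 (T.p v)) (ψ2 v) := by
  have main : ∀ A : Finset α, A ⊆ G → ∃ ψ2 : α → β, (∀ v, v ∉ A → ψ2 v = ψ v) ∧ Set.InjOn ψ2 A ∧
      (∀ g ∈ A, ψ2 g ∈ res) ∧
      (∀ v ∈ A, (T.p v ∉ G ∨ T.p v ∈ A) → H.R (T.dir v) (ψ2 (T.p v)) (ψ2 v)) ∧
      (∀ v, v ∉ G → T.p v ∈ A → H.R (T.dir v) (ψ2 (T.p v)) (ψ2 v)) := by
    intro A
    induction A using Finset.induction_on_max_value T.dep with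
    | empty => intro _; exact ⟨ψ, fun _ _ => rfl, by simp, by simp, by simp, by simp⟩
    | insert a A ha hmax ih =>
      intro hsub
      obtain ⟨χ, h1, h2, h3, h4, h5⟩ := ih ((subset_insert _ _).trans hsub)
      have haG : a ∈ G := hsub (mem_insert_self _ _)
      have har : a ≠ T.r := by rintro rfl; exact hr haG
      obtain ⟨c, hc⟩ : ∃ c, ∀ c', c' ∉ G → T.p c' = a → c' = c := by
        by_cases h : ∃ c, c ∉ G ∧ T.p c = a
        · obtain ⟨c, hc1, hc2⟩ := h
          exact ⟨c, fun c' h1 h2 => hch c' c h1 hc1 (h2 ▸ haG) (h2.trans hc2.symm)⟩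
        · exact ⟨a, fun c' h1 h2 => absurd ⟨c', h1, h2⟩ h⟩
      obtain ⟨y, hy, hy'⟩ : ∃ y ∈ res, y ∉ A.image χ ∪ (res ∩ H.non (T.dir a) (χ (T.p a)))
          ∪ (res ∩ H.non (!T.dir c) (χ c)) := by
        apply exists_mem_notMem_of_card_lt_card
        have e1 := card_union_le (A.image χ ∪ (res ∩ H.non (T.dir a) (χ (T.p a))))
          (res ∩ H.non (!T.dir c) (χ c))
        have e2 := card_union_le (A.image χ) (res ∩ H.non (T.dir a) (χ (T.p a)))
        have e3 : (A.image χ).card ≤ A.card := card_image_le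
        have e4 := card_le_card hsub
        rw [card_insert_of_notMem ha] at e4
        have e5 := hres (χ (T.p a)) (χ c) (T.dir a) (!T.dir c)
        omega
      simp only [mem_union, mem_inter, hy, true_and, not_or, H.mem_non', mem_image, not_exists,
        not_and, not_not] at hy'
      rw [H.mem_non, not_not] at hy'
      have hupd : ∀ v, v ≠ a → Function.update χ a y v = χ v := fun v hv =>
        Function.update_of_ne hv _ _
      have hne : ∀ v ∈ A, v ≠ a := by rintro v hv rfl; exact ha hv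
      have hpa : T.p a ≠ a := by
        intro h
        have := T.dep_p a har
        rw [h] at this
        omega
      refine ⟨Function.update χ a y, ?_, ?_, ?_, ?_, ?_⟩
      · intro v hv
        rw [mem_insert, not_or] at hv
        rw [hupd v hv.1, h1 v hv.2]
      · rw [coe_insert, Set.injOn_insert (by exact_mod_cast ha)]
        constructor
        · intro s hs s' hs' h
          rw [hupd s (hne s hs), hupd s' (hne s' hs')] at h
          exact h2 hs hs' h
        · rintro ⟨s, hs, h⟩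
          rw [hupd s (hne s hs), Function.update_self] at h
          exact hy'.1.1 s hs h
      · intro g hg
        rcases mem_insert.1 hg with rfl | hg'
        · rw [Function.update_self]; exact hy
        · rw [hupd g (hne g hg')]; exact h3 g hg'
      · intro v hv hp
        rcases mem_insert.1 hv with rfl | hv'
        · rw [Function.update_self, hupd _ hpa]; exact hy'.1.2
        · have hvr : v ≠ T.r := by rintro rfl; exact hr (hsub hv)
          have hpv : T.p v ≠ a := by
            intro h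
            have e1 := T.dep_p v hvr
            have e2 := hmax v hv'
            rw [h] at e1
            omega
          rw [hupd v (hne v hv'), hupd _ hpv]
          refine h4 v hv' ?_
          rcases hp with hp | hp
          · exact Or.inl hp
          · exact Or.inr ((mem_insert.1 hp).resolve_left hpv)
      · intro v hv hp
        have hva : v ≠ a := by rintro rfl; exact hv haG
        rw [hupd v hva]
        rcases mem_insert.1 hp with h | h
        · rw [h, Function.update_self, hc v hv h]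
          exact hy'.2
        · rw [hupd _ (hne _ h)]
          exact h5 v hv h
  obtain ⟨χ, h1, h2, h3, h4, h5⟩ := main G Subset.rfl
  refine ⟨χ, h1, h2, h3, fun v hv h => ?_⟩
  by_cases hvG : v ∈ G
  · exact h4 v hvG (by tauto)
  · exact h5 v hvG (h.resolve_left hvG)

end Pool.Agent.MP_6f6f6b_co

end MrgPart3

-- ======== part 4: formerly Pool.Agent.MP_6f6f6b_co.Flow
section MrgPart4

set_option autoImplicit false
set_option linter.unusedVariables false

open Finset

namespace Pool.Agent.MP_6f6f6b_co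

/-- A fractional flow saturating every vertex exists as soon as the cut condition holds. -/
theorem flow {σ β : Type} (Src : Finset σ) (V0 : Finset β) (s : σ → ℝ) (cap : σ → β → ℝ) (κ : ℝ)
    (hcap : ∀ i v, 0 ≤ cap i v) (hs : ∀ i ∈ Src, 0 ≤ s i)
    (hfeas : ∀ i ∈ Src, s i ≤ ∑ v ∈ V0, cap i v)
    (htot : ∑ i ∈ Src, s i = κ * V0.card)
    (hcut : ∀ X ⊆ V0, X.Nonempty → κ * X.card ≤ ∑ i ∈ Src, min (s i) (∑ v ∈ X, cap i v)) :
    ∃ f : σ → β → ℝ, (∀ i v, 0 ≤ f i v ∧ f i v ≤ cap i v) ∧ (∀ i ∈ Src, ∑ v ∈ V0, f i v = s i) ∧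
      ∀ v ∈ V0, ∑ i ∈ Src, f i v = κ := by
  classical
  set K : Set (σ → β → ℝ) := Set.Icc 0 cap ∩ {f | ∀ i ∈ Src, ∑ v ∈ V0, f i v = s i} with hK
  have hKc : IsCompact K := by
    apply IsCompact.inter_right isCompact_Icc
    have : {f : σ → β → ℝ | ∀ i ∈ Src, ∑ v ∈ V0, f i v = s i}
        = ⋂ i ∈ Src, {f : σ → β → ℝ | ∑ v ∈ V0, f i v = s i} := by
      ext f; simp
    rw [this]
    refine isClosed_biInter fun i _ => isClosed_eq ?_ continuous_const
    fun_prop
  have hKne : K.Nonempty := by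
    refine ⟨fun i v => if i ∈ Src then cap i v * (s i / ∑ w ∈ V0, cap i w) else 0, ⟨?_, ?_⟩, ?_⟩
    · intro i v
      simp only [Pi.zero_apply]
      split_ifs with h
      · exact mul_nonneg (hcap i v) (div_nonneg (hs i h) (sum_nonneg fun w _ => hcap i w))
      · exact le_rfl
    · intro i v
      dsimp only
      split_ifs with h
      · exact mul_le_of_le_one_right (hcap i v)
          (div_le_one_of_le₀ (hfeas i h) (sum_nonneg fun w _ => hcap i w))
      · exact hcap i v
    · intro i hi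
      simp only [hi, if_true]
      rw [← sum_mul]
      by_cases h0 : ∑ w ∈ V0, cap i w = 0
      · have := hfeas i hi
        have := hs i hi
        rw [h0, zero_mul]; linarith
      · field_simp
  have hcont : Continuous fun f : σ → β → ℝ => ∑ v ∈ V0, (∑ i ∈ Src, f i v) ^ 2 := by fun_prop
  obtain ⟨f, ⟨⟨hf0, hf1⟩, hf2⟩, hmin⟩ := hKc.exists_isMinOn hKne hcont.continuousOn
  have hf0' : ∀ i v, 0 ≤ f i v := fun i v => hf0 i v
  have hf1' : ∀ i v, f i v ≤ cap i v := fun i v => hf1 i v
  have hf2' : ∀ i ∈ Src, ∑ v ∈ V0, f i v = s i := hf2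
  -- exchange argument
  have exch : ∀ i ∈ Src, ∀ v ∈ V0, ∀ w ∈ V0, ∑ j ∈ Src, f j v < ∑ j ∈ Src, f j w → 0 < f i w →
      f i v = cap i v := by
    intro i hi v hv w hw hlt hpos
    by_contra hne
    have hlt' : f i v < cap i v := lt_of_le_of_ne (hf1' i v) hne
    have hvw : v ≠ w := by rintro rfl; exact lt_irrefl _ hlt
    set a := ∑ j ∈ Src, f j v
    set b := ∑ j ∈ Src, f j w
    set e := min (min (f i w) (cap i v - f i v)) ((b - a) / 2) with he
    have he0 : 0 < e := by
      apply lt_min (lt_min hpos (by linarith)); linarith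
    have he1 : e ≤ f i w := (min_le_left _ _).trans (min_le_left _ _)
    have he2 : e ≤ cap i v - f i v := (min_le_left _ _).trans (min_le_right _ _)
    have he3 : e ≤ (b - a) / 2 := min_le_right _ _
    set d : β → ℝ := fun x => (if x = v then e else 0) - (if x = w then e else 0) with hd
    set g : σ → β → ℝ := fun j x => f j x + if j = i then d x else 0 with hg
    have hdsum : ∑ x ∈ V0, d x = 0 := by
      simp only [hd, sum_sub_distrib, sum_ite_eq', hv, hw, if_true, sub_self]
    have hgK : g ∈ K := by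
      refine ⟨⟨?_, ?_⟩, ?_⟩
      · intro j x
        simp only [Pi.zero_apply, hg, hd]
        have := hf0' j x
        split_ifs with h1 h2 h3 h3
        · linarith
        · linarith
        · subst h1 h3; linarith
        · linarith
        · linarith
      · intro j x
        simp only [hg, hd]
        have := hf1' j x
        split_ifs with h1 h2 h3 h3
        · linarith
        · subst h1 h2; linarith
        · linarith
        · linarith
        · linarith
      · intro j hj
        simp only [hg, sum_add_distrib, hf2' j hj]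
        split_ifs with h1
        · rw [hdsum, add_zero]
        · simp
    have hload : ∀ x, ∑ j ∈ Src, g j x = ∑ j ∈ Src, f j x + d x := by
      intro x
      simp only [hg, sum_add_distrib, sum_ite_eq', hi, if_true]
    have hle := hmin hgK
    simp only [Set.mem_ofPred_eq, hload] at hle
    have hdiff : ∑ x ∈ V0, ((∑ j ∈ Src, f j x + d x) ^ 2 - (∑ j ∈ Src, f j x) ^ 2)
        = ((a + e) ^ 2 - a ^ 2) + ((b - e) ^ 2 - b ^ 2) := by
      rw [← sum_subset (s₁ := {v, w})]
      · rw [sum_pair hvw]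
        simp only [hd, if_true, hvw, hvw.symm, if_false]
        ring
      · intro x hx
        simp only [mem_insert, mem_singleton] at hx
        rcases hx with rfl | rfl <;> assumption
      · intro x _ hx
        simp only [mem_insert, mem_singleton, not_or] at hx
        simp [hd, hx.1, hx.2]
    rw [sum_sub_distrib] at hdiff
    nlinarith
  refine ⟨f, fun i v => ⟨hf0' i v, hf1' i v⟩, hf2', ?_⟩
  have hall : ∀ v ∈ V0, κ ≤ ∑ i ∈ Src, f i v := by
    by_contra hcon
    push Not at hcon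
    set X := V0.filter fun v => ∑ i ∈ Src, f i v < κ with hX
    have hXne : X.Nonempty := by
      obtain ⟨v, hv, h⟩ := hcon
      exact ⟨v, mem_filter.2 ⟨hv, h⟩⟩
    have h1 := hcut X (filter_subset _ _) hXne
    have h2 : ∑ i ∈ Src, min (s i) (∑ v ∈ X, cap i v) ≤ ∑ i ∈ Src, ∑ v ∈ X, f i v := by
      refine sum_le_sum fun i hi => ?_
      by_cases hc : ∃ w ∈ V0, w ∉ X ∧ 0 < f i w
      · obtain ⟨w, hw, hwX, hpos⟩ := hc
        refine (min_le_right _ _).trans (le_of_eq (sum_congr rfl fun v hv => ?_))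
        have hv' := mem_filter.1 hv
        have hw' : κ ≤ ∑ j ∈ Src, f j w := by
          by_contra h; exact hwX (mem_filter.2 ⟨hw, not_le.1 h⟩)
        exact (exch i hi v hv'.1 w hw (lt_of_lt_of_le hv'.2 hw') hpos).symm
      · push Not at hc
        refine (min_le_left _ _).trans (le_of_eq ?_)
        rw [← hf2' i hi]
        symm
        apply sum_subset (filter_subset _ _)
        intro w hw hwX
        exact le_antisymm (hc w hw hwX) (hf0' i w)
    have h3 : ∑ v ∈ X, ∑ i ∈ Src, f i v < ∑ v ∈ X, κ :=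
      sum_lt_sum_of_nonempty hXne fun v hv => (mem_filter.1 hv).2
    rw [sum_comm] at h3
    simp only [sum_const, nsmul_eq_mul] at h3
    linarith
  have htot' : ∑ v ∈ V0, ∑ i ∈ Src, f i v = ∑ v ∈ V0, κ := by
    rw [sum_comm, sum_congr rfl hf2', htot]
    simp [mul_comm]
  intro v hv
  exact ((sum_eq_sum_iff_of_le hall).1 htot'.symm v hv).symm

end Pool.Agent.MP_6f6f6b_co

end MrgPart4

-- ======== part 5: formerly Pool.Agent.MP_6f6f6b_co.Plan
section MrgPart5

set_option autoImplicit false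
set_option linter.unusedVariables false
set_option linter.unusedSectionVars false

open Finset
open scoped Classical

namespace Pool.Agent.MP_6f6f6b_co

theorem sum_kind {α : Type} (Nm : Finset α) (kind : α → ℕ) (hk : ∀ x, kind x ≤ 3) (g : α → ℝ) :
    ∑ x ∈ Nm, g x = ∑ x ∈ Nm.filter (kind · = 0), g x + ∑ x ∈ Nm.filter (kind · = 1), g x
      + ∑ x ∈ Nm.filter (kind · = 2), g x + ∑ x ∈ Nm.filter (kind · = 3), g x := by
  simp only [sum_filter, ← sum_add_distrib]
  refine sum_congr rfl fun x _ => ?_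
  have := hk x
  have h : kind x = 0 ∨ kind x = 1 ∨ kind x = 2 ∨ kind x = 3 := by omega
  rcases h with h | h | h | h <;> simp [h]

theorem sum_ite_non {β : Type} (X Q : Finset β) (c : ℝ) :
    ∑ v ∈ X, (if v ∈ Q then 0 else c) = (X \ Q).card * c := by
  rw [← nsmul_eq_mul, ← sum_const, sdiff_eq_filter, sum_filter]
  refine sum_congr rfl fun v _ => ?_
  split_ifs <;> rfl

/-- The fractional plan. -/
theorem plan {α β : Type} (Nm : Finset α) (kind : α → ℕ) (hk : ∀ x, kind x ≤ 3) (V0 : Finset β)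
    (nn : α → Finset β) (nru θ κ : ℝ) (hθ : 0 < θ) (hV0 : 0 < V0.card) (h1 : 0 ≤ nru)
    (hnn : ∀ x, ((nn x).card : ℝ) ≤ 0.334 * V0.card)
    (hM0 : 0 < (Nm.filter (kind · = 3)).card)
    (hM : 0.995 * (2 * nru) ≤ (Nm.filter (kind · = 3)).card)
    (hκ : κ * V0.card = θ * Nm.card)
    (hcut : ∀ X ⊆ V0, X.Nonempty → (X.card : ℝ) / V0.card * Nm.card ≤ 0.4 * nru
      + (Nm.filter (kind · = 2)).card
      + min (((Nm.filter (kind · = 3)).card : ℝ) - 0.4 * nru)
          ((0.495 * (Nm.filter (kind · = 3)).card - 0.4 * nru) / 0.334 * (X.card / V0.card))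
      + ∑ y ∈ Nm.filter (kind · = 0), min 1 (((X \ nn y).card : ℝ) / (0.666 * V0.card))
      + ((Nm.filter (kind · = 1)).filter fun y => (X \ nn y).Nonempty).card) :
    ∃ ω : β → α → ℝ, (∀ v x, 0 ≤ ω v x) ∧ (∀ v ∈ V0, ∑ x ∈ Nm, ω v x = κ) ∧
      (∀ x ∈ Nm, ∑ v ∈ V0, ω v x = θ) ∧ (∀ v x, kind x ≤ 1 → 0 < ω v x → v ∉ nn x) ∧
      (∀ x ∈ Nm, ∀ Q : Finset β, (Q.card : ℝ) ≤ 0.334 * V0.card →
        (kind x = 0 → ∑ v ∈ V0 ∩ Q, ω v x ≤ θ * 0.5016) ∧
        (kind x = 3 → ∑ v ∈ V0 ∩ Q, ω v x ≤ θ * 0.495)) := by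
  set N0 : ℝ := (V0.card : ℝ) with hN0
  have hN0p : 0 < N0 := by rw [hN0]; exact_mod_cast hV0
  have hN01 : 1 ≤ N0 := by rw [hN0]; exact_mod_cast hV0
  set M : ℝ := ((Nm.filter (kind · = 3)).card : ℝ) with hMdef
  have hMp : 0 < M := by rw [hMdef]; exact_mod_cast hM0
  set a : ℝ := 0.4 * nru / M with ha
  have ha0 : 0 ≤ a := by positivity
  have ha1 : a ≤ 0.202 := by rw [ha, div_le_iff₀ hMp]; linarith
  set ρ : ℝ := (0.495 - a) / 0.334 with hρ
  have hρ0 : 0 ≤ ρ := by rw [hρ]; apply div_nonneg <;> linarith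
  have hρ1 : 1 - a ≤ ρ := by rw [hρ, le_div_iff₀ (by norm_num)]; linarith
  clear_value ρ a M N0
  let s : α × Bool → ℝ := fun i =>
    if i.2 then (if kind i.1 = 0 then θ else if kind i.1 = 3 then θ * (1 - a) else 0)
    else (if kind i.1 = 0 then 0 else if kind i.1 = 3 then θ * a else θ)
  let cap : α × Bool → β → ℝ := fun i v =>
    if i.2 then (if kind i.1 = 0 then (if v ∈ nn i.1 then 0 else θ / (0.666 * N0))
      else if kind i.1 = 3 then θ * ρ / N0 else 0)
    else (if kind i.1 = 0 then 0 else if kind i.1 = 3 then θ * a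
      else if kind i.1 = 1 then (if v ∈ nn i.1 then 0 else θ) else θ)
  have hsd : ∀ x, 0.666 * N0 ≤ (V0 \ nn x).card := by
    intro x
    have k1 := le_card_sdiff (nn x) V0
    have k2 : V0.card ≤ (V0 \ nn x).card + (nn x).card := by omega
    have k3 : N0 ≤ (V0 \ nn x).card + (nn x).card := by rw [hN0]; exact_mod_cast k2
    have := hnn x
    linarith
  have hs2 : ∀ x, s (x, true) + s (x, false) = θ := by
    intro x
    simp only [s, if_true, Bool.false_eq_true, if_false]
    split_ifs <;> ring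
  obtain ⟨f, hf1, hf2, hf3⟩ := flow (Nm ×ˢ (univ : Finset Bool)) V0 s cap κ
    (by
      intro i v
      simp only [cap]
      split_ifs <;> positivity)
    (by
      intro i _
      have : 0 ≤ 1 - a := by linarith
      simp only [s]
      split_ifs <;> positivity)
    (by
      rintro ⟨x, b⟩ _
      cases b
      · simp only [s, cap, Bool.false_eq_true, if_false]
        split_ifs with k0 k3 k1
        · simp
        · rw [sum_const, nsmul_eq_mul]
          exact le_mul_of_one_le_left (by positivity) (hN0 ▸ hN01)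
        · rw [sum_ite_non]
          refine le_mul_of_one_le_left hθ.le ?_
          have : (0 : ℝ) < (V0 \ nn x).card := lt_of_lt_of_le (by positivity) (hsd x)
          have : 0 < (V0 \ nn x).card := by exact_mod_cast this
          exact_mod_cast this
        · rw [sum_const, nsmul_eq_mul]
          exact le_mul_of_one_le_left hθ.le (hN0 ▸ hN01)
      · simp only [s, cap, if_true]
        split_ifs with k0 k3
        · rw [sum_ite_non, mul_div_assoc', le_div_iff₀ (by positivity), mul_comm]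
          exact mul_le_mul_of_nonneg_right (hsd x) hθ.le
        · rw [sum_const, nsmul_eq_mul, ← hN0, mul_div_cancel₀ _ hN0p.ne']
          exact mul_le_mul_of_nonneg_left hρ1 hθ.le
        · simp)
    (by
      rw [sum_product]
      simp only [Fintype.univ_bool, mem_singleton, Bool.true_eq_false, not_false_eq_true, sum_insert,
        sum_singleton, hs2, sum_const, nsmul_eq_mul]
      rw [← hN0, hκ, mul_comm])
    (by
      intro X hX hXne
      have hXc : (1 : ℝ) ≤ X.card := by exact_mod_cast card_pos.2 hXne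
      have e1 : κ * X.card = θ * (X.card / N0 * Nm.card) := by
        have : κ = θ * Nm.card / N0 := by rw [eq_div_iff hN0p.ne']; exact hκ
        rw [this]; field_simp
      rw [e1, sum_product, sum_kind Nm kind hk]
      refine (mul_le_mul_of_nonneg_left (hcut X hX hXne) hθ.le).trans ?_
      have c0 : θ * ∑ y ∈ Nm.filter (kind · = 0), min 1 (((X \ nn y).card : ℝ) / (0.666 * N0))
          ≤ ∑ x ∈ Nm.filter (kind · = 0), ∑ b, min (s (x, b)) (∑ v ∈ X, cap (x, b) v) := by
        rw [mul_sum]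
        refine sum_le_sum fun x hx => le_of_eq ?_
        have k := (mem_filter.1 hx).2
        simp only [Fintype.univ_bool, mem_singleton, Bool.true_eq_false, not_false_eq_true, sum_insert,
          sum_singleton, s, cap, k, if_true, Bool.false_eq_true, if_false, sum_ite_non, sum_const_zero,
          min_self, add_zero]
        rw [mul_min_of_nonneg _ _ hθ.le]
        congr 1 <;> ring
      have c1 : θ * (((Nm.filter (kind · = 1)).filter fun y => (X \ nn y).Nonempty).card : ℝ)
          ≤ ∑ x ∈ Nm.filter (kind · = 1), ∑ b, min (s (x, b)) (∑ v ∈ X, cap (x, b) v) := by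
        rw [card_filter]
        push_cast
        rw [mul_sum]
        refine sum_le_sum fun x hx => ?_
        have k := (mem_filter.1 hx).2
        simp only [Fintype.univ_bool, mem_singleton, Bool.true_eq_false, not_false_eq_true, sum_insert,
          sum_singleton, s, cap, k, if_true, Bool.false_eq_true, if_false, sum_ite_non, sum_const_zero,
          min_self, zero_add, one_ne_zero, OfNat.one_ne_ofNat]
        split_ifs with h
        · rw [mul_one]
          refine le_min le_rfl (le_mul_of_one_le_left hθ.le ?_)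
          exact_mod_cast card_pos.2 h
        · rw [mul_zero]
          exact le_min hθ.le (mul_nonneg (Nat.cast_nonneg _) hθ.le)
      have c2 : θ * ((Nm.filter (kind · = 2)).card : ℝ)
          ≤ ∑ x ∈ Nm.filter (kind · = 2), ∑ b, min (s (x, b)) (∑ v ∈ X, cap (x, b) v) := by
        rw [mul_comm, ← nsmul_eq_mul, ← sum_const]
        refine sum_le_sum fun x hx => ?_
        have k := (mem_filter.1 hx).2
        simp only [Fintype.univ_bool, mem_singleton, Bool.true_eq_false, not_false_eq_true, sum_insert,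
          sum_singleton, s, cap, k, if_true, Bool.false_eq_true, if_false,
          min_self, zero_add, OfNat.ofNat_ne_zero, OfNat.ofNat_ne_one, Nat.reduceEqDiff, sum_const,
          nsmul_eq_mul, mul_zero]
        exact le_min le_rfl (le_mul_of_one_le_left hθ.le hXc)
      have c3 : θ * (0.4 * nru + min (M - 0.4 * nru) ((0.495 * M - 0.4 * nru) / 0.334 * (X.card / N0)))
          ≤ ∑ x ∈ Nm.filter (kind · = 3), ∑ b, min (s (x, b)) (∑ v ∈ X, cap (x, b) v) := by
        have e : θ * (0.4 * nru + min (M - 0.4 * nru) ((0.495 * M - 0.4 * nru) / 0.334 * (X.card / N0)))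
            = M * (min (θ * (1 - a)) (X.card * (θ * ρ / N0)) + θ * a) := by
          rw [mul_add, mul_add, mul_min_of_nonneg _ _ hθ.le, mul_min_of_nonneg _ _ hMp.le, add_comm]
          congr 1
          · congr 1
            · rw [ha]; field_simp
            · rw [hρ, ha]; field_simp
          · rw [ha]; field_simp
        rw [e, hMdef, ← nsmul_eq_mul, ← sum_const]
        refine sum_le_sum fun x hx => ?_
        have k := (mem_filter.1 hx).2
        simp only [Fintype.univ_bool, mem_singleton, Bool.true_eq_false, not_false_eq_true, sum_insert,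
          sum_singleton, s, cap, k, if_true, Bool.false_eq_true, if_false,
          OfNat.ofNat_ne_zero, sum_const, nsmul_eq_mul]
        refine add_le_add le_rfl (le_min le_rfl (le_mul_of_one_le_left (by positivity) hXc))
      linarith)
  refine ⟨fun v x => f (x, true) v + f (x, false) v, fun v x => add_nonneg (hf1 _ _).1 (hf1 _ _).1,
    ?_, ?_, ?_, ?_⟩
  · intro v hv
    rw [← hf3 v hv, sum_product]
    simp
  · intro x hx
    rw [sum_add_distrib, hf2 _ (by simp [hx]), hf2 _ (by simp [hx]), hs2]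
  · intro v x hx hpos hv
    have k1 := (hf1 (x, true) v).2
    have k2 := (hf1 (x, false) v).2
    have h : kind x = 0 ∨ kind x = 1 := by omega
    rcases h with h | h <;> simp [cap, h, hv] at k1 k2 <;> linarith
  · intro x hx Q hQ
    have hQ' : ((V0 ∩ Q).card : ℝ) ≤ 0.334 * N0 :=
      le_trans (by exact_mod_cast card_le_card inter_subset_right) hQ
    have hF : ∑ v ∈ V0 ∩ Q, f (x, false) v ≤ s (x, false) := by
      rw [← hf2 _ (by simp [hx])]
      exact sum_le_sum_of_subset_of_nonneg inter_subset_left fun _ _ _ => (hf1 _ _).1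
    refine ⟨fun k => ?_, fun k => ?_⟩
    · rw [sum_add_distrib]
      have hT : ∑ v ∈ V0 ∩ Q, f (x, true) v ≤ ∑ v ∈ V0 ∩ Q, θ / (0.666 * N0) := by
        refine sum_le_sum fun v _ => (hf1 _ _).2.trans ?_
        simp only [cap, k, if_true]
        split_ifs
        · positivity
        · exact le_rfl
      rw [sum_const, nsmul_eq_mul] at hT
      have h3 : ((V0 ∩ Q).card : ℝ) * (θ / (0.666 * N0)) ≤ θ * 0.5016 := by
        rw [mul_div_assoc', div_le_iff₀ (by positivity)]
        nlinarith [mul_le_mul_of_nonneg_right hQ' hθ.le, mul_pos hθ hN0p]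
      simp only [s, k, if_true, Bool.false_eq_true, if_false] at hF
      linarith
    · rw [sum_add_distrib]
      have hT : ∑ v ∈ V0 ∩ Q, f (x, true) v ≤ ∑ v ∈ V0 ∩ Q, θ * ρ / N0 := by
        refine sum_le_sum fun v _ => (hf1 _ _).2.trans (le_of_eq ?_)
        simp [cap, k]
      rw [sum_const, nsmul_eq_mul] at hT
      have h3 : ((V0 ∩ Q).card : ℝ) * (θ * ρ / N0) ≤ θ * (0.495 - a) := by
        refine (mul_le_mul_of_nonneg_right hQ' (by positivity)).trans (le_of_eq ?_)
        rw [hρ]; field_simp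
      simp only [s, k, if_true, Bool.false_eq_true, if_false, OfNat.ofNat_ne_zero] at hF
      linarith

/-- Rounding a fractional colouring. -/
theorem rounding {β Ω ι κ : Type} [Fintype Ω] [DecidableEq Ω] [Fintype ι] [Fintype κ] (V0 : Finset β) (o0 : Ω)
    (W : β → Ω → ℝ) (hW0 : ∀ v o, 0 ≤ W v o) (hW1 : ∀ v ∈ V0, ∑ o, W v o = 1)
    (Zn : ι → Finset Ω) (Q : κ → Finset β) (lam dev : ℝ) (hl0 : 0 < lam) (hl1 : lam ≤ 1)
    (hexp : (Fintype.card ι * (Fintype.card κ + 1) : ℝ) < Real.exp (lam * dev - lam ^ 2 * V0.card)) :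
    ∃ g : β → Ω, (∀ v ∈ V0, 0 < W v (g v)) ∧
      (∀ i, ∑ v ∈ V0, ∑ o ∈ Zn i, W v o - dev ≤ (V0.filter fun v => g v ∈ Zn i).card) ∧
      ∀ i k, (((V0.filter fun v => g v ∈ Zn i) ∩ Q k).card : ℝ)
        ≤ ∑ v ∈ V0 ∩ Q k, ∑ o ∈ Zn i, W v o + dev := by
  let val : ι × Option κ → β → Ω → ℝ := fun t v o =>
    match t.2 with
    | none => if o ∈ Zn t.1 then 0 else 1
    | some k => if v ∈ Q k ∧ o ∈ Zn t.1 then 1 else 0
  obtain ⟨g, hg1, hg2⟩ := seq_choice V0 (univ : Finset (ι × Option κ)) val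
    (fun t v => ∑ o, W v o * val t v o)
    (by
      rintro ⟨i, _ | k⟩ v o <;> simp only [val] <;> split_ifs <;> norm_num)
    (fun Y g => ∀ v ∈ Y, 0 < W v (g v)) (fun _ => o0) (by simp)
    (by
      intro Y g x hY hx hxY hI
      refine ⟨W x, hW0 x, hW1 x hx, fun o ho v hv => ?_, fun t _ => le_rfl⟩
      rcases mem_insert.1 hv with rfl | hv'
      · rw [Function.update_self]; exact ho
      · rw [Function.update_of_ne (by rintro rfl; exact hxY hv')]; exact hI v hv')
    lam dev hl0 hl1 (by simpa [Fintype.card_option] using hexp)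
  refine ⟨g, hg1, fun i => ?_, fun i k => ?_⟩
  · have h := hg2 (i, none) (mem_univ _)
    simp only [val] at h
    have e1 : ∑ v ∈ V0, (if g v ∈ Zn i then (0 : ℝ) else 1)
        = V0.card - (V0.filter fun v => g v ∈ Zn i).card := by
      rw [card_filter, card_eq_sum_ones V0]
      push_cast
      rw [← sum_sub_distrib]
      refine sum_congr rfl fun v _ => ?_
      split_ifs <;> norm_num
    have e2 : ∑ v ∈ V0, ∑ o, W v o * (if o ∈ Zn i then (0 : ℝ) else 1)
        = V0.card - ∑ v ∈ V0, ∑ o ∈ Zn i, W v o := by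
      rw [card_eq_sum_ones V0]
      push_cast
      rw [← sum_sub_distrib]
      refine sum_congr rfl fun v hv => ?_
      rw [← sum_ite_mem_eq (Zn i), eq_sub_iff_add_eq, ← sum_add_distrib]
      refine Eq.trans ?_ (hW1 v hv)
      refine sum_congr rfl fun o _ => ?_
      split_ifs <;> ring
    rw [e1, e2] at h
    linarith
  · have h := hg2 (i, some k) (mem_univ _)
    simp only [val] at h
    have e1 : ∑ v ∈ V0, (if v ∈ Q k ∧ g v ∈ Zn i then (1 : ℝ) else 0)
        = ((V0.filter fun v => g v ∈ Zn i) ∩ Q k).card := by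
      rw [← filter_mem_eq_inter, filter_filter, card_filter]
      push_cast
      refine sum_congr rfl fun v _ => ?_
      simp only [and_comm]
    have e2 : ∑ v ∈ V0, ∑ o, W v o * (if v ∈ Q k ∧ o ∈ Zn i then (1 : ℝ) else 0)
        = ∑ v ∈ V0 ∩ Q k, ∑ o ∈ Zn i, W v o := by
      rw [← filter_mem_eq_inter, sum_filter]
      refine sum_congr rfl fun v hv => ?_
      split_ifs with hq
      · rw [← sum_ite_mem_eq (Zn i)]
        refine sum_congr rfl fun o _ => ?_
        simp [hq]
      · simp [hq]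
    rw [e1, e2] at h
    exact h

end Pool.Agent.MP_6f6f6b_co

end MrgPart5

-- ======== part 6: formerly Pool.Agent.MP_6f6f6b_co.Parts1
section MrgPart6

set_option autoImplicit false
set_option linter.unusedVariables false
set_option linter.unusedSectionVars false

open Finset
open scoped Classical

namespace Pool.Agent.MP_6f6f6b_co

variable {α β Λ : Type} [Fintype α] [Fintype β] {T : RTree α}

/-- Placement of the separator of a labelled decomposition. -/
theorem stage1 (D : LD T Λ) (H : Host β) (u : β) (hu : ∀ b w, w ≠ u → H.R b u w)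
    (hcard : Fintype.card α = Fintype.card β) (a : ℝ) (ha0 : 0 ≤ a)
    (hS : 1000 * D.S.card ≤ Fintype.card β) (hZ : 0 < (D.Ro 2).card)
    (hbulk : 600 * (D.Ro 2).card ≤ (D.U.filter fun x => D.role x = 0 ∧ T.p x ∈ D.U).card)
    (hmed : ∀ s ∈ D.S, s ∉ D.Hv →
      ((D.U.filter fun x => T.p x = s).card : ℝ) ≤ a * Fintype.card β) :
    ∃ (t : α) (φ : α → β) (kind : α → ℕ) (nru : ℝ), t ∈ D.S ∧ Set.InjOn φ D.S ∧ φ t = u ∧
      (∀ s ∈ D.S, s ≠ T.r → T.p s ∈ D.S → H.R (T.dir s) (φ (T.p s)) (φ s)) ∧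
      (∀ x, kind x ≤ 3) ∧ (∀ x, T.p x ∈ D.Hv → T.p x ≠ t → kind x ≤ 1) ∧
      (∀ x, (∃ c ∈ D.U, T.p c = x) → kind x = 0 ∨ kind x = 3) ∧ (∀ x, T.p x ∉ D.Hv → kind x = 3) ∧
      0 ≤ nru ∧ 0 < ((D.Ro 0).filter (kind · = 3)).card ∧
      0.995 * (2 * nru) ≤ ((D.Ro 0).filter (kind · = 3)).card ∧
      (∀ V0 : Finset β, (Fintype.card β : ℝ) ≤ 1.002 * V0.card → ∀ X ⊆ V0, X.Nonempty →
        (X.card : ℝ) / V0.card * (D.Ro 0).card ≤ 0.4 * nru + ((D.Ro 0).filter (kind · = 2)).card
          + min ((((D.Ro 0).filter (kind · = 3)).card : ℝ) - 0.4 * nru)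
            ((0.495 * ((D.Ro 0).filter (kind · = 3)).card - 0.4 * nru) / 0.334 * (X.card / V0.card))
          + ∑ y ∈ (D.Ro 0).filter (kind · = 0),
            min 1 (((X \ H.non (T.dir y) (φ (T.p y))).card : ℝ) / (0.666 * V0.card))
          + (((D.Ro 0).filter (kind · = 1)).filter
              fun y => (X \ H.non (T.dir y) (φ (T.p y))).Nonempty).card) ∧
      ∀ x ∈ D.U, T.p x ∈ D.S → T.p x ∉ D.Hv → ∀ θ : ℝ, 0 ≤ θ →
        ((univ.filter fun v => 0.501 * ((D.C x).card : ℝ) + θ
          < ((D.C x).filter fun y => ¬ H.R (T.dir y) (φ (T.p y)) v).card).card : ℝ) * θ ^ 2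
        ≤ 0.0835 * Fintype.card β * (a * Fintype.card β * Fintype.card β) := by
  set Nm := D.Ro 0 with hNm
  let nl : α → Prop := fun x => ∃ c ∈ D.U, T.p c = x
  obtain ⟨t, ht, htmax⟩ := exists_max_image D.Hv (fun h => (Nm.filter fun x => T.p x = h ∧ nl x).card
    + 2 * (Nm.filter fun x => T.p x = h ∧ ¬ nl x).card) D.Hv_ne
  let kind : α → ℕ := fun x => if T.p x ∈ D.Hv.erase t then (if nl x then 0 else 1)
    else if T.p x = t ∧ ¬ nl x then 2 else 3
  have hk : ∀ x, kind x ≤ 3 := fun x => by simp only [kind]; split_ifs <;> omega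
  have k0 : ∀ x, kind x = 0 ↔ T.p x ∈ D.Hv.erase t ∧ nl x := fun x => by
    simp only [kind]; split_ifs <;> simp [*]
  have k1 : ∀ x, kind x = 1 ↔ T.p x ∈ D.Hv.erase t ∧ ¬ nl x := fun x => by
    simp only [kind]; split_ifs <;> simp [*]
  have k2 : ∀ x, kind x = 2 ↔ T.p x = t ∧ ¬ nl x := fun x => by
    simp only [kind]
    split_ifs with h1 h2 h3
    · simp [h2]
    · simp [(mem_erase.1 h1).1]
    · simp [h3]
    · simpa using h3
  have k3 : ∀ x, T.p x ∉ D.Hv.erase t → ¬ (T.p x = t ∧ ¬ nl x) → kind x = 3 := fun x h1 h2 => by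
    simp only [kind, h1, h2, if_false]
  set Ru := Nm.filter fun x => T.p x = t ∧ nl x with hRu
  set In0 := D.U.filter fun x => D.role x = 0 ∧ T.p x ∈ D.U with hIn0
  have hHU : ∀ x ∈ D.Hv, x ∉ D.U := fun x hx => D.dSU x (D.Hv_sub hx)
  have c1 : In0.card + Ru.card ≤ (Nm.filter (kind · = 3)).card := by
    rw [← card_union_of_disjoint]
    · refine card_le_card fun x hx => ?_
      rcases mem_union.1 hx with h | h
      · obtain ⟨h1, h2, h3⟩ := mem_filter.1 h
        exact mem_filter.2 ⟨D.mem_Ro.2 ⟨h1, h2⟩, k3 x (fun h => hHU _ (mem_of_mem_erase h) h3)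
          fun h => hHU _ ht (h.1 ▸ h3)⟩
      · obtain ⟨h1, h2, h3⟩ := mem_filter.1 h
        exact mem_filter.2 ⟨h1, k3 x (by simp [h2]) fun h => h.2 h3⟩
    · rw [disjoint_left]
      intro x h h'
      exact hHU _ ht ((mem_filter.1 h').2.1 ▸ (mem_filter.1 h).2.2)
  have c2 : (Nm.filter (kind · = 0)).card + Ru.card
      ≤ In0.card + ((D.Ro 1).card + (D.Ro 2).card + (D.Ro 3).card) := by
    rw [← card_union_of_disjoint]
    · refine le_trans (card_le_card_of_surjOn T.p
        (s := In0 ∪ (D.Ro 1 ∪ D.Ro 2 ∪ D.Ro 3)) ?_) ?_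
      · intro x hx
        have hx' : x ∈ D.U ∧ nl x := by
          rcases mem_union.1 (mem_coe.1 hx) with h | h
          · exact ⟨(D.mem_Ro.1 (mem_filter.1 h).1).1, ((k0 x).1 (mem_filter.1 h).2).2⟩
          · exact ⟨(D.mem_Ro.1 (mem_filter.1 h).1).1, (mem_filter.1 h).2.2⟩
        obtain ⟨h1, c, hc, rfl⟩ := hx'
        refine ⟨c, ?_, rfl⟩
        have := D.role_le c
        simp only [coe_union, Set.mem_union, mem_coe, hIn0, mem_filter, D.mem_Ro, hc, h1, true_and,
          and_true]
        omega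
      · refine (card_union_le _ _).trans (Nat.add_le_add_left ?_ _)
        exact (card_union_le _ _).trans (Nat.add_le_add_right (card_union_le _ _) _)
    · rw [disjoint_left]
      intro x h h'
      exact (mem_erase.1 ((k0 x).1 (mem_filter.1 h).2).1).1 (mem_filter.1 h').2.1
  have c3 := D.card_X_le
  have c4 := D.card_Y_le
  have hM : 0.995 * (((Nm.filter (kind · = 0)).card : ℝ) + 2 * Ru.card)
      ≤ (Nm.filter (kind · = 3)).card := by
    have e : 995 * ((Nm.filter (kind · = 0)).card + 2 * Ru.card)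
      ≤ 1000 * (Nm.filter (kind · = 3)).card := by omega
    have e' : (995 : ℝ) * ((Nm.filter (kind · = 0)).card + 2 * Ru.card)
      ≤ 1000 * (Nm.filter (kind · = 3)).card := by exact_mod_cast e
    linarith
  have hM0 : 0 < (Nm.filter (kind · = 3)).card := by omega
  have hsum := sum_kind Nm kind hk fun _ => 1
  simp only [sum_const, nsmul_eq_mul, mul_one] at hsum
  have hNm0 : (0 : ℝ) < Nm.card := by
    exact_mod_cast lt_of_lt_of_le hM0 (card_le_card (filter_subset _ _))
  set Tst := (D.U.filter fun x => T.p x ∈ D.S ∧ T.p x ∉ D.Hv).image D.lab with hTst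
  have hCm : ∀ i ∈ Tst, ∀ y ∈ D.U.filter (D.lab · = i), T.p y ∈ D.S ∧ T.p y ∉ D.Hv := by
    intro i hi y hy
    obtain ⟨x, hx, rfl⟩ := mem_image.1 hi
    obtain ⟨h1, h2, h3⟩ := mem_filter.1 hx
    obtain ⟨h4, h5⟩ := mem_filter.1 hy
    exact ⟨D.l_med x h1 y h4 h5.symm h2, fun h => h3 (D.l_hub y h4 x h1 h5 h ▸ h)⟩
  obtain ⟨φ, hinj, hφt, hedge, hcut, hbad⟩ := hub_place T H u hu D.S D.Hv D.Hv_sub t ht hS
    (Nm.filter (kind · = 0)) (Nm.filter (kind · = 1))
    (fun y hy => ((k0 y).1 (mem_filter.1 hy).2).1) (fun y hy => ((k1 y).1 (mem_filter.1 hy).2).1)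
    Ru.card (Nm.filter (kind · = 2)).card (Nm.filter (kind · = 3)).card Nm.card
    (Nat.cast_nonneg _) (Nat.cast_nonneg _) hNm0 hsum.symm hM
    (by
      intro h
      have e2 : Nm.filter (kind · = 2) = Nm.filter fun x => T.p x = t ∧ ¬ nl x :=
        filter_congr fun x _ => k2 x
      rw [e2]
      have e : ((Nm.filter (kind · = 0)).filter fun y => T.p y = h).card
          + 2 * ((Nm.filter (kind · = 1)).filter fun y => T.p y = h).card
          ≤ Ru.card + 2 * (Nm.filter fun x => T.p x = t ∧ ¬ nl x).card := by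
        by_cases hh : h ∈ D.Hv
        · refine le_trans (Nat.add_le_add (card_le_card ?_) (Nat.mul_le_mul_left 2 (card_le_card ?_)))
            (htmax h hh)
          · intro y hy
            obtain ⟨h1, h2⟩ := mem_filter.1 hy
            exact mem_filter.2 ⟨(mem_filter.1 h1).1, h2, ((k0 y).1 (mem_filter.1 h1).2).2⟩
          · intro y hy
            obtain ⟨h1, h2⟩ := mem_filter.1 hy
            exact mem_filter.2 ⟨(mem_filter.1 h1).1, h2, ((k1 y).1 (mem_filter.1 h1).2).2⟩
        · rw [filter_eq_empty_iff.2 fun y hy (h' : T.p y = h) =>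
            hh (h' ▸ mem_of_mem_erase ((k0 y).1 (mem_filter.1 hy).2).1),
            filter_eq_empty_iff.2 fun y hy (h' : T.p y = h) =>
            hh (h' ▸ mem_of_mem_erase ((k1 y).1 (mem_filter.1 hy).2).1)]
          simp
      exact_mod_cast e)
    Tst (fun i => D.U.filter (D.lab · = i)) hCm (a * Fintype.card β) (Fintype.card β)
    (mul_nonneg ha0 (Nat.cast_nonneg _))
    (by
      intro i hi s
      rcases ((D.U.filter (D.lab · = i)).filter fun y => T.p y = s).eq_empty_or_nonempty with h | ⟨y, hy⟩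
      · rw [h, card_empty, Nat.cast_zero]
        exact mul_nonneg ha0 (Nat.cast_nonneg _)
      · obtain ⟨h1, rfl⟩ := mem_filter.1 hy
        obtain ⟨h2, h3⟩ := hCm i hi y h1
        refine le_trans ?_ (hmed _ h2 h3)
        exact_mod_cast card_le_card (filter_subset_filter _ (filter_subset _ _)))
    (by
      have e1 : ∑ i ∈ Tst, (D.U.filter (D.lab · = i)).card ≤ Fintype.card β := by
        refine le_trans (sum_le_sum_of_subset (image_subset_image (filter_subset _ _))) ?_
        rw [← card_eq_sum_card_image, ← hcard]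
        exact card_le_univ _
      exact_mod_cast e1)
  refine ⟨t, φ, kind, Ru.card, D.Hv_sub ht, hinj, hφt, hedge, hk, ?_, ?_, ?_, Nat.cast_nonneg _, hM0,
    ?_, hcut, ?_⟩
  · intro x h1 h2
    simp only [kind, mem_erase.2 ⟨h2, h1⟩, if_true]
    split_ifs <;> omega
  · intro x hx
    by_cases h : T.p x ∈ D.Hv.erase t
    · exact Or.inl ((k0 x).2 ⟨h, hx⟩)
    · exact Or.inr (k3 x h fun h' => h'.2 hx)
  · intro x hx
    exact k3 x (fun h => hx (mem_of_mem_erase h)) fun h => hx (h.1 ▸ ht)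
  · have : (0 : ℝ) ≤ (Nm.filter (kind · = 0)).card := Nat.cast_nonneg _
    linarith
  · intro x hx h1 h2 θ hθ
    exact hbad (D.lab x) (mem_image_of_mem _ (mem_filter.2 ⟨hx, h1, h2⟩)) θ hθ

end Pool.Agent.MP_6f6f6b_co

end MrgPart6

-- marker of a merged file
example : 731051 + 899508 = 731051 + 899508 := rfl
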