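import Mathlib.Algebra.Order.Ring.Star
import Mathlib.Combinatorics.Pigeonhole
import Pool.Agent.MP_6f6f6b_co.Parts1
import Pool.Agent.MP_6f6f6b_co.Seq

-- ======== part 0: formerly Pool.Agent.MP_6f6f6b_co.CaseB
section MrgPart0

set_option autoImplicit false
set_option linter.unusedVariables false
set_option linter.unusedSectionVars false

open Finset
open scoped Classical

namespace Pool.Agent.MP_6f6f6b_co

variable {α β : Type} [Fintype α] [Fintype β]

/-- The root together with all vertices having a child. -/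
noncomputable def RTree.inner (T : RTree α) : Finset α :=
  univ.filter fun v => v = T.r ∨ ∃ c, c ≠ T.r ∧ T.p c = v

/-- Trees with very few inner vertices. -/
theorem caseB (T : RTree α) (H : Host β) (u : β) (hu : ∀ b w, w ≠ u → H.R b u w)
    (hcard : Fintype.card α = Fintype.card β) (hS : 1000 * T.inner.card ≤ Fintype.card β) :
    ∃ φ, Emb T H φ := by
  set S := T.inner with hSdef
  have hr : T.r ∈ S := by simp [hSdef, RTree.inner]
  have hp : ∀ c, T.p c ∈ S := by
    intro c
    by_cases h : c = T.r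
    · rw [h, T.p_r]; exact hr
    · simp only [hSdef, RTree.inner, mem_filter, mem_univ, true_and]
      exact Or.inr ⟨c, h, rfl⟩
  set Lv : Finset α := univ \ S with hLv
  obtain ⟨t, ht, htmax⟩ := exists_max_image S (fun h => (Lv.filter fun y => T.p y = h).card) ⟨_, hr⟩
  have hn0 := Host.card_pos u
  have hLvc : Lv.card + S.card = Fintype.card β := by
    rw [hLv, card_sdiff_add_card_eq_card (subset_univ _), card_univ, hcard]
  have hsplit := card_filter_add_card_filter_not (s := Lv) fun y => T.p y = t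
  obtain ⟨φ, hinj, hφt, hedge, hcut, -⟩ := hub_place T H u hu S S Subset.rfl t ht hS ∅
    (Lv.filter fun y => ¬ T.p y = t) (by simp)
    (fun y hy => mem_erase.2 ⟨(mem_filter.1 hy).2, hp y⟩)
    0 (Lv.filter fun y => T.p y = t).card 0 Lv.card le_rfl (Nat.cast_nonneg _)
    (by exact_mod_cast (by omega : 0 < Lv.card))
    (by rw [← hsplit]; push_cast; simp; ring) (by simp)
    (by
      intro h
      simp only [filter_empty, card_empty, Nat.cast_zero, zero_add]
      refine mul_le_mul_of_nonneg_left ?_ zero_le_two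
      rw [Nat.cast_le]
      by_cases hh : h ∈ S
      · exact le_trans (card_le_card (filter_subset_filter _ (filter_subset _ _))) (htmax h hh)
      · rw [filter_eq_empty_iff.2 fun y _ (h' : T.p y = h) => hh (h' ▸ hp y)]
        simp)
    (∅ : Finset Unit) (fun _ => ∅) (by simp) 0 0 le_rfl (by simp) (by simp)
  set V0 : Finset β := univ \ S.image φ with hV0
  have hV0c : V0.card = Lv.card := by
    rw [hV0, card_sdiff_of_subset (subset_univ _), card_image_of_injOn hinj, card_univ]
    omega
  obtain ⟨f, hf1, hf2⟩ := hall T.r V0 (fun v => Lv.filter fun y => H.R (T.dir y) (φ (T.p y)) v) (by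
    intro X hX
    rcases X.eq_empty_or_nonempty with rfl | hXne
    · simp
    have h1 := hcut V0 (by
      have e1 : (Lv.card : ℝ) + S.card = Fintype.card β := by exact_mod_cast hLvc
      have e2 : (1000 : ℝ) * S.card ≤ Fintype.card β := by exact_mod_cast hS
      rw [hV0c]
      linarith) X hX hXne
    have e0 : (0 : ℝ) < Lv.card := by exact_mod_cast (by omega : 0 < Lv.card)
    rw [hV0c, div_mul_cancel₀ _ e0.ne'] at h1
    simp only [mul_zero, sub_self, zero_div, zero_mul, min_self, add_zero, zero_add, sum_empty] at h1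
    have h2 : X.card ≤ (Lv.filter fun y => T.p y = t).card + ((Lv.filter fun y => ¬ T.p y = t).filter
        fun y => (X \ H.non (T.dir y) (φ (T.p y))).Nonempty).card := by exact_mod_cast h1
    refine h2.trans ?_
    rw [← card_union_of_disjoint]
    · refine card_le_card ?_
      intro y hy
      rw [mem_biUnion]
      rcases mem_union.1 hy with h | h
      · obtain ⟨v, hv⟩ := hXne
        obtain ⟨k1, k2⟩ := mem_filter.1 h
        refine ⟨v, hv, mem_filter.2 ⟨k1, ?_⟩⟩
        rw [k2, hφt]
        apply hu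
        rintro rfl
        exact (mem_sdiff.1 (hX hv)).2 (mem_image.2 ⟨t, ht, hφt⟩)
      · obtain ⟨k1, v, hv⟩ := mem_filter.1 h
        obtain ⟨k2, k3⟩ := mem_sdiff.1 hv
        rw [H.mem_non, not_not] at k3
        exact ⟨v, k2, mem_filter.2 ⟨(mem_filter.1 k1).1, k3⟩⟩
    · rw [disjoint_left]
      intro y h1 h2
      exact (mem_filter.1 (mem_filter.1 h2).1).2 (mem_filter.1 h1).2)
  have hsurj : ∀ y ∈ Lv, ∃ v ∈ V0, f v = y := by
    have : V0.image f = Lv := by
      apply eq_of_subset_of_card_le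
      · intro y hy
        obtain ⟨v, hv, rfl⟩ := mem_image.1 hy
        exact (mem_filter.1 (hf2 v hv)).1
      · rw [card_image_of_injOn hf1, hV0c]
    intro y hy
    rw [← this] at hy
    exact mem_image.1 hy
  have : Nonempty β := ⟨u⟩
  choose! g hg1 hg2 using hsurj
  have hmem : ∀ y, y ∉ S → y ∈ Lv := fun y hy => by simp [hLv, hy]
  refine ⟨fun y => if y ∈ S then φ y else g y, ?_, ?_⟩
  · have hout : ∀ s ∈ S, ∀ y, y ∉ S → φ s ≠ g y := by
      intro s hs y hy h
      exact (mem_sdiff.1 (hg1 y (hmem y hy))).2 (mem_image.2 ⟨s, hs, h⟩)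
    intro x y he
    by_cases hx : x ∈ S <;> by_cases hy : y ∈ S <;> simp only [hx, hy, if_true, if_false] at he
    · exact hinj hx hy he
    · exact absurd he (hout x hx y hy)
    · exact absurd he.symm (hout y hy x hx)
    · rw [← hg2 x (hmem x hx), ← hg2 y (hmem y hy), he]
  · intro v hv
    by_cases h : v ∈ S
    · simp only [h, hp v, if_true]
      exact hedge v h hv (hp v)
    · simp only [h, hp v, if_true, if_false]
      have := (mem_filter.1 (hf2 _ (hg1 v (hmem v h)))).2
      rwa [hg2 v (hmem v h)] at this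

end Pool.Agent.MP_6f6f6b_co

end MrgPart0

-- ======== part 1: formerly Pool.Agent.MP_6f6f6b_co.Flags
section MrgPart1

set_option autoImplicit false
set_option linter.unusedVariables false
set_option linter.unusedSectionVars false

open Finset
open scoped Classical

namespace Pool.Agent.MP_6f6f6b_co

variable {α : Type}

/-- A choice of the vertices reserved for the last matching. -/
structure Roles (T : RTree α) (U : Finset α) where
  role : α → ℕ
  mode : Bool
  b1 : Bool
  b2 : Bool
  role_le : ∀ x, role x ≤ 3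
  z_par : ∀ z ∈ U, role z = 2 → T.p z ∈ U ∧ role (T.p z) = (if mode then 1 else 0) ∧
    (mode = true → T.dir z = b1)
  z_ch : ∀ c, T.p c ∈ U → role (T.p c) = 2 → c ∈ U ∧ role c = 3
  y_par : ∀ y ∈ U, role y = 3 → mode = true ∧ T.p y ∈ U ∧ role (T.p y) = 2 ∧ T.dir y = b2
  x_par : ∀ x ∈ U, role x = 1 → T.p x ∈ U
  x_ch : ∀ c ∈ U, T.p c ∈ U → role (T.p c) = 1 → role c = 2
  x_has : ∀ x ∈ U, role x = 1 → ∃ c ∈ U, T.p c = x
  z_has : mode = true → ∀ z ∈ U, role z = 2 → ∃ c ∈ U, T.p c = z
  z_inj : mode = true → ∀ z ∈ U, ∀ z' ∈ U, role z = 2 → role z' = 2 → T.p z = T.p z' → z = z'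
  y_inj : ∀ y ∈ U, ∀ y' ∈ U, role y = 3 → role y' = 3 → T.p y = T.p y' → y = y'

theorem roles_leaf (T : RTree α) (U Z : Finset α) (hr : T.r ∉ U)
    (hZ : ∀ z ∈ Z, z ∈ U ∧ T.p z ∈ U ∧ ∀ c, c ≠ T.r → T.p c ≠ z) :
    ∃ R : Roles T U, (U.filter fun x => R.role x = 2) = Z := by
  have h2 : ∀ x, (if x ∈ Z then 2 else 0 : ℕ) = 2 ↔ x ∈ Z := fun x => by split_ifs <;> simp [*]
  have h1 : ∀ x, (if x ∈ Z then 2 else 0 : ℕ) ≠ 1 := fun x => by split_ifs <;> simp
  have h3 : ∀ x, (if x ∈ Z then 2 else 0 : ℕ) ≠ 3 := fun x => by split_ifs <;> simp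
  refine ⟨⟨fun x => if x ∈ Z then 2 else 0, false, true, true, ?_, ?_, ?_, ?_, ?_, ?_, ?_, ?_, ?_, ?_⟩, ?_⟩
  · intro x; split_ifs <;> omega
  · intro z hz h
    rw [h2] at h
    refine ⟨(hZ z h).2.1, ?_, by simp⟩
    have : T.p z ∉ Z := fun h' => (hZ _ h').2.2 z (by rintro rfl; exact hr hz) rfl
    simp [this]
  · intro c hc h
    rw [h2] at h
    exact absurd rfl ((hZ _ h).2.2 c (by rintro rfl; exact hr (T.p_r ▸ hc)))
  · intro y _ h; exact absurd h (h3 y)
  · intro y _ h; exact absurd h (h1 y)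
  · intro y _ _ h; exact absurd h (h1 _)
  · intro y _ h; exact absurd h (h1 y)
  · simp
  · simp
  · intro y _ _ _ h; exact absurd h (h3 y)
  · ext x
    simp only [mem_filter, h2]
    exact ⟨fun h => h.2, fun h => ⟨(hZ x h).1, h⟩⟩

theorem roles_path (T : RTree α) (U X : Finset α) (hr : T.r ∉ U) (ch : α → α) (j : ℕ) (b1 b2 : Bool)
    (hX : ∀ x ∈ X, x ∈ U ∧ T.p x ∈ U ∧ T.dep x % 3 = j ∧ T.dir (ch x) = b1 ∧ T.dir (ch (ch x)) = b2 ∧
      (ch x ∈ U ∧ T.p (ch x) = x ∧ ∀ c, T.p c = x → c = ch x) ∧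
      (ch (ch x) ∈ U ∧ T.p (ch (ch x)) = ch x ∧ ∀ c, T.p c = ch x → c = ch (ch x))) :
    ∃ R : Roles T U, (U.filter fun x => R.role x = 2).card = X.card := by
  let role : α → ℕ := fun v => if v ∈ X then 1 else if T.p v ∈ X then 2 else
    if T.p (T.p v) ∈ X then 3 else 0
  have d1 : ∀ v, T.p v ∈ X → T.dep v = T.dep (T.p v) + 1 := fun v h =>
    T.dep_p v (by rintro rfl; exact hr (T.p_r ▸ (hX _ h).1))
  have d2 : ∀ v, T.p (T.p v) ∈ X → T.dep v = T.dep (T.p (T.p v)) + 2 := fun v h => by
    have e1 := d1 _ h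
    have e2 := T.dep_p v (by
      rintro rfl
      rw [T.p_r, T.p_r] at h
      exact hr (hX _ h).1)
    omega
  have n1 : ∀ v, T.p v ∈ X → v ∉ X := fun v h h' => by
    have e1 := d1 v h
    have e2 := (hX _ h).2.2.1
    have e3 := (hX _ h').2.2.1
    omega
  have n2 : ∀ v, T.p (T.p v) ∈ X → v ∉ X := fun v h h' => by
    have e1 := d2 v h
    have e2 := (hX _ h).2.2.1
    have e3 := (hX _ h').2.2.1
    omega
  have r1 : ∀ v, role v = 1 ↔ v ∈ X := fun v => by
    simp only [role]; split_ifs <;> simp [*]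
  have r2 : ∀ v, role v = 2 ↔ T.p v ∈ X := fun v => by
    simp only [role]
    split_ifs with h1 h2 h3
    · simpa using fun h => n1 v h h1
    · simp [h2]
    · simp [h2]
    · simp [h2]
  have r3 : ∀ v, role v = 3 ↔ T.p (T.p v) ∈ X := fun v => by
    simp only [role]
    split_ifs with h1 h2 h3
    · simpa using fun h => n2 v h h1
    · simpa using fun h => n1 _ h h2
    · simp [h3]
    · simp [h3]
  have c1 : ∀ v, T.p v ∈ X → v = ch (T.p v) := fun v h => (hX _ h).2.2.2.2.2.1.2.2 v rfl
  have c2 : ∀ v, T.p (T.p v) ∈ X → v = ch (ch (T.p (T.p v))) := fun v h =>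
    (hX _ h).2.2.2.2.2.2.2.2 v (c1 _ h)
  refine ⟨⟨role, true, b1, b2, ?_, ?_, ?_, ?_, ?_, ?_, ?_, ?_, ?_, ?_⟩, ?_⟩
  · intro x; simp only [role]; split_ifs <;> omega
  · intro z hz h
    rw [r2] at h
    refine ⟨(hX _ h).1, (r1 _).2 h, fun _ => ?_⟩
    rw [c1 z h]; exact (hX _ h).2.2.2.1
  · intro c hc h
    rw [r2] at h
    refine ⟨?_, (r3 c).2 h⟩
    rw [c2 c h]; exact (hX _ h).2.2.2.2.2.2.1
  · intro y hy h
    rw [r3] at h
    refine ⟨rfl, ?_, (r2 _).2 h, ?_⟩
    · rw [c1 _ h]; exact (hX _ h).2.2.2.2.2.1.1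
    · rw [c2 y h]; exact (hX _ h).2.2.2.2.1
  · intro x _ h; exact (hX x ((r1 x).1 h)).2.1
  · intro c _ _ h; exact (r2 c).2 ((r1 _).1 h)
  · intro x _ h
    have := (hX x ((r1 x).1 h)).2.2.2.2.2.1
    exact ⟨_, this.1, this.2.1⟩
  · intro _ z _ h
    have h' := (r2 z).1 h
    have := (hX _ h').2.2.2.2.2.2
    exact ⟨_, this.1, this.2.1.trans (c1 z h').symm⟩
  · intro _ z _ z' _ h h' e
    rw [c1 z ((r2 z).1 h), c1 z' ((r2 z').1 h'), e]
  · intro y _ y' _ h h' e
    rw [c2 y ((r3 y).1 h), c2 y' ((r3 y').1 h'), e]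
  · refine card_bij (fun z _ => T.p z) ?_ ?_ ?_
    · intro z hz; exact (r2 z).1 (mem_filter.1 hz).2
    · intro z hz z' hz' e
      rw [c1 z ((r2 z).1 (mem_filter.1 hz).2), c1 z' ((r2 z').1 (mem_filter.1 hz').2), e]
    · intro x hx
      have := (hX x hx).2.2.2.2.2.1
      exact ⟨ch x, mem_filter.2 ⟨this.1, (r2 _).2 (this.2.1.symm ▸ hx)⟩, this.2.1⟩

theorem exists_roles [Fintype α] (T : RTree α) {K' : ℕ} (D : Dec T K') (k l0 : ℕ) (hk : 12 * k ≤ l0)
    (hI : D.S.card + 8 * D.G.card + 5 * l0 ≤ T.inner.card) :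
    ∃ R : Roles T D.U, (D.U.filter fun x => R.role x = 2).card = k ∧
      l0 ≤ (D.U.filter fun x => T.p x ∈ D.U).card := by
  have hr : T.r ∉ D.U := D.dSU _ D.r_mem
  set Lf := D.U.filter fun x => T.p x ∈ D.U ∧ ∀ c, c ≠ T.r → T.p c ≠ x with hLf
  by_cases hl : l0 ≤ Lf.card
  · obtain ⟨Z, hZ1, hZ2⟩ := exists_subset_card_eq (s := Lf) (n := k) (by omega)
    obtain ⟨R, hR⟩ := roles_leaf T D.U Z hr fun z hz => mem_filter.1 (hZ1 hz)
    refine ⟨R, by rw [hR, hZ2], hl.trans (card_le_card fun x hx => ?_)⟩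
    exact mem_filter.2 ⟨(mem_filter.1 hx).1, (mem_filter.1 hx).2.1⟩
  have : Nonempty α := ⟨T.r⟩
  set Dd := D.U.filter fun v => ∃ c ∈ D.U, T.p c = v ∧ ∀ c', T.p c' = v → c' = c with hDd
  have hch : ∀ v ∈ Dd, ∃ c, c ∈ D.U ∧ T.p c = v ∧ ∀ c', T.p c' = v → c' = c :=
    fun v hv => (mem_filter.1 hv).2
  choose! ch hch using hch
  set Cand := Dd.filter fun x => T.p x ∈ D.U ∧ ch x ∈ Dd with hCand
  set U2 := D.U.filter fun x => T.p x ∈ D.U ∨ ∃ c ∈ D.U, T.p c = x with hU2
  have hfc := T.forest_count U2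
  set Br := U2.filter fun v => 2 ≤ (T.ch U2 v).card with hBr
  set Tp := U2.filter fun v => ¬ (v ≠ T.r ∧ T.p v ∈ U2) with hTp
  set L0 := U2.filter fun v => (T.ch U2 v).card = 0 with hL0
  have hGp : (D.G.image T.p).card ≤ D.G.card := card_image_le
  have child : ∀ v ∈ D.U, v ∉ D.G.image T.p → ∀ c, T.p c = v → c ∈ T.ch U2 v := by
    intro v hv hG c hc
    have hcU : c ∈ D.U := by
      rcases D.cover c with h | h | h
      · exact absurd (hc ▸ hv) (D.S_par c h)
      · exact absurd (mem_image.2 ⟨c, h, hc⟩) hG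
      · exact h
    exact T.mem_ch.2 ⟨mem_filter.2 ⟨hcU, Or.inl (hc ▸ hv)⟩, by rintro rfl; exact hr hcU, hc⟩
  have e1 : L0 ⊆ Lf ∪ D.G.image T.p := by
    intro v hv
    obtain ⟨h1, h2⟩ := mem_filter.1 hv
    obtain ⟨h3, h4⟩ := mem_filter.1 h1
    rw [card_eq_zero] at h2
    by_cases hG : v ∈ D.G.image T.p
    · exact mem_union_right _ hG
    have hno : ∀ c, T.p c ≠ v := fun c hc => by
      have := child v h3 hG c hc
      rw [h2] at this
      simp at this
    refine mem_union_left _ (mem_filter.2 ⟨h3, h4.resolve_right ?_, fun c _ => hno c⟩)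
    rintro ⟨c, -, hc⟩
    exact hno c hc
  have e2 : U2 \ Dd ⊆ L0 ∪ Br ∪ D.G.image T.p := by
    intro v hv
    obtain ⟨h1, h2⟩ := mem_sdiff.1 hv
    by_contra hcon
    simp only [mem_union, hL0, hBr, mem_filter, not_or, not_and, not_le] at hcon
    have h3 := hcon.1.1 h1
    have h4 := hcon.1.2 h1
    obtain ⟨c, hc⟩ := card_eq_one.1 (show (T.ch U2 v).card = 1 by omega)
    have h5 : c ∈ T.ch U2 v := by rw [hc]; exact mem_singleton_self c
    obtain ⟨h6, -, h7⟩ := T.mem_ch.1 h5
    refine h2 (mem_filter.2 ⟨(mem_filter.1 h1).1, c, (mem_filter.1 h6).1, h7, fun c' hc' => ?_⟩)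
    have := child v (mem_filter.1 h1).1 hcon.2 c' hc'
    rw [hc] at this
    exact mem_singleton.1 this
  have e3 : T.inner ⊆ D.S ∪ D.G ∪ D.G.image T.p ∪ U2 := by
    intro v hv
    simp only [RTree.inner, mem_filter, mem_univ, true_and] at hv
    simp only [mem_union]
    rcases D.cover v with h | h | h
    · tauto
    · tauto
    · by_cases hG : v ∈ D.G.image T.p
      · tauto
      · rcases hv with rfl | ⟨c, -, hc⟩
        · exact absurd h hr
        · exact Or.inr (mem_filter.2 ⟨h, Or.inr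
            ⟨c, (mem_filter.1 (T.mem_ch.1 (child v h hG c hc)).1).1, hc⟩⟩)
  have e4 : Dd ⊆ Cand ∪ Tp ∪ (U2 \ Dd).image T.p := by
    intro v hv
    have hvU := (mem_filter.1 hv).1
    obtain ⟨h1, h2, h3⟩ := hch v hv
    simp only [mem_union]
    by_cases hp : T.p v ∈ D.U
    · by_cases hc : ch v ∈ Dd
      · exact Or.inl (Or.inl (mem_filter.2 ⟨hv, hp, hc⟩))
      · exact Or.inr (mem_image.2 ⟨ch v, mem_sdiff.2 ⟨mem_filter.2 ⟨h1, Or.inl (h2.symm ▸ hvU)⟩, hc⟩, h2⟩)
    · exact Or.inl (Or.inr (mem_filter.2 ⟨mem_filter.2 ⟨hvU, Or.inr ⟨_, h1, h2⟩⟩,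
        fun h => hp (mem_filter.1 h.2).1⟩))
  have f1 := (card_le_card e1).trans (card_union_le _ _)
  have f2 := (card_le_card e2).trans ((card_union_le _ _).trans (Nat.add_le_add_right (card_union_le _ _) _))
  have f3 := (card_le_card e3).trans ((card_union_le _ _).trans (Nat.add_le_add_right
    ((card_union_le _ _).trans (Nat.add_le_add_right (card_union_le _ _) _)) _))
  have f4 := (card_le_card e4).trans ((card_union_le _ _).trans (Nat.add_le_add (card_union_le _ _)
    card_image_le))
  have f5 := le_card_sdiff Dd U2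
  have hC : l0 ≤ Cand.card := by omega
  obtain ⟨⟨j, b1, b2⟩, -, hfib⟩ := exists_le_card_fiber_of_mul_le_card_of_maps_to (s := Cand)
    (t := range 3 ×ˢ (univ : Finset (Bool × Bool)))
    (f := fun x => (T.dep x % 3, T.dir (ch x), T.dir (ch (ch x)))) (n := k)
    (fun x _ => mem_product.2 ⟨mem_range.2 (Nat.mod_lt _ (by norm_num)), mem_univ _⟩)
    (by simp) (by simp; omega)
  obtain ⟨X, hX1, hX2⟩ := exists_subset_card_eq hfib
  obtain ⟨R, hR⟩ := roles_path T D.U X hr ch j b1 b2 fun x hx => by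
    obtain ⟨h1, h2⟩ := mem_filter.1 (hX1 hx)
    obtain ⟨h3, h4, h5⟩ := mem_filter.1 h1
    simp only [Prod.mk.injEq] at h2
    exact ⟨(mem_filter.1 h3).1, h4, h2.1, h2.2.1, h2.2.2, hch x h3, hch _ h5⟩
  refine ⟨R, by rw [hR, hX2], hC.trans (card_le_card fun x hx => ?_)⟩
  obtain ⟨h3, h4, h5⟩ := mem_filter.1 hx
  exact mem_filter.2 ⟨(mem_filter.1 h3).1, h4⟩

end Pool.Agent.MP_6f6f6b_co

end MrgPart1

-- ======== part 2: formerly Pool.Agent.MP_6f6f6b_co.Pairs
section MrgPart2

set_option autoImplicit false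
set_option linter.unusedVariables false

open Finset
open scoped Classical

namespace Pool.Agent.MP_6f6f6b_co

variable {α β Λ : Type} [Fintype β]

/-- The pair `(a, b)` has no common neighbour among the entries of `W`. -/
def Host.miss (H : Host β) (b1 b2 : Bool) {r : ℕ} (W : Fin r → β) (a b : β) : Prop :=
  ∀ i, ¬ (H.R b1 a (W i) ∧ H.R b2 b (W i))

/-- The number of pairs missing `W`. -/
noncomputable def Host.cnt (H : Host β) (b1 b2 : Bool) {r : ℕ} (W : Fin r → β) : ℕ :=
  (univ.filter fun o : β × β => H.miss b1 b2 W o.1 o.2).card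

theorem avg_ind {Ω : Type} [Fintype Ω] [DecidableEq Ω] (Al : Finset Ω) (Q : Ω → Prop)
    [DecidablePred Q] :
    ∑ o, (if o ∈ Al then (1 : ℝ) / Al.card else 0) * (if Q o then 1 else 0)
      ≤ (univ.filter Q).card / Al.card := by
  rw [card_filter]
  push_cast
  rw [sum_div]
  refine sum_le_sum fun o _ => ?_
  split_ifs <;> simp

theorem pairs (H : Host β) (X : Finset α) (lab : α → Λ) (F : Finset β) (b1 b2 : Bool) (r : ℕ)
    (lam dev : ℝ) (u : β) (hF : 500 * (F.card + 2 * X.card) ≤ Fintype.card β)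
    (hl0 : 0 < lam) (hl1 : lam ≤ 1)
    (hexp : (4 * X.card * Fintype.card β + (Fintype.card β : ℝ) ^ r : ℝ)
      < Real.exp (lam * dev - lam ^ 2 * X.card)) :
    ∃ a b : α → β, Set.InjOn a X ∧ Set.InjOn b X ∧ (∀ x ∈ X, ∀ x' ∈ X, a x ≠ b x') ∧
      (∀ x ∈ X, a x ∉ F ∧ b x ∉ F) ∧
      (∀ x0 ∈ X, ∀ w s,
        ((X.filter fun x => lab x = lab x0 ∧ a x ∈ H.non s w).card : ℝ)
          ≤ 0.335 * (X.filter fun x => lab x = lab x0).card + dev ∧
        ((X.filter fun x => lab x = lab x0 ∧ b x ∈ H.non s w).card : ℝ)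
          ≤ 0.335 * (X.filter fun x => lab x = lab x0).card + dev) ∧
      ∀ W : Fin r → β, ((X.filter fun x => H.miss b1 b2 W (a x) (b x)).card : ℝ)
          ≤ ((H.cnt b1 b2 W : ℝ) / (Fintype.card β : ℝ) ^ 2 + 0.005) * X.card + dev := by
  set n : ℝ := (Fintype.card β : ℝ) with hn
  have hnpos : 0 < n := by rw [hn]; exact_mod_cast Host.card_pos u
  let Q : (α × β × Bool × Bool) ⊕ (Fin r → β) → α → β × β → Prop := fun t x o =>
    match t with
    | Sum.inl (x0, w, s, side) => lab x = lab x0 ∧ (if side then o.1 else o.2) ∈ H.non s w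
    | Sum.inr W => H.miss b1 b2 W o.1 o.2
  let μ : (α × β × Bool × Bool) ⊕ (Fin r → β) → α → ℝ := fun t x =>
    match t with
    | Sum.inl (x0, w, s, side) => if lab x = lab x0 then 0.335 else 0
    | Sum.inr W => (H.cnt b1 b2 W : ℝ) / n ^ 2 + 0.005
  let Inv : Finset α → (α → β × β) → Prop := fun Y g =>
    Set.InjOn (fun x => (g x).1) Y ∧ Set.InjOn (fun x => (g x).2) Y ∧
      (∀ x ∈ Y, ∀ x' ∈ Y, (g x).1 ≠ (g x').2) ∧ ∀ x ∈ Y, (g x).1 ∉ F ∧ (g x).2 ∉ F
  obtain ⟨g, ⟨hg1, hg2, hg3, hg4⟩, hg⟩ := seq_choice X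
    ((X ×ˢ (univ : Finset (β × Bool × Bool))).disjSum (univ : Finset (Fin r → β)))
    (fun t x o => if Q t x o then 1 else 0) μ
    (fun t x o => by split_ifs <;> norm_num) Inv (fun _ => (u, u))
    ⟨by simp, by simp, by simp, by simp⟩ (lam := lam) (dev := dev) (hl0 := hl0) (hl1 := hl1)
    (hexp := by
      refine lt_of_le_of_lt (le_of_eq ?_) hexp
      simp only [card_disjSum, card_product, card_univ, Fintype.card_prod, Fintype.card_bool,
        Fintype.card_fun, Fintype.card_fin]
      push_cast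
      ring)
    (step := by
      intro Y g x hY hx hxY ⟨i1, i2, i3, i4⟩
      set U : Finset β := univ \ (F ∪ Y.image (fun x => (g x).1) ∪ Y.image (fun x => (g x).2)) with hU
      have hYc : Y.card + 1 ≤ X.card := by
        rw [← card_insert_of_notMem hxY]
        exact card_le_card (insert_subset hx hY)
      have hUc : Fintype.card β ≤ U.card + F.card + 2 * Y.card := by
        have h1 := le_card_sdiff (F ∪ Y.image (fun x => (g x).1) ∪ Y.image (fun x => (g x).2))
          (univ : Finset β)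
        have h2 := card_union_le (F ∪ Y.image (fun x => (g x).1)) (Y.image (fun x => (g x).2))
        have h3 := card_union_le F (Y.image (fun x => (g x).1))
        have h4 : (Y.image (fun x => (g x).1)).card ≤ Y.card := card_image_le
        have h5 : (Y.image (fun x => (g x).2)).card ≤ Y.card := card_image_le
        rw [card_univ] at h1
        rw [hU]
        omega
      have hUr : 0.998 * n + 2 ≤ U.card := by
        have h1 : n ≤ U.card + F.card + 2 * Y.card := by rw [hn]; exact_mod_cast hUc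
        have h2 : (Y.card : ℝ) + 1 ≤ X.card := by exact_mod_cast hYc
        have h3 : (500 : ℝ) * (F.card + 2 * X.card) ≤ n := by rw [hn]; exact_mod_cast hF
        linarith
      have hAl : (0.998 * n) ^ 2 ≤ U.offDiag.card := by
        rw [offDiag_card, Nat.cast_sub (Nat.le_mul_self _)]
        push_cast
        nlinarith
      have hAl0 : (0 : ℝ) < U.offDiag.card := lt_of_lt_of_le (by positivity) hAl
      refine ⟨fun o => if o ∈ U.offDiag then 1 / U.offDiag.card else 0, ?_, ?_, ?_, ?_⟩
      · intro o; dsimp only; split_ifs <;> positivity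
      · rw [← sum_filter]
        simp only [filter_mem_eq_inter, univ_inter, sum_const, nsmul_eq_mul]
        field_simp
      · intro o ho
        have ho' : o ∈ U.offDiag := by
          by_contra h
          simp [h] at ho
        obtain ⟨o1, o2, o3⟩ := mem_offDiag.1 ho'
        simp only [hU, mem_sdiff, mem_univ, true_and, mem_union, mem_image, not_or, not_exists,
          not_and] at o1 o2
        have hupd : ∀ z ∈ Y, Function.update g x o z = g z := fun z hz =>
          Function.update_of_ne (by rintro rfl; exact hxY hz) _ _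
        refine ⟨?_, ?_, ?_, ?_⟩
        · intro z hz z' hz' h
          simp only [coe_insert, Set.mem_insert_iff, mem_coe] at hz hz'
          rcases hz with rfl | hz <;> rcases hz' with rfl | hz'
          · rfl
          · simp only [Function.update_self, hupd _ hz'] at h
            exact absurd h.symm (o1.1.2 _ hz')
          · simp only [Function.update_self, hupd _ hz] at h
            exact absurd h (o1.1.2 _ hz)
          · simp only [hupd _ hz, hupd _ hz'] at h
            exact i1 hz hz' h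
        · intro z hz z' hz' h
          simp only [coe_insert, Set.mem_insert_iff, mem_coe] at hz hz'
          rcases hz with rfl | hz <;> rcases hz' with rfl | hz'
          · rfl
          · simp only [Function.update_self, hupd _ hz'] at h
            exact absurd h.symm (o2.2 _ hz')
          · simp only [Function.update_self, hupd _ hz] at h
            exact absurd h (o2.2 _ hz)
          · simp only [hupd _ hz, hupd _ hz'] at h
            exact i2 hz hz' h
        · intro z hz z' hz'
          rw [mem_insert] at hz hz'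
          rcases hz with rfl | hz <;> rcases hz' with rfl | hz'
          · simpa using o3
          · simp only [Function.update_self, hupd _ hz']
            exact fun h => o1.2 _ hz' h.symm
          · simp only [Function.update_self, hupd _ hz]
            exact o2.1.2 _ hz
          · simp only [hupd _ hz, hupd _ hz']
            exact i3 _ hz _ hz'
        · intro z hz
          rcases mem_insert.1 hz with rfl | hz
          · simp only [Function.update_self]
            exact ⟨o1.1.1, o2.1.1⟩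
          · simp only [hupd _ hz]
            exact i4 _ hz
      · intro t _
        refine le_trans (avg_ind U.offDiag (Q t x)) ?_
        rw [div_le_iff₀ hAl0]
        rcases t with ⟨x0, w, s, side⟩ | W
        · simp only [Q, μ]
          by_cases hl : lab x = lab x0
          · simp only [hl, true_and, if_true]
            have hc : ((univ.filter fun o : β × β => (if side then o.1 else o.2) ∈ H.non s w).card : ℝ)
                = (H.non s w).card * n := by
              cases side
              · have : (univ.filter fun o : β × β => (if false then o.1 else o.2) ∈ H.non s w)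
                    = univ ×ˢ H.non s w := by ext o; simp
                rw [this, card_product, card_univ]; push_cast; ring
              · have : (univ.filter fun o : β × β => (if true then o.1 else o.2) ∈ H.non s w)
                    = H.non s w ×ˢ univ := by ext o; simp
                rw [this, card_product, card_univ]; push_cast; ring
            have := H.card_non s w
            rw [← hn] at this
            calc _ = ((H.non s w).card : ℝ) * n := by convert hc
              _ ≤ n / 3 * n := mul_le_mul_of_nonneg_right this hnpos.le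
              _ ≤ _ := by nlinarith
          · simp [hl]
        · simp only [Q, μ]
          have hc : (H.cnt b1 b2 W : ℝ) ≤ n ^ 2 := by
            have : H.cnt b1 b2 W ≤ Fintype.card (β × β) := card_le_univ _
            rw [Fintype.card_prod] at this
            rw [hn, sq]; exact_mod_cast this
          have hc0 : (0 : ℝ) ≤ H.cnt b1 b2 W := Nat.cast_nonneg _
          have e : (H.cnt b1 b2 W : ℝ) = (H.cnt b1 b2 W : ℝ) / n ^ 2 * n ^ 2 := by field_simp
          have hq0 : 0 ≤ (H.cnt b1 b2 W : ℝ) / n ^ 2 := by positivity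
          have hq1 : (H.cnt b1 b2 W : ℝ) / n ^ 2 ≤ 1 := div_le_one_of_le₀ hc (by positivity)
          calc _ = (H.cnt b1 b2 W : ℝ) := by unfold Host.cnt; congr
            _ = (H.cnt b1 b2 W : ℝ) / n ^ 2 * n ^ 2 := e
            _ ≤ ((H.cnt b1 b2 W : ℝ) / n ^ 2 + 0.005) * (0.998 * n) ^ 2 := by
              set y := (H.cnt b1 b2 W : ℝ) / n ^ 2
              have : 0 < n ^ 2 := by positivity
              nlinarith
            _ ≤ _ := mul_le_mul_of_nonneg_left hAl (by positivity))
  refine ⟨fun x => (g x).1, fun x => (g x).2, hg1, hg2, hg3, hg4, ?_, ?_⟩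
  · intro x0 hx0 w s
    have key : ∀ side : Bool, ((X.filter fun x => lab x = lab x0 ∧
        (if side then (g x).1 else (g x).2) ∈ H.non s w).card : ℝ)
          ≤ 0.335 * (X.filter fun x => lab x = lab x0).card + dev := by
      intro side
      have := hg (Sum.inl (x0, w, s, side)) (by simp [hx0])
      simp only [Q, μ] at this
      rw [card_filter, card_filter]
      push_cast
      rw [mul_sum]
      convert this using 3
      split_ifs <;> simp
    exact ⟨by simpa using key true, by simpa using key false⟩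
  · intro W
    have := hg (Sum.inr W) (by simp)
    simp only [Q, μ, sum_const, nsmul_eq_mul] at this
    rw [card_filter]
    push_cast
    rw [mul_comm]
    convert this

end Pool.Agent.MP_6f6f6b_co

end MrgPart2

-- ======== part 3: formerly Pool.Agent.MP_6f6f6b_co.Final
section MrgPart3

set_option autoImplicit false
set_option linter.unusedVariables false
set_option linter.unusedSectionVars false

open Finset
open scoped Classical

namespace Pool.Agent.MP_6f6f6b_co

variable {β : Type} [Fintype β]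

/-- Markov inequality for non-adjacency to a fixed set. -/
theorem Host.markov (H : Host β) (Q : Finset β) (b : Bool) (θ : ℝ) (P : β → Prop)
    (hP : ∀ y, P y → θ ≤ (Q ∩ H.non b y).card) :
    ((univ.filter P).card : ℝ) * θ ≤ Q.card * (Fintype.card β / 3) := by
  have h1 : ((univ.filter P).card : ℝ) * θ ≤ ∑ y, ((Q ∩ H.non b y).card : ℝ) := by
    rw [← nsmul_eq_mul, ← sum_const]
    refine (sum_le_sum fun y hy => hP y (mem_filter.1 hy).2).trans ?_
    exact sum_le_sum_of_subset_of_nonneg (subset_univ _) fun _ _ _ => Nat.cast_nonneg _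
  refine h1.trans ?_
  have h2 : ∀ y, ((Q ∩ H.non b y).card : ℝ) = ∑ w ∈ Q, if y ∈ H.non (!b) w then (1 : ℝ) else 0 := by
    intro y
    rw [← filter_mem_eq_inter, card_filter]
    push_cast
    refine sum_congr rfl fun w _ => ?_
    simp only [H.mem_non', H.mem_non]
  simp only [h2]
  rw [sum_comm, ← nsmul_eq_mul, ← sum_const]
  refine sum_le_sum fun w _ => ?_
  refine le_trans (le_of_eq ?_) (H.card_non (!b) w)
  rw [← sum_filter]
  simp

/-- Common neighbourhood of a pair inside `W0`. -/
noncomputable def Host.co (H : Host β) (b1 b2 : Bool) (W0 : Finset β) (a b : β) : Finset β :=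
  W0.filter fun w => H.R b1 a w ∧ H.R b2 b w

theorem exists_tuple (H : Host β) (b1 b2 : Bool) (r : ℕ) (hr : (0.995 : ℝ) ^ r ≤ 0.005)
    (W0 : Finset β) (hW : W0.Nonempty) :
    ∃ W : Fin r → β, (∀ i, W i ∈ W0) ∧ (H.cnt b1 b2 W : ℝ) ≤
      (univ.filter fun o : β × β => ((H.co b1 b2 W0 o.1 o.2).card : ℝ) < 0.005 * W0.card).card
        + 0.005 * (Fintype.card β : ℝ) ^ 2 := by
  set Bd := univ.filter fun o : β × β => ((H.co b1 b2 W0 o.1 o.2).card : ℝ) < 0.005 * W0.card with hBd
  set Pi := Fintype.piFinset fun _ : Fin r => W0 with hPi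
  have hPic : (Pi.card : ℝ) = (W0.card : ℝ) ^ r := by simp [hPi]
  have hne : Pi.Nonempty := by simpa [hPi] using fun _ => hW
  have hsum : ∑ W ∈ Pi, (H.cnt b1 b2 W : ℝ)
      ≤ ∑ W ∈ Pi, ((Bd.card : ℝ) + 0.005 * (Fintype.card β : ℝ) ^ 2) := by
    have h1 : ∀ W : Fin r → β, (H.cnt b1 b2 W : ℝ)
        = ∑ o : β × β, if H.miss b1 b2 W o.1 o.2 then (1 : ℝ) else 0 := by
      intro W
      rw [Host.cnt, card_filter]
      push_cast
      rfl
    simp only [h1]
    rw [sum_comm]
    have h2 : ∀ o : β × β, (∑ W ∈ Pi, if H.miss b1 b2 W o.1 o.2 then (1 : ℝ) else 0)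
        = ((W0.card : ℝ) - (H.co b1 b2 W0 o.1 o.2).card) ^ r := by
      intro o
      rw [← sum_filter]
      have : Pi.filter (fun W => H.miss b1 b2 W o.1 o.2)
          = Fintype.piFinset fun _ : Fin r => W0 \ H.co b1 b2 W0 o.1 o.2 := by
        ext W
        simp only [hPi, mem_filter, Fintype.mem_piFinset, Host.miss, Host.co, mem_sdiff]
        constructor
        · rintro ⟨h1, h2⟩ i
          exact ⟨h1 i, fun h => h2 i h.2⟩
        · intro h
          exact ⟨fun i => (h i).1, fun i h' => (h i).2 ⟨(h i).1, h'⟩⟩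
      rw [this]
      have hs : H.co b1 b2 W0 o.1 o.2 ⊆ W0 := filter_subset _ _
      simp [card_sdiff_of_subset hs, Nat.cast_sub (card_le_card hs)]
    simp only [h2]
    have h3 : ∀ o : β × β, ((W0.card : ℝ) - (H.co b1 b2 W0 o.1 o.2).card) ^ r
        ≤ (W0.card : ℝ) ^ r * ((if o ∈ Bd then 1 else 0) + 0.005) := by
      intro o
      have hs : ((H.co b1 b2 W0 o.1 o.2).card : ℝ) ≤ W0.card := by
        exact_mod_cast card_le_card (filter_subset _ _)
      have hp : (0 : ℝ) ≤ (W0.card : ℝ) ^ r := by positivity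
      have h0 : (0 : ℝ) ≤ (H.co b1 b2 W0 o.1 o.2).card := Nat.cast_nonneg _
      split_ifs with h
      · have := pow_le_pow_left₀ (sub_nonneg.2 hs) (sub_le_self (W0.card : ℝ) h0) r
        nlinarith
      · simp only [hBd, mem_filter, mem_univ, true_and, not_lt] at h
        have := pow_le_pow_left₀ (sub_nonneg.2 hs)
          (show (W0.card : ℝ) - (H.co b1 b2 W0 o.1 o.2).card ≤ W0.card * 0.995 by linarith) r
        rw [mul_pow] at this
        nlinarith
    refine (sum_le_sum fun o _ => h3 o).trans (le_of_eq ?_)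
    rw [← mul_sum, sum_add_distrib, ← sum_filter]
    simp only [filter_mem_eq_inter, univ_inter, sum_const, nsmul_eq_mul, mul_one, card_univ,
      Fintype.card_prod, hPic]
    push_cast
    ring
  obtain ⟨W, hWm, hle⟩ := exists_le_of_sum_le hne hsum
  exact ⟨W, by simpa [hPi] using hWm, hle⟩

theorem co_card (H : Host β) (b1 b2 : Bool) (W0 : Finset β) (a b : β) :
    ((W0 \ H.non b1 a).card : ℝ)
      ≤ (H.co b1 b2 W0 a b).card + ((W0 \ H.non b1 a) ∩ H.non b2 b).card := by
  have : W0 \ H.non b1 a ⊆ H.co b1 b2 W0 a b ∪ (W0 \ H.non b1 a) ∩ H.non b2 b := by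
    intro w hw
    simp only [mem_union, mem_inter, Host.co, mem_filter, hw, true_and]
    simp only [mem_sdiff, H.mem_non, not_not] at hw ⊢
    tauto
  exact_mod_cast (card_le_card this).trans (card_union_le _ _)

theorem sdiff_card_real (A B : Finset β) : ((A \ B).card : ℝ) = A.card - (A ∩ B).card := by
  have := card_sdiff_add_card_inter A B
  have : (((A \ B).card + (A ∩ B).card : ℕ) : ℝ) = A.card := by exact_mod_cast this
  push_cast at this
  linarith

theorem bad_fib (H : Host β) (b1 b2 : Bool) (W0 : Finset β) (m : ℝ) (hm : 0 < m)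
    (hW : 0.39 * m ≤ W0.card) (hnon : ∀ w b, ((W0 ∩ H.non b w).card : ℝ) ≤ 0.335 * m) (a : β) :
    ((univ.filter fun b => ((H.co b1 b2 W0 a b).card : ℝ) < 0.005 * W0.card).card : ℝ)
      ≤ 0.346 * Fintype.card β := by
  have h1 := sdiff_card_real W0 (H.non b1 a)
  have h2 := hnon a b1
  set Q := W0 \ H.non b1 a
  have hQ : 0.141 * W0.card ≤ (Q.card : ℝ) := by linarith
  have hQ0 : (0 : ℝ) < Q.card := by linarith
  have h3 := H.markov Q b2 (0.9645 * Q.card)
    (fun b => ((H.co b1 b2 W0 a b).card : ℝ) < 0.005 * W0.card) fun b hb => by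
      have := co_card H b1 b2 W0 a b
      linarith
  have hn : (0 : ℝ) ≤ Fintype.card β := Nat.cast_nonneg _
  by_contra hcon
  push Not at hcon
  nlinarith

theorem bad_card (H : Host β) (b1 b2 : Bool) (W0 : Finset β) (c : ℝ) (Ab : Finset β)
    (h1 : ∀ a, ((univ.filter fun b => ((H.co b1 b2 W0 a b).card : ℝ) < 0.005 * W0.card).card : ℝ) ≤ c)
    (h2 : ∀ a b, ((H.co b1 b2 W0 a b).card : ℝ) < 0.005 * W0.card → a ∈ Ab) :
    ((univ.filter fun o : β × β => ((H.co b1 b2 W0 o.1 o.2).card : ℝ) < 0.005 * W0.card).card : ℝ)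
      ≤ Ab.card * c := by
  rw [card_eq_sum_card_fiberwise (f := Prod.fst) (t := Ab)
    (fun o ho => h2 o.1 o.2 (mem_filter.1 (mem_coe.1 ho)).2)]
  push_cast
  rw [← nsmul_eq_mul, ← sum_const]
  refine sum_le_sum fun a _ => le_trans ?_ (h1 a)
  rw [Nat.cast_le]
  refine card_le_card_of_injOn Prod.snd ?_ ?_
  · intro o ho
    simp only [coe_filter, mem_filter, mem_univ, true_and, Set.mem_ofPred_eq] at ho ⊢
    rw [← ho.2]; exact ho.1
  · intro o ho o' ho' h
    simp only [coe_filter, mem_filter, mem_univ, true_and, Set.mem_ofPred_eq] at ho ho'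
    exact Prod.ext (ho.2.trans ho'.2.symm) h

theorem cnt_const (H : Host β) (b1 b2 : Bool) (r : ℕ) (hr : r ≠ 0) (w : β) :
    (H.cnt b1 b2 (fun _ : Fin r => w) : ℝ) ≤ 5 / 9 * (Fintype.card β : ℝ) ^ 2 := by
  have h1 : (univ.filter fun o : β × β => H.miss b1 b2 (fun _ : Fin r => w) o.1 o.2)
      = univ \ ((univ \ H.non (!b1) w) ×ˢ (univ \ H.non (!b2) w)) := by
    ext o
    simp only [mem_filter, mem_univ, true_and, Host.miss, mem_sdiff, mem_product, H.mem_non', not_not]
    exact ⟨fun h => h ⟨0, Nat.pos_of_ne_zero hr⟩, fun h _ => h⟩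
  rw [Host.cnt, h1, card_sdiff_of_subset (subset_univ _), Nat.cast_sub (card_le_card (subset_univ _)),
    card_product, card_sdiff_of_subset (subset_univ _), card_sdiff_of_subset (subset_univ _)]
  simp only [card_univ, Fintype.card_prod]
  push_cast
  rw [Nat.cast_sub (card_le_univ _), Nat.cast_sub (card_le_univ _)]
  have h2 := H.card_non (!b1) w
  have h3 := H.card_non (!b2) w
  have hn : (0 : ℝ) ≤ Fintype.card β := Nat.cast_nonneg _
  set n : ℝ := (Fintype.card β : ℝ)
  nlinarith [mul_le_mul (show 2 / 3 * n ≤ n - (H.non (!b1) w).card by linarith)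
    (show 2 / 3 * n ≤ n - (H.non (!b2) w).card by linarith) (by positivity) (by linarith)]

/-- Hall's condition for well distributed pairs against any final set. -/
theorem final_pairs (H : Host β) (b1 b2 : Bool) (r : ℕ) (hr : (0.995 : ℝ) ^ r ≤ 0.005)
    (A : Finset β) (σ : β → β) (zp L : Finset β) (m : ℝ)
    (hA : (A.card : ℝ) ≤ m) (hL : (L.card : ℝ) = m) (hzL : zp ⊆ L) (hz : 0.99 * m ≤ zp.card)
    (hnon : ∀ w b, ((zp ∩ H.non b w).card : ℝ) ≤ 0.335 * m)
    (htest : ∀ W : Fin r → β, ((A.filter fun a => H.miss b1 b2 W a (σ a)).card : ℝ)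
      ≤ ((H.cnt b1 b2 W : ℝ) / (Fintype.card β : ℝ) ^ 2 + 0.01) * m)
    (P : Finset β) (hP : P ⊆ A) :
    P.card ≤ (L.filter fun w => ∃ a ∈ P, H.R b1 a w ∧ H.R b2 (σ a) w).card := by
  by_contra hcon
  push Not at hcon
  set Nb := L.filter fun w => ∃ a ∈ P, H.R b1 a w ∧ H.R b2 (σ a) w with hNb
  set W := L \ Nb with hW
  obtain ⟨a0, ha0⟩ : P.Nonempty := card_pos.1 (by omega)
  have hPm : (P.card : ℝ) ≤ m := le_trans (by exact_mod_cast card_le_card hP) hA
  have hcon' : (Nb.card : ℝ) < P.card := by exact_mod_cast hcon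
  have hP0 : (0 : ℝ) < P.card := by exact_mod_cast card_pos.2 ⟨a0, ha0⟩
  have hm : 0 < m := by linarith
  have hWc : (W.card : ℝ) = m - Nb.card := by
    rw [hW, card_sdiff_of_subset (filter_subset _ _), Nat.cast_sub (card_le_card (filter_subset _ _)), hL]
  have hmissW : ∀ w ∈ W, ∀ a ∈ P, ¬ (H.R b1 a w ∧ H.R b2 (σ a) w) := by
    intro w hw a ha h
    have := mem_sdiff.1 hw
    exact this.2 (mem_filter.2 ⟨this.1, a, ha, h⟩)
  have hn : (0 : ℝ) < (Fintype.card β : ℝ) ^ 2 := by
    have := Host.card_pos a0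
    positivity
  have hn1 : (0 : ℝ) < (Fintype.card β : ℝ) := by exact_mod_cast Host.card_pos a0
  have claim : ∀ (W' : Fin r → β) (c : ℝ), (∀ i, W' i ∈ W) →
      (H.cnt b1 b2 W' : ℝ) ≤ c * (Fintype.card β : ℝ) ^ 2 → (P.card : ℝ) ≤ (c + 0.01) * m := by
    intro W' c h1 h2
    have h3 : P ⊆ A.filter fun a => H.miss b1 b2 W' a (σ a) := fun a ha =>
      mem_filter.2 ⟨hP ha, fun i => hmissW _ (h1 i) a ha⟩
    have h4 : (P.card : ℝ) ≤ (A.filter fun a => H.miss b1 b2 W' a (σ a)).card := by
      exact_mod_cast card_le_card h3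
    refine h4.trans ((htest W').trans (mul_le_mul_of_nonneg_right ?_ hm.le))
    have := (div_le_iff₀ hn).2 h2
    linarith
  by_cases h1 : (W.card : ℝ) ≤ 0.4 * m
  · obtain ⟨w, hw⟩ : W.Nonempty := by
      rw [← card_pos]
      have : (0 : ℝ) < W.card := by linarith
      exact_mod_cast this
    have hr0 : r ≠ 0 := by rintro rfl; norm_num at hr
    have := claim (fun _ => w) (5 / 9) (fun _ => hw) (cnt_const H b1 b2 r hr0 w)
    linarith
  push Not at h1
  set W0 := W ∩ zp with hW0
  have hW0c : (W.card : ℝ) - 0.01 * m ≤ W0.card := by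
    have e1 := sdiff_card_real W zp
    have e2 : ((W \ zp).card : ℝ) ≤ (L \ zp).card := by
      exact_mod_cast card_le_card (sdiff_subset_sdiff sdiff_subset Subset.rfl)
    rw [card_sdiff_of_subset hzL, Nat.cast_sub (card_le_card hzL), hL] at e2
    linarith
  have hnon0 : ∀ w b, ((W0 ∩ H.non b w).card : ℝ) ≤ 0.335 * m := fun w b =>
    le_trans (by exact_mod_cast card_le_card (inter_subset_inter inter_subset_right Subset.rfl))
      (hnon w b)
  have hW0ne : W0.Nonempty := by
    rw [← card_pos]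
    have : (0 : ℝ) < W0.card := by linarith
    exact_mod_cast this
  obtain ⟨W', hW'1, hW'2⟩ := exists_tuple H b1 b2 r hr W0 hW0ne
  have hW'3 : ∀ i, W' i ∈ W := fun i => (mem_inter.1 (hW'1 i)).1
  have hfib := bad_fib H b1 b2 W0 m hm (by linarith) hnon0
  by_cases h2 : (W.card : ℝ) ≤ 0.63 * m
  · have hb := bad_card H b1 b2 W0 _ univ hfib fun _ _ _ => mem_univ _
    rw [card_univ] at hb
    have := claim W' 0.351 hW'3 (by nlinarith)
    linarith
  push Not at h2
  have hco : ∀ a b, (W0.card : ℝ) ≤ (H.co b1 b2 W0 a b).card + (W0 ∩ H.non b1 a).card + 0.335 * m := by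
    intro a b
    have e1 := co_card H b1 b2 W0 a b
    have e2 := sdiff_card_real W0 (H.non b1 a)
    have e3 : (((W0 \ H.non b1 a) ∩ H.non b2 b).card : ℝ) ≤ (W0 ∩ H.non b2 b).card := by
      exact_mod_cast card_le_card (inter_subset_inter sdiff_subset Subset.rfl)
    have e4 := hnon0 b b2
    linarith
  by_cases h3 : (W.card : ℝ) ≤ 0.73 * m
  · have hW0p : (0 : ℝ) < W0.card := by linarith
    have hmk := H.markov W0 b1 (0.4546 * W0.card)
      (fun a => 0.4546 * W0.card ≤ ((W0 ∩ H.non b1 a).card : ℝ)) fun _ h => h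
    set Ab := univ.filter fun a => 0.4546 * W0.card ≤ ((W0 ∩ H.non b1 a).card : ℝ) with hAb
    have hAbc : (Ab.card : ℝ) ≤ 0.7333 * Fintype.card β := by
      by_contra hc
      push Not at hc
      nlinarith
    have hb := bad_card H b1 b2 W0 _ Ab hfib fun a b h => by
      simp only [hAb, mem_filter, mem_univ, true_and]
      have := hco a b
      linarith
    have hb' : (Ab.card : ℝ) * (0.346 * Fintype.card β) ≤ 0.254 * (Fintype.card β : ℝ) ^ 2 := by
      nlinarith
    have := claim W' 0.259 hW'3 (by linarith)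
    linarith
  · push Not at h3
    have e1 := hco a0 (σ a0)
    have e2 := hnon0 a0 b1
    have e3 : H.co b1 b2 W0 a0 (σ a0) = ∅ := by
      rw [Host.co, filter_eq_empty_iff]
      intro w hw
      exact hmissW w (mem_inter.1 hw).1 a0 ha0
    rw [e3, card_empty] at e1
    push_cast at e1
    linarith

end Pool.Agent.MP_6f6f6b_co

end MrgPart3

-- marker of a merged file
example : 731051 + 248256 = 731051 + 248256 := rfl
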