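import Mathlib.Tactic.Monotonicity.Lemmas
import Mathlib.Analysis.SpecialFunctions.Pow.Asymptotics
import Mathlib.Combinatorics.Digraph.Basic
import Mathlib.Combinatorics.SimpleGraph.Acyclic
import Pool.Agent.MP_6f6f6b_co.Final
import Pool.Agent.MP_6f6f6b_co.Parts1

-- ======== part 0: formerly Pool.Agent.MP_6f6f6b_co.Labels
section MrgPart0

set_option autoImplicit false
set_option linter.unusedVariables false
set_option linter.unusedSectionVars false

open Finset
open scoped Classical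

namespace Pool.Agent.MP_6f6f6b_co

variable {α : Type}

/-- The finite set of shapes of a piece with a marked position. -/
abbrev Shape (K : ℕ) : Type :=
  (Fin (K + 1) → Option (Option (Fin (K + 1)) × Bool × Fin 4)) × Fin (K + 1)

theorem exists_labels [Fintype α] (T : RTree α) {K : ℕ} (D : Dec T K) (R : Roles T D.U)
    (Hv : Finset α) (hH : Hv ⊆ D.S) (hne : Hv.Nonempty) :
    ∃ E : LD T (Option (Option α) × Shape K), E.S = D.S ∧ E.G = D.G ∧ E.U = D.U ∧ E.Hv = Hv ∧
      E.role = R.role ∧ (∀ x ∈ D.U, T.p x ∈ D.U → (E.lab (T.p x)).1 = (E.lab x).1) ∧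
      (∀ x h, (E.lab x).1 = some (some h) → h ∈ Hv) ∧
      ∀ x ∈ D.U, T.p x ∈ D.S → T.p x ∉ Hv → (E.lab x).1 = some none := by
  have hr : ∀ x ∈ D.U, x ≠ T.r := by rintro x hx rfl; exact D.dSU _ D.r_mem hx
  let key : α → ℕ := fun x => T.dep x * Fintype.card α + (Fintype.equivFin α x).val
  have key_lt : ∀ x y, T.dep x < T.dep y → key x < key y := by
    intro x y h
    have h1 := (Fintype.equivFin α x).2
    have h2 : (T.dep x + 1) * Fintype.card α ≤ T.dep y * Fintype.card α := Nat.mul_le_mul_right _ h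
    simp only [key]
    rw [add_mul, one_mul] at h2
    omega
  have key_inj : ∀ x y, key x = key y → x = y := by
    intro x y h
    rcases lt_trichotomy (T.dep x) (T.dep y) with h1 | h1 | h1
    · exact absurd h (key_lt x y h1).ne
    · simp only [key, h1, add_right_inj] at h
      exact (Fintype.equivFin α).injective (Fin.ext h)
    · exact absurd h (key_lt y x h1).ne'
  let rank : α → ℕ := fun x => (D.U.filter fun y => D.top y = D.top x ∧ key y < key x).card
  have rank_lt : ∀ x ∈ D.U, ∀ y, D.top x = D.top y → key x < key y → rank x < rank y := by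
    intro x hx y ht hk
    refine card_lt_card ⟨fun z hz => ?_, fun h => ?_⟩
    · obtain ⟨h1, h2, h3⟩ := mem_filter.1 hz
      exact mem_filter.2 ⟨h1, h2.trans ht, h3.trans hk⟩
    · exact lt_irrefl _ (mem_filter.1 (h (mem_filter.2 ⟨hx, ht, hk⟩))).2.2
  have rank_le : ∀ x, rank x < K + 1 := fun x => Nat.lt_succ_of_le (le_trans (card_le_card fun z hz =>
    mem_filter.2 ⟨(mem_filter.1 hz).1, (mem_filter.1 hz).2.1⟩) (D.piece (D.top x)))
  let idx : α → Fin (K + 1) := fun x => ⟨rank x, rank_le x⟩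
  have idx_inj : ∀ x ∈ D.U, ∀ y ∈ D.U, D.top x = D.top y → idx x = idx y → x = y := by
    intro x hx y hy ht hi
    have hi' : rank x = rank y := congrArg Fin.val hi
    rcases lt_trichotomy (key x) (key y) with h1 | h1 | h1
    · exact absurd hi' (rank_lt x hx y ht h1).ne
    · exact key_inj x y h1
    · exact absurd hi' (rank_lt y hy x ht.symm h1).ne'
  let info : α → Option (Fin (K + 1)) × Bool × Fin 4 := fun x =>
    (if T.p x ∈ D.U then some (idx (T.p x)) else none, T.dir x,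
      ⟨R.role x, Nat.lt_succ_of_le (R.role_le x)⟩)
  let code : α → Fin (K + 1) → Option (Option (Fin (K + 1)) × Bool × Fin 4) := fun a i =>
    if h : ∃ x ∈ D.U, D.top x = a ∧ idx x = i then some (info h.choose) else none
  have code_spec : ∀ x ∈ D.U, code (D.top x) (idx x) = some (info x) := by
    intro x hx
    have h : ∃ y ∈ D.U, D.top y = D.top x ∧ idx y = idx x := ⟨x, hx, rfl, rfl⟩
    simp only [code, dif_pos h]
    obtain ⟨h1, h2, h3⟩ := h.choose_spec
    rw [idx_inj _ h1 x hx h2 h3]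
  have code_surj : ∀ a i inf, code a i = some inf →
      ∃ x ∈ D.U, D.top x = a ∧ idx x = i ∧ info x = inf := by
    intro a i inf h
    simp only [code] at h
    split_ifs at h with h'
    obtain ⟨h1, h2, h3⟩ := h'.choose_spec
    exact ⟨_, h1, h2, h3, Option.some.inj h⟩
  let owner : α → Option (Option α) := fun a =>
    if T.p a ∈ Hv then some (some (T.p a)) else if T.p a ∈ D.S then some none else none
  let lab : α → Option (Option α) × Shape K := fun x => (owner (D.top x), code (D.top x), idx x)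
  have lab_eq : ∀ x y, lab x = lab y ↔
      owner (D.top x) = owner (D.top y) ∧ code (D.top x) = code (D.top y) ∧ idx x = idx y := by
    intro x y
    simp only [lab, Prod.mk.injEq]
  have linfo : ∀ x ∈ D.U, ∀ y ∈ D.U, lab x = lab y → info x = info y := by
    intro x hx y hy h
    obtain ⟨-, h2, h3⟩ := (lab_eq x y).1 h
    have := code_spec x hx
    rw [h2, h3, code_spec y hy] at this
    exact (Option.some.inj this).symm
  have ipar : ∀ x y, info x = info y → T.p x ∈ D.U → T.p y ∈ D.U ∧ idx (T.p x) = idx (T.p y) := by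
    intro x y h hp
    have h1 := congrArg Prod.fst h
    simp only [info, hp, if_true] at h1
    split_ifs at h1 with h2
    exact ⟨h2, Option.some.inj h1⟩
  have lown : ∀ x ∈ D.U, ∀ y ∈ D.U, lab x = lab y → T.p x ∈ D.S → owner x = owner y := by
    intro x hx y hy h hS
    have h1 : T.p x ∉ D.U := D.dSU _ hS
    have h2 : T.p y ∉ D.U := fun h' => h1 (ipar y x (linfo y hy x hx h.symm) h').1
    have := ((lab_eq x y).1 h).1
    rwa [D.top_out x hx h1, D.top_out y hy h2] at this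
  refine ⟨⟨D.S, D.G, D.U, Hv, R.role, lab, fun l => l.2.2.val, R.mode, R.b1, R.b2, D.cover, D.dSG, D.dSU,
    D.dGU, D.r_mem, hH, hne, D.S_par, D.G_ch, ?_, ?_, ?_, ?_, ?_, ?_, ?_, ?_, R.role_le, R.z_par, R.z_ch,
    R.y_par, R.x_par, R.x_ch, R.x_has, R.z_has, R.z_inj, R.y_inj⟩, rfl, rfl, rfl, rfl, rfl, ?_, ?_, ?_⟩
  · intro x hx y hy h
    exact congrArg (fun i => i.2.1) (linfo x hx y hy h)
  · intro x hx y hy h
    exact congrArg (fun i => i.2.2.val) (linfo x hx y hy h)
  · intro x hx y hy h hp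
    obtain ⟨h1, h2⟩ := ipar x y (linfo x hx y hy h) hp
    obtain ⟨h3, h4, -⟩ := (lab_eq x y).1 h
    refine ⟨h1, (lab_eq _ _).2 ?_⟩
    rw [D.top_in x hx hp, D.top_in y hy h1]
    exact ⟨h3, h4, h2⟩
  · intro x hx y hy h hp
    have := lown x hx y hy h (hH hp)
    simp only [owner, hp, if_true] at this
    split_ifs at this with h1 h2
    · exact (Option.some.inj (Option.some.inj this)).symm
    · simp at this
  · intro x hx y hy h hp
    have := lown x hx y hy h hp
    by_contra hc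
    have h1 : T.p y ∉ Hv := fun h' => hc (hH h')
    simp only [owner, hp, h1, hc, if_true, if_false] at this
    split_ifs at this
  · intro x hx y hy h hp he
    refine idx_inj x hx y hy ?_ ((lab_eq x y).1 h).2.2
    rw [← D.top_in x hx hp, ← D.top_in y hy (he ▸ hp), he]
  · intro x hx hp y hy h
    obtain ⟨h1, h2, h3⟩ := (lab_eq _ _).1 h
    rw [D.top_in x hx hp] at h1 h2
    obtain ⟨x', k1, k2, k3, k4⟩ := code_surj (D.top y) (idx x) (info x) (by rw [h2]; exact code_spec x hx)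
    obtain ⟨k5, k6⟩ := ipar x x' k4.symm hp
    refine ⟨x', k1, idx_inj _ k5 y hy (by rw [D.top_in x' k1 k5, k2]) (k6.symm.trans h3.symm),
      (lab_eq _ _).2 ?_⟩
    rw [k2]
    exact ⟨h1, h2, k3⟩
  · intro x hx hp
    refine rank_lt _ hp x (D.top_in x hx hp) (key_lt _ _ ?_)
    have := T.dep_p x (hr x hx)
    omega
  · intro x hx hp
    simp only [lab, D.top_in x hx hp]
  · intro x h he
    simp only [lab, owner] at he
    split_ifs at he with h1 h2
    · exact Option.some.inj (Option.some.inj he) ▸ h1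
    · simp at he
  · intro x hx h1 h2
    simp only [lab, owner, D.top_out x hx (D.dSU _ h1), h1, h2, if_true, if_false]

/-- Moving whole pieces to the exceptional set. -/
noncomputable def LD.prune {Λ : Type} {T : RTree α} (D : LD T Λ) (Q : Λ → Prop)
    (hQ : ∀ x ∈ D.U, T.p x ∈ D.U → (Q (D.lab (T.p x)) ↔ Q (D.lab x))) : LD T Λ where
  S := D.S
  G := D.G ∪ D.U.filter fun x => ¬ Q (D.lab x)
  U := D.U.filter fun x => Q (D.lab x)
  Hv := D.Hv
  role := D.role
  lab := D.lab
  rk := D.rk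
  mode := D.mode
  b1 := D.b1
  b2 := D.b2
  cover := fun v => by
    have := D.cover v
    simp only [mem_union, mem_filter]
    tauto
  dSG := fun v hv h => by
    rcases mem_union.1 h with h | h
    · exact D.dSG v hv h
    · exact D.dSU v hv (mem_filter.1 h).1
  dSU := fun v hv h => D.dSU v hv (mem_filter.1 h).1
  dGU := fun v hv h => by
    rcases mem_union.1 hv with k | k
    · exact D.dGU v k (mem_filter.1 h).1
    · exact (mem_filter.1 k).2 (mem_filter.1 h).2
  r_mem := D.r_mem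
  Hv_sub := D.Hv_sub
  Hv_ne := D.Hv_ne
  S_par := fun s hs h => D.S_par s hs (mem_filter.1 h).1
  G_ch := fun c c' hc hc' hp he => by
    simp only [mem_union, mem_filter, not_or, not_and, not_not] at hc hc' hp
    rcases hp with hp | hp
    · exact D.G_ch c c' hc.1 hc'.1 hp he
    · have hcU : c ∈ D.U := by
        rcases D.cover c with h | h | h
        · exact absurd hp.1 (D.S_par c h)
        · exact absurd h hc.1
        · exact h
      exact absurd ((hQ c hcU hp.1).2 (hc.2 hcU)) hp.2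
  l_dir := fun x hx y hy => D.l_dir x (mem_filter.1 hx).1 y (mem_filter.1 hy).1
  l_role := fun x hx y hy => D.l_role x (mem_filter.1 hx).1 y (mem_filter.1 hy).1
  l_in := fun x hx y hy h hp => by
    obtain ⟨h1, h2⟩ := D.l_in x (mem_filter.1 hx).1 y (mem_filter.1 hy).1 h (mem_filter.1 hp).1
    exact ⟨mem_filter.2 ⟨h1, h2 ▸ (mem_filter.1 hp).2⟩, h2⟩
  l_hub := fun x hx y hy => D.l_hub x (mem_filter.1 hx).1 y (mem_filter.1 hy).1
  l_med := fun x hx y hy => D.l_med x (mem_filter.1 hx).1 y (mem_filter.1 hy).1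
  l_inj := fun x hx y hy h hp => D.l_inj x (mem_filter.1 hx).1 y (mem_filter.1 hy).1 h (mem_filter.1 hp).1
  l_surj := fun x hx hp y hy h => by
    obtain ⟨x', h1, h2, h3⟩ := D.l_surj x (mem_filter.1 hx).1 (mem_filter.1 hp).1 y (mem_filter.1 hy).1 h
    exact ⟨x', mem_filter.2 ⟨h1, h3 ▸ (mem_filter.1 hx).2⟩, h2, h3⟩
  l_rk := fun x hx hp => D.l_rk x (mem_filter.1 hx).1 (mem_filter.1 hp).1
  role_le := D.role_le
  z_par := fun z hz h => by
    obtain ⟨h1, h2⟩ := D.z_par z (mem_filter.1 hz).1 h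
    exact ⟨mem_filter.2 ⟨h1, (hQ z (mem_filter.1 hz).1 h1).2 (mem_filter.1 hz).2⟩, h2⟩
  z_ch := fun c hc h => by
    obtain ⟨h1, h2⟩ := D.z_ch c (mem_filter.1 hc).1 h
    exact ⟨mem_filter.2 ⟨h1, (hQ c h1 (mem_filter.1 hc).1).1 (mem_filter.1 hc).2⟩, h2⟩
  y_par := fun y hy h => by
    obtain ⟨h0, h1, h2⟩ := D.y_par y (mem_filter.1 hy).1 h
    exact ⟨h0, mem_filter.2 ⟨h1, (hQ y (mem_filter.1 hy).1 h1).2 (mem_filter.1 hy).2⟩, h2⟩
  x_par := fun x hx h => by
    have h1 := D.x_par x (mem_filter.1 hx).1 h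
    exact mem_filter.2 ⟨h1, (hQ x (mem_filter.1 hx).1 h1).2 (mem_filter.1 hx).2⟩
  x_ch := fun c hc hp => D.x_ch c (mem_filter.1 hc).1 (mem_filter.1 hp).1
  x_has := fun x hx h => by
    obtain ⟨c, h1, rfl⟩ := D.x_has x (mem_filter.1 hx).1 h
    exact ⟨c, mem_filter.2 ⟨h1, (hQ c h1 (mem_filter.1 hx).1).1 (mem_filter.1 hx).2⟩, rfl⟩
  z_has := fun hm x hx h => by
    obtain ⟨c, h1, rfl⟩ := D.z_has hm x (mem_filter.1 hx).1 h
    exact ⟨c, mem_filter.2 ⟨h1, (hQ c h1 (mem_filter.1 hx).1).1 (mem_filter.1 hx).2⟩, rfl⟩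
  z_inj := fun hm z hz z' hz' => D.z_inj hm z (mem_filter.1 hz).1 z' (mem_filter.1 hz').1
  y_inj := fun z hz z' hz' => D.y_inj z (mem_filter.1 hz).1 z' (mem_filter.1 hz').1

theorem small_classes {Λ : Type} (U P : Finset α) (lab : α → Λ) (Lb : Finset Λ) (θ : ℝ) (hθ : 0 ≤ θ)
    (hP : ∀ x ∈ P, x ∈ U ∧ lab x ∈ Lb ∧ ((U.filter fun y => lab y = lab x).card : ℝ) ≤ θ) :
    (P.card : ℝ) ≤ Lb.card * θ := by
  rw [card_eq_sum_card_fiberwise (f := lab) (s := P) (t := Lb) fun x hx => (hP x hx).2.1]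
  push_cast
  rw [← nsmul_eq_mul, ← sum_const]
  refine sum_le_sum fun l _ => ?_
  rcases (P.filter fun x => lab x = l).eq_empty_or_nonempty with h | ⟨x, hx⟩
  · rw [h]; simpa using hθ
  · obtain ⟨h1, rfl⟩ := mem_filter.1 hx
    refine le_trans ?_ (hP x h1).2.2
    exact_mod_cast card_le_card fun y hy =>
      mem_filter.2 ⟨(hP y (mem_filter.1 hy).1).1, (mem_filter.1 hy).2⟩

end Pool.Agent.MP_6f6f6b_co

end MrgPart0

-- ======== part 1: formerly Pool.Agent.MP_6f6f6b_co.TreeA
section MrgPart1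

set_option autoImplicit false
set_option linter.unusedVariables false
set_option linter.unusedSectionVars false

open Finset
open scoped Classical

namespace Pool.Agent.MP_6f6f6b_co

/-- Trees with many inner vertices have a good labelled decomposition. -/
theorem treeA : ∃ η εM εH a : ℝ, 0 < η ∧ 0 < εM ∧ 0 < εH ∧ 0 ≤ a ∧ 100000 * a ≤ η * εM ^ 3 ∧
    ∃ N : ℕ, ∀ (α : Type) [Fintype α] (T : RTree α), N ≤ Fintype.card α →
      Fintype.card α < 1000 * T.inner.card →
      ∃ (Λ : Type) (D : LD T Λ), Num D (Fintype.card α) η εM εH a := by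
  obtain ⟨J, hJ⟩ : ∃ J : ℕ, J = 800000000000 := ⟨_, rfl⟩
  obtain ⟨K, hK⟩ : ∃ K : ℕ, K = 320000000000000000000000 := ⟨_, rfl⟩
  obtain ⟨C, hC⟩ : ∃ C : ℝ, C = Fintype.card (Shape (J * K)) := ⟨_, rfl⟩
  have hC0 : 0 < C := by rw [hC]; exact_mod_cast Fintype.card_pos
  obtain ⟨η, hη⟩ : ∃ η : ℝ, η = 1 / 100000000000 := ⟨_, rfl⟩
  have hη0 : 0 < η := by rw [hη]; norm_num
  obtain ⟨εM, hεM⟩ : ∃ εM : ℝ, εM = η / (32 * C) := ⟨_, rfl⟩
  have hεM0 : 0 < εM := by rw [hεM]; positivity
  obtain ⟨a, ha⟩ : ∃ a : ℝ, a = η * εM ^ 3 / 100000 := ⟨_, rfl⟩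
  have ha0 : 0 < a := by rw [ha]; positivity
  obtain ⟨εH, hεH⟩ : ∃ εH : ℝ, εH = min εM (η / (16 * C * (1 / a + 1))) := ⟨_, rfl⟩
  have hεH0 : 0 < εH := by rw [hεH]; exact lt_min hεM0 (by positivity)
  have hεH1 : εH ≤ εM := by rw [hεH]; exact min_le_left _ _
  have hεH2 : (1 / a + 1) * C * εH ≤ η / 16 := by
    have : εH ≤ η / (16 * C * (1 / a + 1)) := by rw [hεH]; exact min_le_right _ _
    rw [le_div_iff₀ (by positivity)] at this
    linarith
  have hεM2 : 2 * C * εM = η / 16 := by rw [hεM]; field_simp; norm_num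
  refine ⟨η, εM, εH, a, hη0, hεM0, hεH0, ha0.le, by rw [ha]; linarith, K, ?_⟩
  intro α _ T hN hI
  obtain ⟨D, hS, hG⟩ := exists_dec T J K (by omega) (by omega)
  obtain ⟨n, hn⟩ : ∃ n, n = Fintype.card α := ⟨_, rfl⟩
  rw [← hn] at hN hI hS hG ⊢
  have hS' : 100000000000 * D.S.card ≤ n := by
    subst hJ hK
    omega
  have hG' : 800000000000 * D.G.card ≤ n := by
    subst hJ
    omega
  obtain ⟨R, hR1, hR2⟩ := exists_roles T D (n / 10000000) (n / 10000) (by omega) (by omega)
  have hn0 : (0 : ℝ) < n := by exact_mod_cast (by omega : 0 < n)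
  set Hv := insert T.r (D.S.filter fun s => a * n < (D.U.filter fun x => T.p x = s).card) with hHv
  have hHvc : (Hv.card : ℝ) ≤ 1 / a + 1 := by
    have e1 : ((D.S.filter fun s => a * n < (D.U.filter fun x => T.p x = s).card).card : ℝ) * (a * n)
        ≤ n := by
      rw [← nsmul_eq_mul, ← sum_const]
      refine (sum_le_sum fun s hs => (mem_filter.1 hs).2.le).trans ?_
      have e : ∑ s ∈ D.S.filter fun s => a * n < (D.U.filter fun x => T.p x = s).card,
          (D.U.filter fun x => T.p x = s).card ≤ n := by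
        refine (sum_le_sum_of_subset (subset_univ _)).trans ?_
        rw [← card_eq_sum_card_fiberwise (f := T.p) (s := D.U) (t := univ)
          fun _ _ => mem_coe.2 (mem_univ _), hn]
        exact card_le_univ _
      exact_mod_cast e
    have e2 : ((D.S.filter fun s => a * n < (D.U.filter fun x => T.p x = s).card).card : ℝ) ≤ 1 / a := by
      rw [le_div_iff₀ ha0]
      rw [← mul_assoc] at e1
      exact le_of_mul_le_mul_right (by linarith) hn0
    have e3 : (Hv.card : ℝ)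
        ≤ (D.S.filter fun s => a * n < (D.U.filter fun x => T.p x = s).card).card + 1 := by
      exact_mod_cast card_insert_le _ _
    linarith
  obtain ⟨E, e1, e2, e3, e4, e5, e6, e7, e8⟩ := exists_labels T D R Hv
    (insert_subset D.r_mem (filter_subset _ _)) (insert_nonempty _ _)
  let thr : Option (Option α) → ℝ := fun o => if ∃ h, o = some (some h) then εH * n else εM * n
  let Q : Option (Option α) × Shape (J * K) → Prop := fun l =>
    thr l.1 ≤ (E.U.filter fun y => E.lab y = l).card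
  have hQ : ∀ x ∈ E.U, T.p x ∈ E.U → (Q (E.lab (T.p x)) ↔ Q (E.lab x)) := by
    intro x hx hp
    have k1 := E.C_par hx hp
    have k2 := e6 x (e3 ▸ hx) (e3 ▸ hp)
    simp only [LD.C] at k1
    simp only [Q]
    rw [k2]
    convert Iff.rfl using 3
    convert k1.symm
  set P := E.U.filter fun x => ¬ Q (E.lab x) with hP
  have hPc : (P.card : ℝ) ≤ η * n / 8 := by
    have k0 := card_filter_add_card_filter_not (s := P) fun x => ∃ h, (E.lab x).1 = some (some h)
    have k1 := small_classes E.U (P.filter fun x => ∃ h, (E.lab x).1 = some (some h)) E.lab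
      ((Hv.image fun h => some (some h)) ×ˢ univ) (εH * n) (by positivity) (by
        intro x hx
        obtain ⟨h1, h, h2⟩ := mem_filter.1 hx
        obtain ⟨h3, h4⟩ := mem_filter.1 h1
        refine ⟨h3, mem_product.2 ⟨mem_image.2 ⟨h, e7 x h h2, h2.symm⟩, mem_univ _⟩, ?_⟩
        simp only [Q, thr, if_pos (⟨h, h2⟩ : ∃ h, (E.lab x).1 = some (some h)), not_le] at h4
        exact le_trans (le_of_eq (by congr)) h4.le)
    have k2 := small_classes E.U (P.filter fun x => ¬ ∃ h, (E.lab x).1 = some (some h)) E.lab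
      (({none, some none} : Finset (Option (Option α))) ×ˢ univ) (εM * n) (by positivity) (by
        intro x hx
        obtain ⟨h1, h2⟩ := mem_filter.1 hx
        obtain ⟨h3, h4⟩ := mem_filter.1 h1
        refine ⟨h3, mem_product.2 ⟨?_, mem_univ _⟩, ?_⟩
        · rcases h : (E.lab x).1 with _ | _ | h'
          · simp
          · simp
          · exact absurd ⟨h', h⟩ h2
        · simp only [Q, thr, if_neg h2, not_le] at h4
          exact le_trans (le_of_eq (by congr)) h4.le)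
    rw [card_product, card_univ] at k1 k2
    push_cast at k1 k2
    rw [← hC] at k1 k2
    have k3 : ((Hv.image fun h => some (some h)).card : ℝ) ≤ 1 / a + 1 :=
      le_trans (by exact_mod_cast card_image_le) hHvc
    have k4 : ((({none, some none} : Finset (Option (Option α))).card : ℕ) : ℝ) ≤ 2 := by
      exact_mod_cast card_le_two
    have k5 := mul_le_mul_of_nonneg_right k3 (show 0 ≤ C * (εH * n) by positivity)
    have k6 := mul_le_mul_of_nonneg_right k4 (show 0 ≤ C * (εM * n) by positivity)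
    have k7 := mul_le_mul_of_nonneg_right hεH2 hn0.le
    have k8 : 2 * C * εM * n = η / 16 * n := by rw [hεM2]
    have k9 : (((P.filter fun x => ∃ h, (E.lab x).1 = some (some h)).card : ℝ)
        + (P.filter fun x => ¬ ∃ h, (E.lab x).1 = some (some h)).card) = P.card := by
      exact_mod_cast k0
    linarith
  have hPn : 800000000000 * P.card ≤ n := by
    have : (800000000000 : ℝ) * P.card ≤ n := by rw [hη] at hPc; linarith
    exact_mod_cast this
  have hCeq : ∀ x ∈ (E.prune Q hQ).U, Q (E.lab x) ∧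
      ((E.prune Q hQ).C x).card = (E.U.filter fun y => E.lab y = E.lab x).card := by
    intro x hx
    have h1 := (mem_filter.1 hx).2
    refine ⟨h1, ?_⟩
    congr 1
    ext y
    simp only [LD.C, LD.prune, mem_filter]
    exact ⟨fun h => ⟨h.1.1, h.2⟩, fun h => ⟨⟨h.1, h.2 ▸ h1⟩, h.2⟩⟩
  have hZ1 : ((E.prune Q hQ).Ro 2).card ≤ n / 10000000 := by
    rw [← hR1]
    refine card_le_card fun x hx => ?_
    simp only [LD.Ro, LD.prune, mem_filter, e3, e5] at hx ⊢
    exact ⟨hx.1.1, hx.2⟩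
  have hZ2 : n / 10000000 ≤ ((E.prune Q hQ).Ro 2).card + P.card := by
    rw [← hR1]
    refine le_trans (card_le_card fun x hx => ?_) (card_union_le _ _)
    simp only [LD.Ro, LD.prune, mem_filter, mem_union, hP, e3, e5] at hx ⊢
    tauto
  have hE2 : (E.Ro 2).card = n / 10000000 := by
    rw [← hR1]
    simp only [LD.Ro, e3, e5]
  have hbulk : n / 10000 ≤ ((E.prune Q hQ).U.filter fun x => (E.prune Q hQ).role x = 0 ∧
      T.p x ∈ (E.prune Q hQ).U).card + P.card + (E.Ro 1).card + (E.Ro 2).card + (E.Ro 3).card := by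
    refine hR2.trans (le_trans (card_le_card fun x hx => ?_) ((card_union_le _ _).trans
      (Nat.add_le_add_right ((card_union_le _ _).trans (Nat.add_le_add_right ((card_union_le _ _).trans
        (Nat.add_le_add_right (card_union_le _ _) _)) _)) _)))
    rw [← e3] at hx
    obtain ⟨h1, h2⟩ := mem_filter.1 hx
    have h3 := hQ x h1 h2
    have h4 := E.role_le x
    have h5 : E.role x = 0 ∨ E.role x = 1 ∨ E.role x = 2 ∨ E.role x = 3 := by omega
    simp only [LD.Ro, LD.prune, mem_filter, mem_union, hP, h1, h2, h3, true_and]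
    tauto
  refine ⟨_, E.prune Q hQ, ?_, ?_, ?_, ?_, ?_, ?_, ?_, ?_⟩
  · have : (100000000000 : ℝ) * D.S.card ≤ n := by exact_mod_cast hS'
    change ((E.S.card : ℕ) : ℝ) ≤ _
    rw [e1, hη]
    linarith
  · have k1 : (800000000000 : ℝ) * D.G.card ≤ n := by exact_mod_cast hG'
    have k2 : (E.prune Q hQ).G.card ≤ D.G.card + P.card := by
      rw [← e2]; exact card_union_le _ _
    have k3 : ((E.prune Q hQ).G.card : ℝ) ≤ D.G.card + P.card := by exact_mod_cast k2
    rw [hη] at hPc ⊢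
    linarith
  · have k1 : n ≤ 100000000 * ((E.prune Q hQ).Ro 2).card := by omega
    have k2 : (n : ℝ) ≤ 100000000 * ((E.prune Q hQ).Ro 2).card := by exact_mod_cast k1
    rw [hη]
    linarith
  · have k1 : 5000 * ((E.prune Q hQ).Ro 2).card ≤ n := by omega
    exact_mod_cast k1
  · have := E.card_X_le
    have := E.card_Y_le
    omega
  · intro x hx
    obtain ⟨h1, h2⟩ := hCeq x hx
    rw [h2]
    refine le_trans ?_ h1
    simp only [thr]
    split_ifs
    · exact le_rfl
    · exact mul_le_mul_of_nonneg_right hεH1 hn0.le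
  · intro x hx h3 h4
    obtain ⟨h1, h2⟩ := hCeq x hx
    rw [h2]
    refine le_trans (le_of_eq ?_) h1
    have := e8 x (e3 ▸ (mem_filter.1 hx).1) (e1 ▸ h3) (e4 ▸ h4)
    simp [thr, this]
  · intro s hs h
    change s ∈ E.S at hs
    change s ∉ E.Hv at h
    rw [e1] at hs
    rw [e4, hHv, mem_insert, not_or, mem_filter, not_and, not_lt] at h
    refine le_trans ?_ (h.2 hs)
    rw [← e3]
    exact_mod_cast card_le_card (filter_subset_filter _ (filter_subset _ _))

end Pool.Agent.MP_6f6f6b_co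

end MrgPart1

-- ======== part 2: formerly Pool.Agent.MP_6f6f6b_co.Parts2
section MrgPart2

set_option autoImplicit false
set_option linter.unusedVariables false
set_option linter.unusedSectionVars false

open Finset
open scoped Classical

namespace Pool.Agent.MP_6f6f6b_co

variable {α β Λ : Type} [Fintype α] [Fintype β] {T : RTree α}

theorem exists_parts (D : LD T Λ) (H : Host β) (u : β) (hu : ∀ b w, w ≠ u → H.R b u w)
    (hcard : Fintype.card α = Fintype.card β) (η εM εH a : ℝ) (hη : 0 < η) (hεM : 0 < εM)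
    (hεH : 0 < εH) (ha0 : 0 ≤ a) (ha : 100000 * a ≤ η * εM ^ 3)
    (N : Num D (Fintype.card β) η εM εH a) (r : ℕ) (hr : (0.995 : ℝ) ^ r ≤ 0.005)
    (hexp : 9 * (Fintype.card β : ℝ) ^ 2 + (Fintype.card β : ℝ) ^ r
      < Real.exp ((η * εH / 100) ^ 2 * Fintype.card β / 4)) :
    Nonempty (Parts D H) := by
  obtain ⟨n, hn⟩ : ∃ n : ℝ, n = (Fintype.card β : ℝ) := ⟨_, rfl⟩
  have hn1 : 1 ≤ n := by rw [hn]; exact_mod_cast Host.card_pos u
  have hn0 : 0 < n := by linarith
  obtain ⟨m, hm⟩ : ∃ m : ℝ, m = ((D.Ro 2).card : ℝ) := ⟨_, rfl⟩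
  have hS := N.hS
  have hG := N.hG
  have hZ1 := N.hZ1
  have hZ2 := N.hZ2
  have hC := N.hC
  have hCm := N.hCm
  rw [← hn] at hS hG hZ1 hZ2 hC hCm hexp
  rw [← hm] at hZ1 hZ2
  have hηn : 0 < η * n := mul_pos hη hn0
  have hm0 : 0 < m := by linarith
  have hη1 : η ≤ 1 / 5000000 := by
    by_contra h
    push Not at h
    nlinarith
  have hZpos : 0 < (D.Ro 2).card := by rw [hm] at hm0; exact_mod_cast hm0
  have hCn : ∀ x, ((D.C x).card : ℝ) ≤ n := fun x => by
    rw [hn, ← hcard]; exact_mod_cast card_le_univ _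
  have hεH1 : εH ≤ 1 := by
    obtain ⟨z, hz⟩ := card_pos.1 hZpos
    have := (hC z (D.mem_Ro.1 hz).1).trans (hCn z)
    by_contra h
    push Not at h
    nlinarith
  obtain ⟨δ, hδ⟩ : ∃ δ : ℝ, δ = η * εH / 100 := ⟨_, rfl⟩
  rw [← hδ] at hexp
  have hδ0 : 0 < δ := by rw [hδ]; positivity
  have hδη : δ ≤ η / 100 := by
    rw [hδ]; have := mul_le_of_le_one_right hη.le hεH1; linarith
  obtain ⟨dev, hdev⟩ : ∃ dev : ℝ, dev = δ * n := ⟨_, rfl⟩
  have hdev0 : 0 < dev := by rw [hdev]; positivity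
  have hdev1 : dev ≤ η * n / 100 := by
    rw [hdev]; have := mul_le_mul_of_nonneg_right hδη hn0.le; linarith
  have hdev2 : ∀ x ∈ D.U, dev ≤ η * (D.C x).card / 100 := fun x hx => by
    have := mul_le_mul_of_nonneg_left (hC x hx) hη.le
    rw [hdev, hδ]; linarith
  have hdev3 : ∀ x ∈ D.U, η * (D.C x).card ≤ (D.C x).card / 5000000 := fun x hx => by
    have := mul_le_mul_of_nonneg_right hη1 (Nat.cast_nonneg (α := ℝ) (D.C x).card)
    linarith
  have hηn1 : η * n ≤ n / 5000000 := by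
    have := mul_le_mul_of_nonneg_right hη1 hn0.le
    linarith
  have hexp' : ∀ (k : ℕ) (c : ℝ), (k : ℝ) ≤ n → c ≤ 9 * n ^ 2 + n ^ r →
      c < Real.exp (δ / 2 * dev - (δ / 2) ^ 2 * k) := by
    intro k c hk hc
    refine lt_of_le_of_lt hc (lt_of_lt_of_le hexp (Real.exp_le_exp.2 ?_))
    rw [hdev]
    nlinarith [mul_le_mul_of_nonneg_left hk (sq_nonneg δ)]
  have hl0 : 0 < δ / 2 := by linarith
  have hl1 : δ / 2 ≤ 1 := by linarith
  -- the separator
  obtain ⟨t, φ, kind, nru, htS, hinj, hφt, hedge, hk, hk1, hk03, hk3, hnru, hM0, hM, hcut, hbad⟩ :=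
    stage1 D H u hu hcard a ha0 (by
      have : (1000 : ℝ) * D.S.card ≤ n := by linarith
      rw [hn] at this
      exact_mod_cast this) hZpos N.hbulk N.hmed
  rw [← hn] at hcut hbad
  -- the pairs
  have hXm : ((D.Ro 1).card : ℝ) ≤ m := by rw [hm]; exact_mod_cast D.card_X_le
  have hFc : (D.S.image φ).card = D.S.card := card_image_of_injOn hinj
  obtain ⟨pa, pb, hai, hbi, hab, hF, hpt, hpW⟩ := pairs H (D.Ro 1) D.lab (D.S.image φ) D.b1 (!D.b2) r
    (δ / 2) dev u (by
      rw [hFc]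
      have : (500 : ℝ) * (D.S.card + 2 * (D.Ro 1).card) ≤ n := by linarith
      rw [hn] at this
      exact_mod_cast this) hl0 hl1 (by
      rw [← hn]
      refine hexp' _ _ (by linarith) ?_
      have : ((D.Ro 1).card : ℝ) * n ≤ n * n := mul_le_mul_of_nonneg_right (by linarith) hn0.le
      have e1 := mul_pos hn0 hn0
      linarith)
  have hCX : ∀ x0 ∈ D.Ro 1, ((D.Ro 1).filter fun x => D.lab x = D.lab x0) = D.C x0 := by
    intro x0 hx0
    obtain ⟨h1, h2⟩ := D.mem_Ro.1 hx0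
    ext x
    simp only [mem_filter, D.mem_Ro, D.mem_C]
    exact ⟨fun h => ⟨h.1.1, h.2⟩, fun h => ⟨⟨h.1, D.l_role x h.1 x0 h1 h.2 ▸ h2⟩, h.2⟩⟩
  set V0 : Finset β := univ \ (D.S.image φ ∪ (D.Ro 1).image pa ∪ (D.Ro 1).image pb) with hV0
  obtain ⟨N0, hN0⟩ : ∃ N0 : ℝ, N0 = (V0.card : ℝ) := ⟨_, rfl⟩
  have hV0c : N0 + D.S.card + 2 * (D.Ro 1).card = n := by
    have e : V0.card + (D.S.card + (D.Ro 1).card + (D.Ro 1).card) = Fintype.card β := by
      rw [← card_univ, ← card_sdiff_add_card_eq_card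
        (subset_univ (D.S.image φ ∪ (D.Ro 1).image pa ∪ (D.Ro 1).image pb)), card_union_of_disjoint,
        card_union_of_disjoint, hFc, card_image_of_injOn hai, card_image_of_injOn hbi]
      · rw [disjoint_right]
        intro v hv
        obtain ⟨x, hx, rfl⟩ := mem_image.1 hv
        exact (hF x hx).1
      · rw [disjoint_right]
        intro v hv hv'
        obtain ⟨x, hx, rfl⟩ := mem_image.1 hv
        rcases mem_union.1 hv' with h | h
        · exact (hF x hx).2 h
        · obtain ⟨x', hx', e⟩ := mem_image.1 h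
          exact hab x' hx' x hx e
    have e' : (V0.card : ℝ) + (D.S.card + (D.Ro 1).card + (D.Ro 1).card) = Fintype.card β := by
      exact_mod_cast e
    rw [hN0, hn]; linarith
  have hS0 : (0 : ℝ) ≤ D.S.card := Nat.cast_nonneg _
  have hX0 : (0 : ℝ) ≤ (D.Ro 1).card := Nat.cast_nonneg _
  have hG0 : (0 : ℝ) ≤ D.G.card := Nat.cast_nonneg _
  have hN0n : 0.999 * n ≤ N0 := by linarith
  have hN0n' : N0 ≤ n := by linarith
  have hN0p : 0 < N0 := by linarith
  have hnon : ∀ b w, ((H.non b w).card : ℝ) ≤ 0.334 * N0 := fun b w => by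
    have := H.card_non b w
    rw [← hn] at this
    linarith
  -- the plan
  obtain ⟨κ, hκ⟩ : ∃ κ : ℝ, κ * N0 = (1 + η) * (D.Ro 0).card :=
    ⟨(1 + η) * (D.Ro 0).card / N0, by field_simp⟩
  obtain ⟨ω, hω0, hω1, hω2, hω3, hω4⟩ := plan (D.Ro 0) kind hk V0
    (fun y => H.non (T.dir y) (φ (T.p y))) nru (1 + η) κ (by linarith)
    (by rw [hN0] at hN0p; exact_mod_cast hN0p) hnru (fun x => hN0 ▸ hnon _ _) hM0 hM (hN0 ▸ hκ)
    (hcut V0 (by rw [← hN0]; linarith))
  rw [← hN0] at hω4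
  obtain ⟨ν, hν⟩ : ∃ ν : ℝ, ν = 1 - η - κ := ⟨_, rfl⟩
  have htot : n = D.S.card + D.G.card + ((D.Ro 0).card + (D.Ro 1).card + m + (D.Ro 1).card) := by
    have := D.card_total
    rw [← D.card_XY, hcard] at this
    rw [hn, hm]
    exact_mod_cast this
  have hNm : ((D.Ro 0).card : ℝ) ≤ n := by linarith
  have hNm0 : (0 : ℝ) ≤ (D.Ro 0).card := Nat.cast_nonneg _
  have hνN : ν * N0 = D.G.card + m - η * N0 - η * (D.Ro 0).card := by
    rw [hν, sub_mul, hκ]; linarith
  have hν1 : 0.998 * m ≤ ν * N0 := by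
    have e1 := mul_le_mul_of_nonneg_left hN0n' hη.le
    have e2 := mul_le_mul_of_nonneg_left hNm hη.le
    linarith
  have hν2 : ν * N0 ≤ m := by
    have e1 := mul_le_mul_of_nonneg_left hN0n hη.le
    have e2 := mul_nonneg hη.le hNm0
    linarith
  have hν0 : 0 ≤ ν := (mul_nonneg_iff_of_pos_right hN0p).1 (by linarith)
  let W : β → α ⊕ Bool → ℝ := fun v o =>
    match o with
    | Sum.inl x => if x ∈ D.Ro 0 then ω v x else 0
    | Sum.inr c => if c then η else ν
  let Zn : α ⊕ Bool → Finset (α ⊕ Bool) := fun i =>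
    match i with
    | Sum.inl x => (D.C x).map Function.Embedding.inl
    | Sum.inr c => {Sum.inr c}
  obtain ⟨g, hg1, hg2, hg3⟩ := rounding V0 (Sum.inr true) W
    (by
      rintro v (x | c) <;> simp only [W] <;> split_ifs
      · exact hω0 v x
      · exact le_rfl
      · exact hη.le
      · exact hν0)
    (by
      intro v hv
      rw [Fintype.sum_sum_type]
      simp only [W, sum_ite_mem_eq, hω1 v hv]
      simp [hν]
      ring)
    Zn (fun k : β × Bool => H.non k.2 k.1) (δ / 2) dev hl0 hl1 (by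
      refine hexp' _ _ (hN0 ▸ hN0n') ?_
      simp only [Fintype.card_sum, Fintype.card_bool, Fintype.card_prod, hcard]
      push_cast
      rw [← hn]
      have : 0 ≤ n ^ r := by positivity
      have e1 : n * 1 ≤ n * n := mul_le_mul_of_nonneg_left hn1 hn0.le
      linarith)
  have hgN : ∀ v ∈ V0, ∀ x, g v = Sum.inl x → x ∈ D.Ro 0 ∧ 0 < ω v x := by
    intro v hv x e
    have := hg1 v hv
    rw [e] at this
    simp only [W] at this
    split_ifs at this with h
    · exact ⟨h, this⟩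
    · exact absurd this (lt_irrefl _)
  have hZsum : ∀ x0 ∈ D.Ro 0, ∀ Q : Finset β, ∑ v ∈ Q, ∑ o ∈ Zn (Sum.inl x0), W v o
      = ∑ x ∈ D.C x0, ∑ v ∈ Q, ω v x := by
    intro x0 hx0 Q
    rw [sum_comm]
    simp only [Zn, sum_map]
    refine sum_congr rfl fun x hx => sum_congr rfl fun v _ => ?_
    have := D.C_sub (D.mem_Ro.1 hx0).1 hx
    rw [(D.mem_Ro.1 hx0).2] at this
    simp [W, this]
  -- the colouring
  have : Nonempty α := ⟨T.r⟩
  let ainv : β → α := Function.invFunOn pa (D.Ro 1)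
  have hainv : ∀ x ∈ D.Ro 1, ainv (pa x) = x := fun x hx => hai.leftInvOn_invFunOn hx
  let gz : α ⊕ Bool → Λ ⊕ ℕ := fun o =>
    match o with
    | Sum.inl x => Sum.inl (D.lab x)
    | Sum.inr c => Sum.inr (if c then 1 else 2)
  let o : β → Λ ⊕ ℕ := fun v => if v ∈ D.S.image φ then Sum.inr 0 else
    if v ∈ (D.Ro 1).image pb then Sum.inr 3 else
    if v ∈ (D.Ro 1).image pa then Sum.inl (D.lab (ainv v)) else gz (g v)
  have o1 : ∀ s ∈ D.S, o (φ s) = Sum.inr 0 := fun s hs => by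
    simp only [o, mem_image_of_mem φ hs, if_true]
  have o2 : ∀ x ∈ D.Ro 1, o (pb x) = Sum.inr 3 := fun x hx => by
    simp only [o, (hF x hx).2, mem_image_of_mem pb hx, if_true, if_false]
  have o3 : ∀ x ∈ D.Ro 1, o (pa x) = Sum.inl (D.lab x) := fun x hx => by
    have : pa x ∉ (D.Ro 1).image pb := fun h => by
      obtain ⟨x', hx', e⟩ := mem_image.1 h
      exact hab x hx x' hx' e.symm
    simp only [o, (hF x hx).1, this, mem_image_of_mem pa hx, if_true, if_false, hainv x hx]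
  have o4 : ∀ v ∈ V0, o v = gz (g v) := fun v hv => by
    have := (mem_sdiff.1 hv).2
    simp only [mem_union, not_or] at this
    simp only [o, this.1.1, this.1.2, this.2, if_false]
  have ocov : ∀ v, v ∈ V0 ∨ (∃ s ∈ D.S, φ s = v) ∨ (∃ x ∈ D.Ro 1, pa x = v) ∨ ∃ x ∈ D.Ro 1, pb x = v := by
    intro v
    by_cases h : v ∈ V0
    · exact Or.inl h
    · simp only [hV0, mem_sdiff, mem_univ, true_and, mem_union, mem_image, not_not, or_assoc] at h
      exact Or.inr h
  have F0 : ∀ x0 ∈ D.Ro 0, fib o (Sum.inl (D.lab x0)) = V0.filter fun v => g v ∈ Zn (Sum.inl x0) := by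
    intro x0 hx0
    obtain ⟨h1, h2⟩ := D.mem_Ro.1 hx0
    ext v
    rw [mem_fib, mem_filter]
    constructor
    · intro h
      rcases ocov v with hv | ⟨s, hs, rfl⟩ | ⟨x, hx, rfl⟩ | ⟨x, hx, rfl⟩
      · refine ⟨hv, ?_⟩
        rw [o4 v hv] at h
        rcases e : g v with x | c
        · rw [e] at h
          simp only [gz, Sum.inl.injEq] at h
          simp only [Zn, mem_map]
          exact ⟨x, D.mem_C.2 ⟨(D.mem_Ro.1 (hgN v hv x e).1).1, h⟩, rfl⟩
        · rw [e] at h
          simp [gz] at h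
      · rw [o1 s hs] at h; simp at h
      · rw [o3 x hx] at h
        have := D.l_role x (D.mem_Ro.1 hx).1 x0 h1 (Sum.inl.inj h)
        rw [(D.mem_Ro.1 hx).2, h2] at this
        omega
      · rw [o2 x hx] at h; simp at h
    · rintro ⟨hv, h⟩
      simp only [Zn, mem_map] at h
      obtain ⟨x, hx, e⟩ := h
      rw [o4 v hv, ← e]
      simp [gz, (D.mem_C.1 hx).2]
  have F1 : ∀ x0 ∈ D.Ro 1, fib o (Sum.inl (D.lab x0)) = (D.C x0).image pa := by
    intro x0 hx0
    obtain ⟨h1, h2⟩ := D.mem_Ro.1 hx0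
    ext v
    rw [mem_fib, mem_image]
    constructor
    · intro h
      rcases ocov v with hv | ⟨s, hs, rfl⟩ | ⟨x, hx, rfl⟩ | ⟨x, hx, rfl⟩
      · rw [o4 v hv] at h
        rcases e : g v with x | c
        · rw [e] at h
          simp only [gz, Sum.inl.injEq] at h
          have h3 := D.mem_Ro.1 (hgN v hv x e).1
          have := D.l_role x h3.1 x0 h1 h
          omega
        · rw [e] at h
          simp [gz] at h
      · rw [o1 s hs] at h; simp at h
      · rw [o3 x hx] at h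
        exact ⟨x, D.mem_C.2 ⟨(D.mem_Ro.1 hx).1, Sum.inl.inj h⟩, rfl⟩
      · rw [o2 x hx] at h; simp at h
    · rintro ⟨x, hx, rfl⟩
      have := D.C_sub h1 hx
      rw [h2] at this
      rw [o3 x this, (D.mem_C.1 hx).2]
  have F2 : ∀ c : Bool, fib o (Sum.inr (if c then 1 else 2)) = V0.filter fun v => g v ∈ Zn (Sum.inr c) := by
    intro c
    ext v
    rw [mem_fib, mem_filter]
    constructor
    · intro h
      rcases ocov v with hv | ⟨s, hs, rfl⟩ | ⟨x, hx, rfl⟩ | ⟨x, hx, rfl⟩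
      · refine ⟨hv, ?_⟩
        rw [o4 v hv] at h
        rcases e : g v with x | c'
        · rw [e] at h
          simp [gz] at h
        · rw [e] at h
          cases c <;> cases c' <;> simp [gz, Zn] at h ⊢
      · rw [o1 s hs] at h; cases c <;> simp at h
      · rw [o3 x hx] at h; simp at h
      · rw [o2 x hx] at h; cases c <;> simp at h
    · rintro ⟨hv, h⟩
      simp only [Zn, mem_singleton] at h
      rw [o4 v hv, h]
  have hsubX : ∀ x0 ∈ D.Ro 1, D.C x0 ⊆ D.Ro 1 := fun x0 hx0 => by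
    have := D.C_sub (D.mem_Ro.1 hx0).1
    rwa [(D.mem_Ro.1 hx0).2] at this
  have hsub0 : ∀ x0 ∈ D.Ro 0, D.C x0 ⊆ D.Ro 0 := fun x0 hx0 => by
    have := D.C_sub (D.mem_Ro.1 hx0).1
    rwa [(D.mem_Ro.1 hx0).2] at this
  have F1c : ∀ x0 ∈ D.Ro 1, (fib o (Sum.inl (D.lab x0))).card = (D.C x0).card := fun x0 hx0 => by
    rw [F1 x0 hx0, card_image_of_injOn (hai.mono (hsubX x0 hx0))]
  have size0 : ∀ x0 ∈ D.Ro 0, (1 + η) * (D.C x0).card - dev ≤ (fib o (Sum.inl (D.lab x0))).card := by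
    intro x0 hx0
    have := hg2 (Sum.inl x0)
    rw [hZsum x0 hx0, sum_congr rfl fun x hx => hω2 x (hsub0 x0 hx0 hx), sum_const, nsmul_eq_mul] at this
    rw [F0 x0 hx0]
    linarith
  have non0 : ∀ x0 ∈ D.Ro 0, ∀ c : ℝ, ∀ w b, (∀ x ∈ D.C x0, ∑ v ∈ V0 ∩ H.non b w, ω v x ≤ c) →
      ((fib o (Sum.inl (D.lab x0)) ∩ H.non b w).card : ℝ) ≤ c * (D.C x0).card + dev := by
    intro x0 hx0 c w b h
    have := hg3 (Sum.inl x0) (w, b)
    rw [hZsum x0 hx0] at this
    dsimp only at this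
    have e := sum_le_sum h
    rw [sum_const, nsmul_eq_mul] at e
    rw [F0 x0 hx0]
    linarith
  have sizeR : ∀ c : Bool, (if c then η else ν) * N0 - dev
      ≤ (fib o (Sum.inr (if c then 1 else 2))).card := by
    intro c
    have := hg2 (Sum.inr c)
    simp only [Zn, sum_singleton, W, sum_const, nsmul_eq_mul] at this
    rw [F2 c, hN0, mul_comm]
    exact this
  have nonR : ∀ c : Bool, ∀ w b, ((fib o (Sum.inr (if c then 1 else 2)) ∩ H.non b w).card : ℝ)
      ≤ (if c then η else ν) * (0.334 * N0) + dev := by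
    intro c w b
    have := hg3 (Sum.inr c) (w, b)
    simp only [Zn, sum_singleton, W, sum_const, nsmul_eq_mul] at this
    rw [F2 c]
    refine this.trans (add_le_add ?_ le_rfl)
    rw [mul_comm]
    refine mul_le_mul_of_nonneg_left (le_trans ?_ (hnon b w)) (by split_ifs; exact hη.le; exact hν0)
    exact_mod_cast card_le_card inter_subset_right
  have hz1 : 0.99 * m ≤ (fib o (Sum.inr 2)).card := by
    have := sizeR false
    simp only [Bool.false_eq_true, if_false] at this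
    linarith
  have hz2 : ∀ w b, ((fib o (Sum.inr 2) ∩ H.non b w).card : ℝ) ≤ 0.335 * m := by
    intro w b
    have := nonR false w b
    simp only [Bool.false_eq_true, if_false] at this
    linarith
  refine ⟨⟨φ, o, fun v => pb (ainv v), o1, hinj, hedge, ?_, ?_, ?_, ?_, ?_, ?_, ?_, ?_, ?_, hm ▸ hz1,
    hm ▸ hz2, ?_⟩⟩
  · intro x hx h1 v hv
    have hx' := D.mem_Ro.2 ⟨hx, h1⟩
    rw [← mem_fib, F1 x hx'] at hv
    obtain ⟨y, hy, rfl⟩ := mem_image.1 hv
    rw [hainv y (hsubX x hx' hy)]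
    exact o2 y (hsubX x hx' hy)
  · intro x hx h1 x' hx' h1' v v' hv hv' e
    have k := D.mem_Ro.2 ⟨hx, h1⟩
    have k' := D.mem_Ro.2 ⟨hx', h1'⟩
    rw [← mem_fib, F1 x k] at hv
    rw [← mem_fib, F1 x' k'] at hv'
    obtain ⟨y, hy, rfl⟩ := mem_image.1 hv
    obtain ⟨y', hy', rfl⟩ := mem_image.1 hv'
    rw [hainv y (hsubX x k hy), hainv y' (hsubX x' k' hy')] at e
    rw [hbi (hsubX x k hy) (hsubX x' k' hy') e]
  · intro x hx h1
    by_cases h0 : D.role x = 0
    · have e1 := size0 x (D.mem_Ro.2 ⟨hx, h0⟩)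
      have e2 := hdev2 x hx
      have e3 : ((D.C x).card : ℝ) ≤ (fib o (Sum.inl (D.lab x))).card := by linarith
      exact_mod_cast e3
    · exact (F1c x (D.mem_Ro.2 ⟨hx, by omega⟩)).ge
  · intro x hx hp h0 w b
    have k := D.mem_Ro.2 ⟨hp, h0⟩
    have e1 := non0 _ k ((1 + η) * 0.5016) w b fun y hy => by
      obtain ⟨h1, h2⟩ := D.mem_C.1 hy
      obtain ⟨c, hc, hc', -⟩ := D.l_surj x hx hp y h1 h2
      have e := hω4 y (hsub0 _ k hy) (H.non b w) (hnon b w)
      rcases hk03 y ⟨c, hc, hc'⟩ with h | h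
      · exact e.1 h
      · have := e.2 h
        linarith
    have e2 := hdev2 _ hp
    have e3 := hdev3 _ hp
    linarith
  · intro x hx h1 w b
    have k := D.mem_Ro.2 ⟨hx, h1⟩
    have e1 := (hpt x k w b).2
    rw [hCX x k] at e1
    have e2 := hdev2 _ hx
    have e3 := hdev3 _ hx
    have e4 : ((fib o (Sum.inl (D.lab x))).filter fun v => pb (ainv v) ∈ H.non b w).card
        ≤ ((D.Ro 1).filter fun y => D.lab y = D.lab x ∧ pb y ∈ H.non b w).card := by
      refine card_le_card_of_surjOn pa ?_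
      intro v hv
      obtain ⟨h2, h3⟩ := mem_filter.1 (mem_coe.1 hv)
      rw [F1 x k] at h2
      obtain ⟨y, hy, rfl⟩ := mem_image.1 h2
      rw [hainv y (hsubX x k hy)] at h3
      exact ⟨y, mem_coe.2 (mem_filter.2 ⟨hsubX x k hy, (D.mem_C.1 hy).2, h3⟩), rfl⟩
    have e5 : (((fib o (Sum.inl (D.lab x))).filter fun v => pb (ainv v) ∈ H.non b w).card : ℝ)
        ≤ ((D.Ro 1).filter fun y => D.lab y = D.lab x ∧ pb y ∈ H.non b w).card := by
      exact_mod_cast e4
    have e6 : (0 : ℝ) ≤ (D.C x).card := Nat.cast_nonneg _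
    linarith
  · intro x hx h1 hH w b
    have e2 := hdev2 _ hx
    have e3 := hdev3 _ hx
    have e6 : (0 : ℝ) ≤ (D.C x).card := Nat.cast_nonneg _
    by_cases h0 : D.role x = 0
    · have k := D.mem_Ro.2 ⟨hx, h0⟩
      have e1 := non0 _ k ((1 + η) * 0.495) w b fun y hy => by
        obtain ⟨h1, h2⟩ := D.mem_C.1 hy
        exact (hω4 y (hsub0 _ k hy) (H.non b w) (hnon b w)).2
          (hk3 y fun h => hH (D.l_hub y h1 x hx h2 h ▸ h))
      have e4 := size0 x k
      have e5 := mul_nonneg hη.le e6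
      linarith
    · have k : x ∈ D.Ro 1 := D.mem_Ro.2 ⟨hx, by omega⟩
      have e1 := (hpt x k w b).1
      rw [hCX x k] at e1
      have e4 : (fib o (Sum.inl (D.lab x)) ∩ H.non b w).card
          ≤ ((D.Ro 1).filter fun y => D.lab y = D.lab x ∧ pa y ∈ H.non b w).card := by
        refine card_le_card_of_surjOn pa ?_
        intro v hv
        obtain ⟨h2, h3⟩ := mem_inter.1 (mem_coe.1 hv)
        rw [F1 x k] at h2
        obtain ⟨y, hy, rfl⟩ := mem_image.1 h2
        exact ⟨y, mem_coe.2 (mem_filter.2 ⟨hsubX x k hy, (D.mem_C.1 hy).2, h3⟩), rfl⟩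
      have e5 : ((fib o (Sum.inl (D.lab x)) ∩ H.non b w).card : ℝ)
          ≤ ((D.Ro 1).filter fun y => D.lab y = D.lab x ∧ pa y ∈ H.non b w).card := by
        exact_mod_cast e4
      rw [F1c x k]
      linarith
  · intro x hx hH v hv
    have k := D.mem_Ro.2 ⟨hx, D.role_zero hx (D.dSU _ (D.Hv_sub hH))⟩
    rw [← mem_fib, F0 x k] at hv
    obtain ⟨hv, h⟩ := mem_filter.1 hv
    simp only [Zn, mem_map] at h
    obtain ⟨y, hy, e⟩ := h
    obtain ⟨h1, h2⟩ := D.mem_C.1 hy
    have e1 := D.l_hub x hx y h1 h2.symm hH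
    by_cases ht : T.p x = t
    · rw [ht, hφt]
      apply hu
      rintro rfl
      exact (mem_sdiff.1 hv).2 (mem_union_left _ (mem_union_left _ (mem_image.2 ⟨t, htS, hφt⟩)))
    · have := hω3 v y (hk1 y (e1 ▸ hH) (e1 ▸ ht)) (hgN v hv y e.symm).2
      rw [H.mem_non, not_not, e1, D.l_dir y h1 x hx h2] at this
      exact this
  · intro x hx h1 h2
    have k := D.mem_Ro.2 ⟨hx, D.role_zero hx (D.dSU _ h1)⟩
    have e1 := size0 x k
    have e2 := hdev2 x hx
    have e3 := hCm x hx h1 h2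
    obtain ⟨Nx, hNx⟩ : ∃ Nx : ℝ, Nx = ((D.C x).card : ℝ) := ⟨_, rfl⟩
    have e4 := hbad x hx h1 h2 (0.002 * (D.C x).card) (by positivity)
    rw [show 0.501 * ((D.C x).card : ℝ) + 0.002 * (D.C x).card = 0.503 * (D.C x).card by ring] at e4
    set Bd := (univ.filter fun v => 0.503 * ((D.C x).card : ℝ)
      < ((D.C x).filter fun y => ¬ H.R (T.dir y) (φ (T.p y)) v).card) with hBd
    rw [← hNx] at e1 e2 e3 e4
    have hNx0 : 0 < Nx := lt_of_lt_of_le (by positivity) e3
    have e5 : (εM * n) ^ 3 ≤ Nx ^ 3 := pow_le_pow_left₀ (by positivity) e3 3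
    have e6 : 100000 * a * n ^ 3 ≤ η * Nx ^ 3 := by
      calc _ ≤ η * εM ^ 3 * n ^ 3 := mul_le_mul_of_nonneg_right ha (by positivity)
        _ = η * (εM * n) ^ 3 := by ring
        _ ≤ _ := mul_le_mul_of_nonneg_left e5 hη.le
    have e7 : (Bd.card : ℝ) ≤ η * Nx / 2 := by
      by_contra h
      push Not at h
      have := mul_lt_mul_of_pos_right h (show 0 < (0.002 * Nx) ^ 2 by positivity)
      have h3 : 0 < η * Nx ^ 3 := by positivity
      linarith
    have e8 : (Bd.card : ℝ) + (D.C x).card ≤ (fib o (Sum.inl (D.lab x))).card := by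
      rw [← hNx]
      have := mul_pos hη hNx0
      linarith
    exact_mod_cast e8
  · intro w w' b b'
    have e1 := sizeR true
    have e2 := nonR true w b
    have e3 := nonR true w' b'
    simp only [if_true] at e1 e2 e3
    have e4 := mul_le_mul_of_nonneg_left hN0n hη.le
    have e5 : (D.G.card : ℝ) + (fib o (Sum.inr 1) ∩ H.non b w).card
      + (fib o (Sum.inr 1) ∩ H.non b' w').card ≤ (fib o (Sum.inr 1)).card := by linarith
    exact_mod_cast e5
  · intro _ L hL1 hL2 P hP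
    refine final_pairs H D.b1 (!D.b2) r hr ((D.Ro 1).image pa) (fun v => pb (ainv v))
      (fib o (Sum.inr 2)) L m ?_ (by rw [hL2, hm]) hL1 hz1 hz2 ?_ P ?_
    · rw [card_image_of_injOn hai]; exact hXm
    · intro W'
      have e1 := hpW W'
      have e2 : (((D.Ro 1).image pa).filter fun v => H.miss D.b1 (!D.b2) W' v (pb (ainv v))).card
          ≤ ((D.Ro 1).filter fun x => H.miss D.b1 (!D.b2) W' (pa x) (pb x)).card := by
        refine card_le_card_of_surjOn pa ?_
        intro v hv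
        obtain ⟨h2, h3⟩ := mem_filter.1 (mem_coe.1 hv)
        obtain ⟨y, hy, rfl⟩ := mem_image.1 h2
        rw [hainv y hy] at h3
        exact ⟨y, mem_coe.2 (mem_filter.2 ⟨hy, h3⟩), rfl⟩
      have e3 : ((((D.Ro 1).image pa).filter
          fun v => H.miss D.b1 (!D.b2) W' v (pb (ainv v))).card : ℝ)
          ≤ ((D.Ro 1).filter fun x => H.miss D.b1 (!D.b2) W' (pa x) (pb x)).card := by
        exact_mod_cast e2
      have e4 : (0 : ℝ) ≤ (H.cnt D.b1 (!D.b2) W' : ℝ) / (Fintype.card β : ℝ) ^ 2 + 0.005 := by positivity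
      have e5 := mul_le_mul_of_nonneg_left hXm e4
      linarith
    · intro v hv
      obtain ⟨x, hx, h1, h2⟩ := hP v hv
      have k := D.mem_Ro.2 ⟨hx, h1⟩
      rw [← mem_fib, F1 x k] at h2
      exact image_subset_image (hsubX x k) h2

end Pool.Agent.MP_6f6f6b_co

end MrgPart2

-- ======== part 3: formerly Pool.Agent.MP_6f6f6b_co.Embed
section MrgPart3

set_option autoImplicit false
set_option linter.unusedVariables false
set_option linter.unusedSectionVars false

open Finset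
open scoped Classical

namespace Pool.Agent.MP_6f6f6b_co

variable {α β Λ : Type} [Fintype α] [Fintype β] {T : RTree α} {D : LD T Λ} {H : Host β}

/-- The state of the level by level embedding. -/
structure Lev (P : Parts D H) (d : ℕ) (ψ : α → β) : Prop where
  onS : ∀ s ∈ D.S, ψ s = P.φ s
  zone : ∀ x ∈ D.U, D.rk (D.lab x) < d → D.role x ≤ 1 → P.o (ψ x) = Sum.inl (D.lab x)
  edge : ∀ x ∈ D.U, D.rk (D.lab x) < d → D.role x ≤ 1 → T.p x ∉ D.G →
    H.R (T.dir x) (ψ (T.p x)) (ψ x)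
  inj : ∀ x ∈ D.U, ∀ y ∈ D.U, D.rk (D.lab x) < d → D.role x ≤ 1 → D.lab x = D.lab y →
    ψ x = ψ y → x = y
  onY : ∀ y ∈ D.U, D.rk (D.lab y) < d → D.role y = 3 → ψ y = P.σ (ψ (T.p (T.p y)))

theorem LD.y_gp (D : LD T Λ) {y : α} (hy : y ∈ D.U) (h : D.role y = 3) :
    T.p y ∈ D.U ∧ T.p (T.p y) ∈ D.U ∧ D.role (T.p (T.p y)) = 1 := by
  obtain ⟨h1, h2, h3, -⟩ := D.y_par y hy h
  obtain ⟨h4, h5, -⟩ := D.z_par _ h2 h3
  rw [h1] at h5
  exact ⟨h2, h4, h5⟩

theorem inner_count (P : Parts D H) {d : ℕ} {ψ : α → β} (L : Lev P d ψ) {x0 : α} (hx : x0 ∈ D.U)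
    (hp : T.p x0 ∈ D.U) (hd : D.rk (D.lab (T.p x0)) < d)
    (hrole : D.role (T.p x0) = 0 ∨ D.role (T.p x0) = 3) (w : β) :
    (((D.C x0).filter fun x => ¬ H.R (T.dir x) (ψ (T.p x)) w).card : ℝ) ≤ 0.503 * (D.C x0).card := by
  rcases hrole with h0 | h3
  · have := P.pb x0 hx hp h0 w (!T.dir x0)
    rw [D.C_par hx hp] at this
    refine le_trans ?_ this
    rw [Nat.cast_le]
    refine card_le_card_of_injOn (fun x => ψ (T.p x)) ?_ ?_
    · intro x hx'
      obtain ⟨h1, h2⟩ := mem_filter.1 (mem_coe.1 hx')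
      obtain ⟨h3, h4⟩ := D.mem_C.1 h1
      obtain ⟨h5, h6⟩ := D.l_in x0 hx x h3 h4.symm hp
      simp only [coe_inter, Set.mem_inter_iff, mem_coe, mem_fib, H.mem_non']
      refine ⟨?_, ?_⟩
      · rw [h6]
        exact L.zone _ h5 (h6 ▸ hd) (by rw [← D.l_role _ hp _ h5 h6]; omega)
      · rw [D.l_dir x0 hx x h3 h4.symm]; exact h2
    · intro x hx' y hy' h
      obtain ⟨h3, h4⟩ := D.mem_C.1 (mem_filter.1 (mem_coe.1 hx')).1
      obtain ⟨h3', h4'⟩ := D.mem_C.1 (mem_filter.1 (mem_coe.1 hy')).1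
      obtain ⟨h5, h6⟩ := D.l_in x0 hx x h3 h4.symm hp
      obtain ⟨h5', h6'⟩ := D.l_in x0 hx y h3' h4'.symm hp
      refine D.l_inj x h3 y h3' (h4.trans h4'.symm) h5 ?_
      exact L.inj _ h5 _ h5' (h6 ▸ hd) (by rw [← D.l_role _ hp _ h5 h6]; omega)
        (h6.symm.trans h6') h
  · obtain ⟨q1, q2, q3⟩ := D.y_gp hp h3
    have := P.pb' _ q2 q3 w (!T.dir x0)
    rw [D.C_par q1 q2, D.C_par hp q1, D.C_par hx hp] at this
    refine le_trans ?_ this
    rw [Nat.cast_le]
    have r1 := D.l_rk _ hp q1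
    have r2 := D.l_rk _ q1 q2
    have key : ∀ x ∈ D.C x0, x ∈ D.U ∧ T.p x ∈ D.U ∧ T.p (T.p x) ∈ D.U ∧ T.p (T.p (T.p x)) ∈ D.U ∧
        D.lab x0 = D.lab x ∧ D.lab (T.p x0) = D.lab (T.p x) ∧
        D.lab (T.p (T.p x0)) = D.lab (T.p (T.p x)) ∧
        D.lab (T.p (T.p (T.p x0))) = D.lab (T.p (T.p (T.p x))) := by
      intro x hx'
      obtain ⟨h3, h4⟩ := D.mem_C.1 hx'
      obtain ⟨h5, h6⟩ := D.l_in x0 hx x h3 h4.symm hp
      obtain ⟨h7, h8⟩ := D.l_in _ hp _ h5 h6 q1
      obtain ⟨h9, h10⟩ := D.l_in _ q1 _ h7 h8 q2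
      exact ⟨h3, h5, h7, h9, h4.symm, h6, h8, h10⟩
    refine card_le_card_of_injOn (fun x => ψ (T.p (T.p (T.p x)))) ?_ ?_
    · intro x hx'
      obtain ⟨h1, h2⟩ := mem_filter.1 (mem_coe.1 hx')
      obtain ⟨k1, k2, k3, k4, k5, k6, k7, k8⟩ := key x h1
      simp only [coe_filter, Set.mem_ofPred_eq, mem_fib, H.mem_non']
      refine ⟨?_, ?_⟩
      · rw [k8]
        exact L.zone _ k4 (by rw [← k8]; omega) (by rw [← D.l_role _ q2 _ k4 k8]; omega)
      · rw [← L.onY _ k2 (k6 ▸ hd) (by rw [← D.l_role _ hp _ k2 k6]; exact h3),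
          D.l_dir x0 hx x k1 k5]
        exact h2
    · intro x hx' y hy' h
      obtain ⟨k1, k2, k3, k4, k5, k6, k7, k8⟩ := key x (mem_filter.1 (mem_coe.1 hx')).1
      obtain ⟨j1, j2, j3, j4, j5, j6, j7, j8⟩ := key y (mem_filter.1 (mem_coe.1 hy')).1
      refine D.l_inj x k1 y j1 (k5.symm.trans j5) k2 ?_
      refine D.l_inj _ k2 _ j2 (k6.symm.trans j6) k3 ?_
      refine D.l_inj _ k3 _ j3 (k7.symm.trans j7) k4 ?_
      exact L.inj _ k4 _ j4 (by rw [← k8]; omega) (by rw [← D.l_role _ q2 _ k4 k8]; omega)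
        (k8.symm.trans j8) h

theorem LD.par_role (D : LD T Λ) {x : α} (hx : x ∈ D.U) (hp : T.p x ∈ D.U) (h : D.role x ≤ 1) :
    D.role (T.p x) = 0 ∨ D.role (T.p x) = 3 := by
  have h1 := D.role_le (T.p x)
  have h2 := fun h => (D.z_ch x hp h).2
  have h3 := D.x_ch x hx hp
  omega

/-- Admissible images of a vertex. -/
def okp (D : LD T Λ) (H : Host β) (ψ : α → β) (x : α) (w : β) : Prop :=
  T.p x ∉ D.G → H.R (T.dir x) (ψ (T.p x)) w

theorem class_step (P : Parts D H) {d : ℕ} {ψ : α → β} (L : Lev P d ψ) {x0 : α} (hx : x0 ∈ D.U)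
    (hd : D.rk (D.lab x0) = d) (hrole : D.role x0 ≤ 1) :
    ∃ f : α → β, Set.InjOn f (D.C x0) ∧ ∀ x ∈ D.C x0, f x ∈ fib P.o (Sum.inl (D.lab x0)) ∧
      okp D H ψ x (f x) := by
  have hnon : ∀ x, ((fib P.o (Sum.inl (D.lab x0))).filter fun w =>
      ¬ okp D H ψ x w)
      ⊆ fib P.o (Sum.inl (D.lab x0)) ∩ H.non (T.dir x) (ψ (T.p x)) := by
    intro x w hw
    obtain ⟨h1, h2⟩ := mem_filter.1 hw
    exact mem_inter.2 ⟨h1, H.mem_non.2 fun h => h2 fun _ => h⟩
  have hsub : ∀ w, ((D.C x0).filter fun x => ¬ okp D H ψ x w)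
      ⊆ (D.C x0).filter fun x => ¬ H.R (T.dir x) (ψ (T.p x)) w := by
    intro w x hx'
    obtain ⟨h1, h2⟩ := mem_filter.1 hx'
    exact mem_filter.2 ⟨h1, fun h => h2 fun _ => h⟩
  have h1 : T.p x0 ∉ D.Hv → ∀ x ∈ D.C x0, (((fib P.o (Sum.inl (D.lab x0))).filter fun w =>
      ¬ okp D H ψ x w).card : ℝ) + 0.503 * (D.C x0).card
        ≤ (fib P.o (Sum.inl (D.lab x0))).card := by
    intro hH x _
    have e1 := P.pc x0 hx hrole hH (ψ (T.p x)) (T.dir x)
    have e2 : (((fib P.o (Sum.inl (D.lab x0))).filter fun w =>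
      ¬ okp D H ψ x w).card : ℝ)
        ≤ (fib P.o (Sum.inl (D.lab x0)) ∩ H.non (T.dir x) (ψ (T.p x))).card := by
      exact_mod_cast card_le_card (hnon x)
    linarith
  have hpa := P.pa x0 hx hrole
  rcases D.cover (T.p x0) with hS | hG | hU
  · by_cases hH : T.p x0 ∈ D.Hv
    · have hall : ∀ x ∈ D.C x0, ∀ w ∈ fib P.o (Sum.inl (D.lab x0)),
          okp D H ψ x w := by
        intro x hx' w hw _
        obtain ⟨h3, h4⟩ := D.mem_C.1 hx'
        have e := D.l_hub x0 hx x h3 h4.symm hH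
        rw [L.onS _ (e ▸ hS)]
        exact P.pd x h3 (e ▸ hH) w (h4 ▸ mem_fib.1 hw)
      refine hall_deg (P.φ x0) _ _ ∅ (okp D H ψ) 0 ?_ ?_ (by simpa using hpa)
      · intro x hx'
        rw [add_zero, Nat.cast_le]
        exact card_le_card (filter_subset _ _)
      · intro w hw _
        rw [filter_eq_empty_iff.2 fun x hx' => not_not.2 (hall x hx' w hw)]
        simp
    · refine hall_deg (P.φ x0) _ _ _ (okp D H ψ) _ (h1 hH) ?_ (P.pe x0 hx hS hH)
      intro w _ hw
      simp only [mem_filter, mem_univ, true_and, not_lt] at hw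
      refine le_trans ?_ hw
      rw [Nat.cast_le]
      refine (card_le_card (hsub w)).trans (le_of_eq ?_)
      congr 1
      refine filter_congr fun x hx' => ?_
      obtain ⟨h3, h4⟩ := D.mem_C.1 hx'
      rw [L.onS _ (D.l_med x0 hx x h3 h4.symm hS)]
  · have hall : ∀ x ∈ D.C x0, T.p x ∈ D.G := by
      intro x hx'
      obtain ⟨h3, h4⟩ := D.mem_C.1 hx'
      rcases D.cover (T.p x) with h | h | h
      · exact absurd hG (D.dSG _ (D.l_med x h3 x0 hx h4 h))
      · exact h
      · exact absurd (D.l_in x h3 x0 hx h4 h).1 (D.dGU _ hG)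
    refine hall_deg (P.φ x0) _ _ ∅ (okp D H ψ) 0 ?_ ?_ (by simpa using hpa)
    · intro x hx'
      rw [add_zero, Nat.cast_le]
      exact card_le_card (filter_subset _ _)
    · intro w hw _
      have hok : ∀ x ∈ D.C x0, okp D H ψ x w := fun x hx' h => absurd (hall x hx') h
      rw [filter_eq_empty_iff.2 fun x hx' => not_not.2 (hok x hx')]
      simp
  · refine hall_deg (P.φ x0) _ _ ∅ (okp D H ψ) _ (h1 fun h => D.dSU _ (D.Hv_sub h) hU) ?_ (by simpa using hpa)
    intro w _ _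
    refine le_trans ?_ (inner_count P L hx hU (hd ▸ D.l_rk x0 hx hU) (D.par_role hx hU hrole) w)
    exact_mod_cast card_le_card (hsub w)

theorem exists_lev (P : Parts D H) (d : ℕ) : ∃ ψ, Lev P d ψ := by
  induction d with
  | zero => exact ⟨P.φ, fun _ _ => rfl, by simp, by simp, by simp, by simp⟩
  | succ d ih =>
    obtain ⟨ψ, L⟩ := ih
    have hch : ∀ l : Λ, ∃ f : α → β, ∀ x0 ∈ D.U, D.lab x0 = l → D.rk l = d → D.role x0 ≤ 1 →
        Set.InjOn f (D.C x0) ∧ ∀ x ∈ D.C x0, f x ∈ fib P.o (Sum.inl (D.lab x0)) ∧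
          (T.p x ∉ D.G → H.R (T.dir x) (ψ (T.p x)) (f x)) := by
      intro l
      by_cases h : ∃ x0 ∈ D.U, D.lab x0 = l ∧ D.rk l = d ∧ D.role x0 ≤ 1
      · obtain ⟨x0, h1, h2, h3, h4⟩ := h
        obtain ⟨f, hf⟩ := class_step P L h1 (h2 ▸ h3) h4
        refine ⟨f, fun x1 k1 k2 _ _ => ?_⟩
        rw [D.C_congr (k2.trans h2.symm), k2.trans h2.symm]
        exact hf
      · exact ⟨ψ, fun x0 h1 h2 h3 h4 => absurd ⟨x0, h1, h2, h3, h4⟩ h⟩
    choose f hf using hch
    set χ : α → β := fun x => if x ∈ D.U ∧ D.rk (D.lab x) = d then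
      (if D.role x ≤ 1 then f (D.lab x) x else P.σ (ψ (T.p (T.p x)))) else ψ x with hχ
    have old : ∀ x, (x ∈ D.U → D.rk (D.lab x) ≠ d) → χ x = ψ x := by
      intro x h
      simp only [hχ]
      rw [if_neg fun h' => h h'.1 h'.2]
    have oldp : ∀ x ∈ D.U, D.rk (D.lab x) < d + 1 → χ (T.p x) = ψ (T.p x) := by
      intro x hx h
      refine old _ fun hp => ?_
      have := D.l_rk x hx hp
      omega
    have new : ∀ x ∈ D.U, D.rk (D.lab x) = d → D.role x ≤ 1 → χ x = f (D.lab x) x := by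
      intro x h1 h2 h3
      simp only [hχ, h1, h2, h3, and_self, if_true]
    refine ⟨χ, ?_, ?_, ?_, ?_, ?_⟩
    · intro s hs
      rw [old s fun h => absurd h (D.dSU s hs), L.onS s hs]
    · intro x hx h hr
      by_cases hd : D.rk (D.lab x) = d
      · rw [new x hx hd hr]
        exact mem_fib.1 ((hf _ x hx rfl hd hr).2 x (D.mem_C.2 ⟨hx, rfl⟩)).1
      · rw [old x fun _ => hd]
        exact L.zone x hx (by omega) hr
    · intro x hx h hr hG
      rw [oldp x hx h]
      by_cases hd : D.rk (D.lab x) = d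
      · rw [new x hx hd hr]
        exact ((hf _ x hx rfl hd hr).2 x (D.mem_C.2 ⟨hx, rfl⟩)).2 hG
      · rw [old x fun _ => hd]
        exact L.edge x hx (by omega) hr hG
    · intro x hx y hy h hr hl he
      by_cases hd : D.rk (D.lab x) = d
      · rw [new x hx hd hr, new y hy (hl ▸ hd) (D.l_role x hx y hy hl ▸ hr), ← hl] at he
        exact (hf _ x hx rfl hd hr).1 (D.mem_C.2 ⟨hx, rfl⟩) (D.mem_C.2 ⟨hy, hl.symm⟩) he
      · rw [old x fun _ => hd, old y fun _ => hl ▸ hd] at he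
        exact L.inj x hx y hy (by omega) hr hl he
    · intro y hy h hr
      obtain ⟨q1, q2, q3⟩ := D.y_gp hy hr
      have r1 := D.l_rk _ hy q1
      rw [oldp _ q1 (by omega)]
      by_cases hd : D.rk (D.lab y) = d
      · simp only [hχ, hy, hd, and_self, if_true]
        rw [if_neg (by omega)]
      · rw [old y fun _ => hd]
        exact L.onY y hy (by omega) hr

/-- A partition adapted to a labelled decomposition yields an embedding. -/
theorem embed (P : Parts D H) (hcard : Fintype.card α = Fintype.card β) : ∃ φ, Emb T H φ := by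
  obtain ⟨d, hd⟩ : ∃ d, ∀ x, D.rk (D.lab x) < d :=
    ⟨univ.sup (fun x => D.rk (D.lab x)) + 1, fun x =>
      Nat.lt_succ_of_le (le_sup (f := fun x => D.rk (D.lab x)) (mem_univ x))⟩
  obtain ⟨ψ, L⟩ := exists_lev P d
  obtain ⟨χ, c1, c2, c3, c4⟩ := greedy T H D.G (fib P.o (Sum.inr 1)) ψ (D.dSG _ D.r_mem) D.G_ch P.pr
  have cU : ∀ x ∈ D.U, χ x = ψ x := fun x hx => c1 x fun h => D.dGU x h hx
  have cS : ∀ x ∈ D.S, χ x = P.φ x := fun x hx => by rw [c1 x (D.dSG x hx), L.onS x hx]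
  set Z := D.Ro 2 with hZ
  have zS : ∀ x ∈ D.S, P.o (χ x) = Sum.inr 0 := fun x hx => by rw [cS x hx, P.S_zone x hx]
  have zG : ∀ x ∈ D.G, P.o (χ x) = Sum.inr 1 := fun x hx => mem_fib.1 (c3 x hx)
  have zU : ∀ x ∈ D.U, D.role x ≤ 1 → P.o (χ x) = Sum.inl (D.lab x) := fun x hx h => by
    rw [cU x hx, L.zone x hx (hd x) h]
  have zY : ∀ x ∈ D.U, D.role x = 3 → P.o (χ x) = Sum.inr 3 := fun x hx h => by
    obtain ⟨q1, q2, q3⟩ := D.y_gp hx h
    rw [cU x hx, L.onY x hx (hd x) h]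
    exact P.σ_zone _ q2 q3 _ (L.zone _ q2 (hd _) (by omega))
  have kinds : ∀ x, x ∉ Z → x ∈ D.S ∨ x ∈ D.G ∨ (x ∈ D.U ∧ D.role x ≤ 1) ∨ (x ∈ D.U ∧ D.role x = 3) := by
    intro x hx
    rw [hZ, D.mem_Ro] at hx
    have := D.role_le x
    rcases D.cover x with h | h | h
    · exact Or.inl h
    · exact Or.inr (Or.inl h)
    · have : D.role x ≠ 2 := fun h' => hx ⟨h, h'⟩
      by_cases h3 : D.role x = 3
      · exact Or.inr (Or.inr (Or.inr ⟨h, h3⟩))
      · exact Or.inr (Or.inr (Or.inl ⟨h, by omega⟩))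
  have injU : ∀ x ∈ D.U, ∀ y ∈ D.U, D.role x ≤ 1 → D.role y ≤ 1 → ψ x = ψ y → x = y := by
    intro x hx y hy h1 h2 he
    have e1 := L.zone x hx (hd x) h1
    have e2 := L.zone y hy (hd y) h2
    rw [he, e2] at e1
    exact L.inj x hx y hy (hd x) h1 (Sum.inl.inj e1).symm he
  have hinj : Set.InjOn χ ((univ \ Z : Finset α) : Set α) := by
    intro x hx y hy he
    have hx' := kinds x (mem_sdiff.1 (mem_coe.1 hx)).2
    have hy' := kinds y (mem_sdiff.1 (mem_coe.1 hy)).2
    have ho : P.o (χ x) = P.o (χ y) := by rw [he]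
    rcases hx' with h | h | ⟨h, h'⟩ | ⟨h, h'⟩ <;> rcases hy' with k | k | ⟨k, k'⟩ | ⟨k, k'⟩
    · rw [cS x h, cS y k] at he; exact P.S_inj h k he
    · rw [zS x h, zG y k] at ho; simp at ho
    · rw [zS x h, zU y k k'] at ho; simp at ho
    · rw [zS x h, zY y k k'] at ho; simp at ho
    · rw [zG x h, zS y k] at ho; simp at ho
    · exact c2 h k he
    · rw [zG x h, zU y k k'] at ho; simp at ho
    · rw [zG x h, zY y k k'] at ho; simp at ho
    · rw [zU x h h', zS y k] at ho; simp at ho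
    · rw [zU x h h', zG y k] at ho; simp at ho
    · rw [cU x h, cU y k] at he; exact injU x h y k h' k' he
    · rw [zU x h h', zY y k k'] at ho; simp at ho
    · rw [zY x h h', zS y k] at ho; simp at ho
    · rw [zY x h h', zG y k] at ho; simp at ho
    · rw [zY x h h', zU y k k'] at ho; simp at ho
    · obtain ⟨q1, q2, q3⟩ := D.y_gp h h'
      obtain ⟨s1, s2, s3⟩ := D.y_gp k k'
      rw [cU x h, cU y k, L.onY x h (hd x) h', L.onY y k (hd y) k'] at he
      have e1 := P.σ_inj _ q2 q3 _ s2 s3 _ _ (L.zone _ q2 (hd _) (by omega))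
        (L.zone _ s2 (hd _) (by omega)) he
      have e2 := injU _ q2 _ s2 (by omega) (by omega) e1
      obtain ⟨t1, -, t3, -⟩ := D.y_par x h h'
      obtain ⟨-, -, t3', -⟩ := D.y_par y k k'
      exact D.y_inj x h y k h' k' (D.z_inj t1 _ q1 _ s1 t3 t3' e2)
  set Lf : Finset β := univ \ (univ \ Z).image χ with hLf
  have hLc : Lf.card = Z.card := by
    rw [hLf, card_sdiff_of_subset (subset_univ _), card_image_of_injOn hinj,
      card_sdiff_of_subset (subset_univ _), card_univ, card_univ, ← hcard]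
    have := card_le_univ Z
    omega
  have hzL : fib P.o (Sum.inr 2) ⊆ Lf := by
    intro w hw
    rw [hLf, mem_sdiff]
    refine ⟨mem_univ _, fun h => ?_⟩
    obtain ⟨x, hx, rfl⟩ := mem_image.1 h
    have ho := mem_fib.1 hw
    rcases kinds x (mem_sdiff.1 hx).2 with h | h | ⟨h, h'⟩ | ⟨h, h'⟩
    · rw [zS x h] at ho; simp at ho
    · rw [zG x h] at ho; simp at ho
    · rw [zU x h h'] at ho; simp at ho
    · rw [zY x h h'] at ho; simp at ho
  have hfin : ∃ f : α → β, Set.InjOn f Z ∧ ∀ z ∈ Z, f z ∈ Lf ∧ H.R (T.dir z) (ψ (T.p z)) (f z) ∧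
      (D.mode = true → H.R (!D.b2) (P.σ (ψ (T.p z))) (f z)) := by
    cases hm : D.mode
    · obtain ⟨f, hf1, hf2⟩ := hall_deg (P.φ T.r) Z Lf ∅ (fun z w => H.R (T.dir z) (ψ (T.p z)) w)
        (0.503 * Z.card) (by
          intro z hz
          have e1 : (Lf.filter fun w => ¬ H.R (T.dir z) (ψ (T.p z)) w) ⊆
              (Lf \ fib P.o (Sum.inr 2)) ∪ (fib P.o (Sum.inr 2) ∩ H.non (T.dir z) (ψ (T.p z))) := by
            intro w hw
            obtain ⟨h1, h2⟩ := mem_filter.1 hw
            simp only [mem_union, mem_sdiff, mem_inter, h1, true_and, H.mem_non, h2, not_false_eq_true,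
              and_true]
            tauto
          have e2 := (card_le_card e1).trans (card_union_le _ _)
          rw [card_sdiff_of_subset hzL] at e2
          have e3 := card_le_card hzL
          have e4 : (Lf.filter fun w => ¬ H.R (T.dir z) (ψ (T.p z)) w).card + (fib P.o (Sum.inr 2)).card
              ≤ Z.card + (fib P.o (Sum.inr 2) ∩ H.non (T.dir z) (ψ (T.p z))).card := by omega
          have e5 : ((Lf.filter fun w => ¬ H.R (T.dir z) (ψ (T.p z)) w).card : ℝ)
              + (fib P.o (Sum.inr 2)).card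
              ≤ Z.card + (fib P.o (Sum.inr 2) ∩ H.non (T.dir z) (ψ (T.p z))).card := by
            exact_mod_cast e4
          have e6 := P.pz
          have e7 := P.pz' (ψ (T.p z)) (T.dir z)
          rw [← hZ] at e6 e7
          have e8 : (0 : ℝ) ≤ Z.card := Nat.cast_nonneg _
          rw [hLc]
          linarith)
        (by
          intro w _ _
          refine card_le_of_fiber Z D.lab _ _ fun z0 hz0 => ?_
          obtain ⟨h1, h2⟩ := D.mem_Ro.1 hz0
          have e : (Z.filter fun z => D.lab z = D.lab z0) = D.C z0 := by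
            ext z
            simp only [mem_filter, hZ, D.mem_Ro, D.mem_C]
            exact ⟨fun h => ⟨h.1.1, h.2⟩, fun h => ⟨⟨h.1, D.l_role z h.1 z0 h1 h.2 ▸ h2⟩, h.2⟩⟩
          rw [e]
          obtain ⟨h3, h4, -⟩ := D.z_par z0 h1 h2
          rw [hm] at h4
          exact inner_count P L h1 h3 (hd _) (Or.inl h4) w)
        (by simp [hLc])
      exact ⟨f, hf1, fun z hz => ⟨(hf2 z hz).1, (hf2 z hz).2, by simp⟩⟩
    · obtain ⟨f, hf1, hf2⟩ := hall (P.φ T.r) Z (fun z => Lf.filter fun w =>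
        H.R D.b1 (ψ (T.p z)) w ∧ H.R (!D.b2) (P.σ (ψ (T.p z))) w) (by
          intro s hs
          have hpar : ∀ z ∈ s, z ∈ D.U ∧ D.role z = 2 ∧ T.p z ∈ D.U ∧ D.role (T.p z) = 1 := by
            intro z hz
            obtain ⟨h1, h2⟩ := D.mem_Ro.1 (hs hz)
            obtain ⟨h3, h4, -⟩ := D.z_par z h1 h2
            rw [hm] at h4
            exact ⟨h1, h2, h3, h4⟩
          have e1 := P.pz'' hm Lf hzL hLc (s.image fun z => ψ (T.p z)) (by
            intro a ha
            obtain ⟨z, hz, rfl⟩ := mem_image.1 ha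
            obtain ⟨h1, h2, h3, h4⟩ := hpar z hz
            exact ⟨_, h3, h4, L.zone _ h3 (hd _) (by omega)⟩)
          rw [card_image_of_injOn (by
            intro z hz z' hz' he
            obtain ⟨h1, h2, h3, h4⟩ := hpar z hz
            obtain ⟨k1, k2, k3, k4⟩ := hpar z' hz'
            exact D.z_inj hm z h1 z' k1 h2 k2 (injU _ h3 _ k3 (by omega) (by omega) he))] at e1
          refine e1.trans (card_le_card ?_)
          intro w hw
          obtain ⟨h1, a, ha, h2⟩ := mem_filter.1 hw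
          obtain ⟨z, hz, rfl⟩ := mem_image.1 ha
          exact mem_biUnion.2 ⟨z, hz, mem_filter.2 ⟨h1, h2⟩⟩)
      refine ⟨f, hf1, fun z hz => ?_⟩
      obtain ⟨h1, h2, h3⟩ := mem_filter.1 (hf2 z hz)
      obtain ⟨k1, k2⟩ := D.mem_Ro.1 hz
      exact ⟨h1, by rw [(D.z_par z k1 k2).2.2 hm]; exact h2, fun _ => h3⟩
  obtain ⟨f, hf1, hf2⟩ := hfin
  refine ⟨fun v => if v ∈ Z then f v else χ v, ?_, ?_⟩
  · have hout : ∀ z ∈ Z, ∀ v, v ∉ Z → f z ≠ χ v := by
      intro z hz v hv h
      have := (hf2 z hz).1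
      rw [hLf, mem_sdiff] at this
      exact this.2 (mem_image.2 ⟨v, mem_sdiff.2 ⟨mem_univ _, hv⟩, h.symm⟩)
    intro x y he
    by_cases hx : x ∈ Z <;> by_cases hy : y ∈ Z <;> simp only [hx, hy, if_true, if_false] at he
    · exact hf1 hx hy he
    · exact absurd he (hout x hx y hy)
    · exact absurd he.symm (hout y hy x hx)
    · exact hinj (by simp [hx]) (by simp [hy]) he
  · intro v hv
    by_cases hvZ : v ∈ Z
    · obtain ⟨k1, k2⟩ := D.mem_Ro.1 hvZ
      obtain ⟨h3, h4, -⟩ := D.z_par v k1 k2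
      have : T.p v ∉ Z := by
        intro h
        have := (D.mem_Ro.1 h).2
        split_ifs at h4 <;> omega
      simp only [hvZ, this, if_true, if_false]
      rw [cU _ h3]
      exact (hf2 v hvZ).2.1
    · by_cases hp : T.p v ∈ Z
      · simp only [hvZ, hp, if_true, if_false]
        obtain ⟨k1, k2⟩ := D.mem_Ro.1 hp
        obtain ⟨h1, h2⟩ := D.z_ch v k1 k2
        obtain ⟨h3, -, -, h4⟩ := D.y_par v h1 h2
        rw [cU v h1, L.onY v h1 (hd v) h2, h4, H.symm]
        exact (hf2 _ hp).2.2 h3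
      · simp only [hvZ, hp, if_false]
        by_cases hG : v ∈ D.G ∨ T.p v ∈ D.G
        · exact c4 v hv hG
        · rw [not_or] at hG
          rcases kinds v hvZ with h | h | ⟨h, h'⟩ | ⟨h, h'⟩
          · have hpS : T.p v ∈ D.S := by
              rcases D.cover (T.p v) with k | k | k
              · exact k
              · exact absurd k hG.2
              · exact absurd k (D.S_par v h)
            rw [cS v h, cS _ hpS]
            exact P.S_edge v h hv hpS
          · exact absurd h hG.1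
          · rw [c1 _ hG.1, c1 _ hG.2]
            exact L.edge v h (hd v) h' hG.2
          · obtain ⟨-, h1, h2, -⟩ := D.y_par v h h'
            exact absurd (D.mem_Ro.2 ⟨h1, h2⟩) hp

end Pool.Agent.MP_6f6f6b_co

end MrgPart3

-- ======== part 4: formerly Pool.Agent.MP_6f6f6b_co.Main
section MrgPart4

set_option autoImplicit false
set_option linter.unusedVariables false
set_option linter.unusedSectionVars false

open Finset Filter Topology
open scoped Classical

namespace Pool.Agent.MP_6f6f6b_co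

theorem exp_beats (c : ℝ) (hc : 0 < c) (r : ℕ) :
    ∃ N : ℕ, ∀ n : ℕ, N ≤ n → 9 * (n : ℝ) ^ 2 + (n : ℝ) ^ r < Real.exp (c * n) := by
  have h1 := (isLittleO_pow_exp_pos_mul_atTop 2 hc).def (show (0 : ℝ) < 1 / 20 by norm_num)
  have h2 := (isLittleO_pow_exp_pos_mul_atTop r hc).def (show (0 : ℝ) < 1 / 2 by norm_num)
  obtain ⟨N, hN⟩ := eventually_atTop.1 (tendsto_natCast_atTop_atTop.eventually (h1.and h2))
  refine ⟨N, fun n hn => ?_⟩
  obtain ⟨e1, e2⟩ := hN n hn
  have e3 := Real.exp_pos (c * n)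
  rw [Real.norm_eq_abs, Real.norm_eq_abs, abs_of_pos e3] at e1 e2
  have e4 := le_abs_self ((n : ℝ) ^ 2)
  have e5 := le_abs_self ((n : ℝ) ^ r)
  linarith

/-- Every large rooted oriented tree embeds in every host of the same order with a universal vertex. -/
theorem main_rooted : ∃ N : ℕ, ∀ (α β : Type) [Fintype α] [Fintype β], N ≤ Fintype.card β →
    Fintype.card α = Fintype.card β → ∀ (H : Host β) (u : β), (∀ b w, w ≠ u → H.R b u w) →
    ∀ T : RTree α, ∃ φ, Emb T H φ := by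
  obtain ⟨η, εM, εH, a, h1, h2, h3, h4, h5, N1, hN1⟩ := treeA
  obtain ⟨r, hr⟩ := exists_pow_lt_of_lt_one (show (0 : ℝ) < 0.005 by norm_num)
    (show (0.995 : ℝ) < 1 by norm_num)
  obtain ⟨N2, hN2⟩ := exp_beats ((η * εH / 100) ^ 2 / 4) (by positivity) r
  refine ⟨max N1 N2, fun α β _ _ hN hcard H u hu T => ?_⟩
  by_cases hI : 1000 * T.inner.card ≤ Fintype.card β
  · exact caseB T H u hu hcard hI
  · obtain ⟨Λ, D, hD⟩ := hN1 α T (hcard ▸ le_of_max_le_left hN) (hcard ▸ not_le.1 hI)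
    obtain ⟨P⟩ := exists_parts D H u hu hcard η εM εH a h1 h2 h3 h4 h5 (hcard ▸ hD) r hr.le (by
      have := hN2 _ (le_of_max_le_right hN)
      rwa [div_mul_eq_mul_div] at this)
    exact embed P hcard

variable {V : Type}

theorem up_unique {G : SimpleGraph V} (hG : G.IsTree) (r : V) {v u u' : V}
    (hu : G.Adj v u) (hu' : G.Adj v u') (h : G.dist r v = G.dist r u + 1)
    (h' : G.dist r v = G.dist r u' + 1) : u = u' := by
  obtain ⟨p, hp, hpl⟩ := hG.connected.exists_path_of_dist r u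
  obtain ⟨p', hp', hpl'⟩ := hG.connected.exists_path_of_dist r u'
  have hq : (p.concat hu.symm).IsPath :=
    SimpleGraph.Walk.isPath_of_length_eq_dist _ (by rw [SimpleGraph.Walk.length_concat]; omega)
  have hq' : (p'.concat hu'.symm).IsPath :=
    SimpleGraph.Walk.isPath_of_length_eq_dist _ (by rw [SimpleGraph.Walk.length_concat]; omega)
  have heq : p.concat hu.symm = p'.concat hu'.symm :=
    Subtype.mk.inj <| (hG.isAcyclic.subsingleton_path r v).elim ⟨_, hq⟩ ⟨_, hq'⟩
  have := congrArg SimpleGraph.Walk.penultimate heq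
  simpa using this

theorem up_exists {G : SimpleGraph V} (hG : G.IsTree) (r : V) {v : V} (hv : v ≠ r) :
    ∃ u, G.Adj v u ∧ G.dist r v = G.dist r u + 1 := by
  obtain ⟨p, _, hpl⟩ := hG.connected.exists_path_of_dist v r
  cases p with
  | nil => exact absurd rfl hv
  | @cons _ u _ h q =>
    refine ⟨u, h, ?_⟩
    have h1 : G.dist u r ≤ q.length := SimpleGraph.dist_le q
    rw [SimpleGraph.Walk.length_cons] at hpl
    rw [SimpleGraph.dist_comm (u := v)] at hpl
    rw [SimpleGraph.dist_comm (u := u)] at h1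
    rcases hG.dist_eq_dist_add_one_of_adj r h with h2 | h2 <;> omega

/-- A tree can be rooted. -/
theorem exists_rooting {G : SimpleGraph V} (hG : G.IsTree) (r : V) :
    ∃ par : V → V, par r = r ∧ (∀ v, v ≠ r → G.dist r v = G.dist r (par v) + 1) ∧
      ∀ v u, G.Adj v u → (u ≠ r ∧ par u = v) ∨ (v ≠ r ∧ par v = u) := by
  have key : ∀ v, ∃ u, (v = r → u = r) ∧ (v ≠ r → G.Adj v u ∧ G.dist r v = G.dist r u + 1) := by
    intro v
    by_cases hv : v = r
    · exact ⟨r, fun _ => rfl, fun h => absurd hv h⟩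
    · obtain ⟨u, hu⟩ := up_exists hG r hv
      exact ⟨u, fun h => absurd h hv, fun _ => hu⟩
  choose par hp0 hpar using key
  refine ⟨par, hp0 r rfl, fun v hv => (hpar v hv).2, ?_⟩
  intro v u hvu
  rcases hG.dist_eq_dist_add_one_of_adj r hvu with h | h
  · have hv : v ≠ r := by
      rintro rfl
      rw [SimpleGraph.dist_self] at h
      omega
    exact Or.inr ⟨hv, up_unique hG r (hpar v hv).1 hvu (hpar v hv).2 h⟩
  · have hu : u ≠ r := by
      rintro rfl
      rw [SimpleGraph.dist_self] at h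
      omega
    exact Or.inl ⟨hu, up_unique hG r (hpar u hu).1 hvu.symm (hpar u hu).2 h⟩

theorem non_card {n : ℕ} (P : Fin n → Prop) (h : 3 * {w : Fin n | P w}.ncard > 2 * n) :
    3 * (univ.filter fun y => ¬ P y).card < Fintype.card (Fin n) := by
  have e1 : {w : Fin n | P w}.ncard = (univ.filter P).card := by
    rw [← Set.ncard_coe_finset]
    congr 1
    ext w
    simp
  have e2 := card_filter_add_card_filter_not (s := (univ : Finset (Fin n))) P
  rw [card_univ] at e2
  rw [Fintype.card_fin] at e2 ⊢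
  omega

theorem main : ∃ N : ℕ, ∀ n : ℕ, N ≤ n → ∀ D : Digraph (Fin n),
      (∀ v : Fin n,
        3 * {w : Fin n | w ≠ v ∧ D.Adj v w}.ncard > 2 * n ∧
        3 * {w : Fin n | w ≠ v ∧ D.Adj w v}.ncard > 2 * n) →
      (∃ u : Fin n, ∀ w : Fin n, w ≠ u → D.Adj u w ∧ D.Adj w u) →
      ∀ T : Digraph (Fin n),
        (∀ a : Fin n, ¬ T.Adj a a) →
        (∀ a b : Fin n, T.Adj a b → ¬ T.Adj b a) →
        (SimpleGraph.fromRel T.Adj).IsTree →
        ∃ f : Fin n → Fin n, Function.Injective f ∧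
          ∀ a b : Fin n, T.Adj a b → D.Adj (f a) (f b) := by
  obtain ⟨N, hN⟩ := main_rooted
  refine ⟨N, fun n hn D hdeg ⟨u, hu⟩ T h1 h2 h3 => ?_⟩
  obtain ⟨par, hp0, hp1, hp2⟩ := exists_rooting h3 u
  let R : Bool → Fin n → Fin n → Prop := fun b x y =>
    match b with
    | true => y ≠ x ∧ D.Adj x y
    | false => y ≠ x ∧ D.Adj y x
  let H : Host (Fin n) := ⟨R, by
    intro b x y
    cases b <;> simp only [R, Bool.not_false, Bool.not_true, ne_comm], by
    intro b x
    cases b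
    · convert non_card _ (hdeg x).2
    · convert non_card _ (hdeg x).1⟩
  let T' : RTree (Fin n) := ⟨u, par, fun v => (SimpleGraph.fromRel T.Adj).dist u v,
    fun v => decide (T.Adj (par v) v), hp0, SimpleGraph.dist_self, hp1⟩
  obtain ⟨φ, hφ1, hφ2⟩ := hN (Fin n) (Fin n) (by simpa using hn) rfl H u (by
    intro b w hw
    cases b
    · exact ⟨hw, (hu w hw).2⟩
    · exact ⟨hw, (hu w hw).1⟩) T'
  refine ⟨φ, hφ1, fun a b hab => ?_⟩
  have hne : a ≠ b := by rintro rfl; exact h1 a hab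
  rcases hp2 a b ((SimpleGraph.fromRel_adj _ _ _).2 ⟨hne, Or.inl hab⟩) with ⟨h, e⟩ | ⟨h, e⟩
  · have := hφ2 b h
    simp only [T', H, e, hab, decide_true, R] at this
    exact this.2
  · have := hφ2 a h
    simp only [T', H, e, h2 a b hab, decide_false, R] at this
    exact this.2

end Pool.Agent.MP_6f6f6b_co

end MrgPart4

-- marker of a merged file
example : 731051 + 762271 = 731051 + 762271 := rfl
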